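import Pool.Agent.Rook.Defs

/-! Module A1 of project ROOK: the local inequality. -/

namespace Rook

open Finset Classical

variable {α : Type} (op : α → α → α)

/-- the symmetric triple relation -/
def E (x y z : α) : Prop :=
  op x y = z ∨ op y x = z ∨ op x z = y ∨ op z x = y ∨ op y z = x ∨ op z y = x

lemma E_swap (x y z : α) : E op x y z → E op y x z := by
  unfold E; tauto

lemma E_swap' (x y z : α) : E op x y z → E op x z y := by
  unfold E; tauto

variable {op}

lemma indep_iff (h : IdLS op) (S : Finset α) :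
    Indep op S ↔ ∀ x ∈ S, ∀ y ∈ S, ∀ z ∈ S, x ≠ y → x ≠ z → y ≠ z → ¬ E op x y z := by
  constructor
  · intro hS x hx y hy z hz hxy hxz hyz hE
    rcases hE with e | e | e | e | e | e
    · exact hS x hx y hy hxy (e ▸ hz)
    · exact hS y hy x hx hxy.symm (e ▸ hz)
    · exact hS x hx z hz hxz (e ▸ hy)
    · exact hS z hz x hx hxz.symm (e ▸ hy)
    · exact hS y hy z hz hyz (e ▸ hx)
    · exact hS z hz y hy hyz.symm (e ▸ hx)
  · intro hS p hp q hq hpq hmem
    refine hS p hp q hq (op p q) hmem hpq ?_ ?_ (Or.inl rfl)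
    · intro e
      apply hpq
      apply h.row p
      rw [h.idem p]; exact e
    · intro e
      apply hpq
      apply h.col q
      simp only
      rw [h.idem q]; exact e.symm

lemma Indep.mono {S T : Finset α} (hT : Indep op T) (hST : S ⊆ T) : Indep op S :=
  fun p hp q hq hpq hm => hT p (hST hp) q (hST hq) hpq (hST hm)

lemma card_E_le [Fintype α] (h : IdLS op) (x y : α) :
    (univ.filter (fun z => E op x y z)).card ≤ 6 := by
  have h1 : (univ.filter (fun z => op x y = z)).card ≤ 1 :=
    card_le_one.2 (by intro a ha b hb; simp at ha hb; rw [← ha, ← hb])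
  have h2 : (univ.filter (fun z => op y x = z)).card ≤ 1 :=
    card_le_one.2 (by intro a ha b hb; simp at ha hb; rw [← ha, ← hb])
  have h3 : (univ.filter (fun z => op x z = y)).card ≤ 1 :=
    card_le_one.2 (by
      intro a ha b hb; simp at ha hb; exact h.row x (ha.trans hb.symm))
  have h4 : (univ.filter (fun z => op z x = y)).card ≤ 1 :=
    card_le_one.2 (by
      intro a ha b hb; simp at ha hb; exact h.col x (ha.trans hb.symm))
  have h5 : (univ.filter (fun z => op y z = x)).card ≤ 1 :=
    card_le_one.2 (by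
      intro a ha b hb; simp at ha hb; exact h.row y (ha.trans hb.symm))
  have h6 : (univ.filter (fun z => op z y = x)).card ≤ 1 :=
    card_le_one.2 (by
      intro a ha b hb; simp at ha hb; exact h.col y (ha.trans hb.symm))
  have hsub : (univ.filter (fun z => E op x y z)) ⊆
      (univ.filter (fun z => op x y = z)) ∪ ((univ.filter (fun z => op y x = z)) ∪
      ((univ.filter (fun z => op x z = y)) ∪ ((univ.filter (fun z => op z x = y)) ∪
      ((univ.filter (fun z => op y z = x)) ∪ (univ.filter (fun z => op z y = x)))))) := by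
    intro z hz
    simp only [mem_filter, mem_univ, true_and, mem_union] at hz ⊢
    exact hz
  refine (card_le_card hsub).trans ?_
  refine (card_union_le _ _).trans ?_
  have := card_union_le (univ.filter (fun z => op y x = z))
      ((univ.filter (fun z => op x z = y)) ∪ ((univ.filter (fun z => op z x = y)) ∪
      ((univ.filter (fun z => op y z = x)) ∪ (univ.filter (fun z => op z y = x)))))
  have := card_union_le (univ.filter (fun z => op x z = y)) ((univ.filter (fun z => op z x = y)) ∪
      ((univ.filter (fun z => op y z = x)) ∪ (univ.filter (fun z => op z y = x))))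
  have := card_union_le (univ.filter (fun z => op z x = y))
      ((univ.filter (fun z => op y z = x)) ∪ (univ.filter (fun z => op z y = x)))
  have := card_union_le (univ.filter (fun z => op y z = x)) (univ.filter (fun z => op z y = x))
  omega

variable (op)

/-- independent subsets of `U` -/
noncomputable def Ind (U : Finset α) : Finset (Finset α) :=
  U.powerset.filter (fun T => Indep op T)

/-- number of independent subsets `T` of `U` such that `T ∪ {v}` is independent -/
noncomputable def Jn (v : α) (U : Finset α) : ℕ :=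
  ((Ind op U).filter (fun T => Indep op (insert v T))).card

variable (rk : α → ℕ)

/-- number of link edges of `v` inside `T` -/
noncomputable def av (v : α) (T : Finset α) : ℕ :=
  ((T ×ˢ T).filter (fun z => rk z.1 < rk z.2 ∧ E op v z.1 z.2)).card

/-- upper endpoints of link edges of `v` in `U` -/
noncomputable def Yv (v : α) (U : Finset α) : Finset α :=
  U.filter (fun y => ∃ x ∈ U, rk x < rk y ∧ E op v x y)

/-- clean pairs `(v, U)` -/
def Clean (v : α) (U : Finset α) : Prop :=
  (∀ y ∈ Yv op rk v U, ∀ y' ∈ Yv op rk v U, y ≠ y' → ¬ E op v y y') ∧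
  (∀ y ∈ Yv op rk v U, ∀ y' ∈ Yv op rk v U, ∀ a ∈ U, y ≠ y' → y ≠ a → y' ≠ a → ¬ E op y y' a)

/-- open vertices of `Y` with respect to `T'` -/
noncomputable def Op (Y T' : Finset α) : Finset α := Y.filter (fun y => Indep op (insert y T'))

/-- blocked vertices -/
noncomputable def Bl (v : α) (Y T' : Finset α) : Finset α :=
  (Op op Y T').filter (fun y => ∃ x ∈ T', rk x < rk y ∧ E op v x y)

variable {op} {rk}

omit op in
lemma ne_of_rk {x y : α} (h : rk x < rk y) : x ≠ y := by
  rintro rfl; exact lt_irrefl _ h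

lemma indep_union (h : IdLS op) {v : α} {U : Finset α} (hc : Clean op rk v U)
    {T' T'' : Finset α} (hT' : T' ⊆ U \ Yv op rk v U) (hi : Indep op T') (hT'' : T'' ⊆ Yv op rk v U) :
    Indep op (T' ∪ T'') ↔ T'' ⊆ Op op (Yv op rk v U) T' := by
  have hYU : Yv op rk v U ⊆ U := filter_subset _ _
  constructor
  · intro hI y hy
    refine mem_filter.2 ⟨hT'' hy, hI.mono ?_⟩
    intro z hz
    rcases mem_insert.1 hz with rfl | hz
    · exact mem_union_right _ hy
    · exact mem_union_left _ hz
  · intro hO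
    rw [indep_iff h]
    have key : ∀ x ∈ T' ∪ T'', ∀ y ∈ T' ∪ T'', ∀ z ∈ T' ∪ T'', x ≠ y → x ≠ z → y ≠ z →
        x ∈ T'' → ¬ E op x y z := by
      intro x hx y hy z hz hxy hxz hyz hxT hE
      have hzU : z ∈ U := by
        rcases mem_union.1 hz with h1 | h1
        · exact (mem_sdiff.1 (hT' h1)).1
        · exact hYU (hT'' h1)
      have hyU : y ∈ U := by
        rcases mem_union.1 hy with h1 | h1
        · exact (mem_sdiff.1 (hT' h1)).1
        · exact hYU (hT'' h1)
      rcases mem_union.1 hy with hy1 | hy1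
      · rcases mem_union.1 hz with hz1 | hz1
        · -- both in T'
          have hxO := hO hxT
          have := (mem_filter.1 hxO).2
          rw [indep_iff h] at this
          exact this x (mem_insert_self _ _) y (mem_insert_of_mem hy1) z (mem_insert_of_mem hz1)
            hxy hxz hyz hE
        · exact hc.2 x (hT'' hxT) z (hT'' hz1) y hyU hxz hxy hyz.symm (E_swap' op _ _ _ hE)
      · exact hc.2 x (hT'' hxT) y (hT'' hy1) z hzU hxy hxz hyz hE
    intro x hx y hy z hz hxy hxz hyz hE
    by_cases hxT : x ∈ T''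
    · exact key x hx y hy z hz hxy hxz hyz hxT hE
    by_cases hyT : y ∈ T''
    · exact key y hy x hx z hz hxy.symm hyz hxz hyT (E_swap op _ _ _ hE)
    by_cases hzT : z ∈ T''
    · refine key z hz x hx y hy hxz.symm hyz.symm hxy hzT ?_
      exact E_swap op _ _ _ (E_swap' op _ _ _ hE)
    have hx1 : x ∈ T' := (mem_union.1 hx).resolve_right hxT
    have hy1 : y ∈ T' := (mem_union.1 hy).resolve_right hyT
    have hz1 : z ∈ T' := (mem_union.1 hz).resolve_right hzT
    rw [indep_iff h] at hi
    exact hi x hx1 y hy1 z hz1 hxy hxz hyz hE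

lemma indep_insert_iff (h : IdLS op) (hrk : Function.Injective rk) {v : α} {T : Finset α}
    (hv : v ∉ T) (hT : Indep op T) :
    Indep op (insert v T) ↔ ∀ x ∈ T, ∀ y ∈ T, rk x < rk y → ¬ E op v x y := by
  constructor
  · intro hI x hx y hy hxy
    rw [indep_iff h] at hI
    refine hI v (mem_insert_self _ _) x (mem_insert_of_mem hx) y (mem_insert_of_mem hy) ?_ ?_ (ne_of_rk hxy)
    · rintro rfl; exact hv hx
    · rintro rfl; exact hv hy
  · intro hE
    rw [indep_iff h] at hT ⊢
    have key : ∀ x ∈ T, ∀ y ∈ T, x ≠ y → ¬ E op v x y := by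
      intro x hx y hy hxy hh
      rcases lt_or_gt_of_ne (fun e => hxy (hrk e)) with h1 | h1
      · exact hE x hx y hy h1 hh
      · exact hE y hy x hx h1 (E_swap' op _ _ _ hh)
    intro x hx y hy z hz hxy hxz hyz hh
    rcases mem_insert.1 hx with hx0 | hx1
    · subst hx0
      have hy1 := (mem_insert.1 hy).resolve_left hxy.symm
      have hz1 := (mem_insert.1 hz).resolve_left hxz.symm
      exact key y hy1 z hz1 hyz hh
    · rcases mem_insert.1 hy with hy0 | hy1
      · subst hy0
        have hz1 := (mem_insert.1 hz).resolve_left hyz.symm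
        exact key x hx1 z hz1 hxz (E_swap op _ _ _ hh)
      · rcases mem_insert.1 hz with hz0 | hz1
        · subst hz0
          exact key x hx1 y hy1 hxy (E_swap op _ _ _ (E_swap' op _ _ _ hh))
        · exact hT x hx1 y hy1 z hz1 hxy hxz hyz hh

lemma insert_union_iff (h : IdLS op) (hrk : Function.Injective rk) {v : α} {U : Finset α} (hvU : v ∉ U) (hc : Clean op rk v U)
    {T' T'' : Finset α} (hT' : T' ⊆ U \ Yv op rk v U) (hi : Indep op T')
    (hT'' : T'' ⊆ Op op (Yv op rk v U) T') :
    Indep op (insert v (T' ∪ T'')) ↔ Disjoint T'' (Bl op rk v (Yv op rk v U) T') := by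
  have hYU : Yv op rk v U ⊆ U := filter_subset _ _
  have hT''Y : T'' ⊆ Yv op rk v U := hT''.trans (filter_subset _ _)
  have hind : Indep op (T' ∪ T'') := (indep_union h hc hT' hi hT''Y).2 hT''
  have hTU : T' ∪ T'' ⊆ U := union_subset (hT'.trans sdiff_subset) (hT''Y.trans hYU)
  rw [indep_insert_iff h hrk (fun hv => hvU (hTU hv)) hind]
  constructor
  · intro hE
    rw [Finset.disjoint_left]
    intro y hy hyB
    obtain ⟨x, hx, hxy, hh⟩ := (mem_filter.1 hyB).2
    exact hE x (mem_union_left _ hx) y (mem_union_right _ hy) hxy hh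
  · intro hD x hx y hy hxy hh
    have hyY : y ∈ Yv op rk v U := mem_filter.2 ⟨hTU hy, x, hTU hx, hxy, hh⟩
    have hy1 : y ∈ T'' := by
      rcases mem_union.1 hy with h1 | h1
      · exact absurd hyY (mem_sdiff.1 (hT' h1)).2
      · exact h1
    have hx1 : x ∈ T' := by
      rcases mem_union.1 hx with h1 | h1
      · exact h1
      · exact absurd hh (hc.1 x (hT''Y h1) y hyY (ne_of_rk hxy))
    rw [Finset.disjoint_left] at hD
    exact hD hy1 (mem_filter.2 ⟨hT'' hy1, x, hx1, hxy, hh⟩)

lemma av_ge {v : α} {Y T' T'' : Finset α} :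
    (T'' ∩ Bl op rk v Y T').card ≤ av op rk v (T' ∪ T'') := by
  unfold av
  have hch : ∀ y ∈ T'' ∩ Bl op rk v Y T', ∃ x ∈ T', rk x < rk y ∧ E op v x y :=
    fun y hy => (mem_filter.1 (mem_inter.1 hy).2).2
  choose! f hf1 hf2 hf3 using hch
  refine card_le_card_of_injOn (fun y => (f y, y)) ?_ ?_
  · intro y hy
    have hy' : y ∈ T'' ∩ Bl op rk v Y T' := by simpa using hy
    simp only [coe_filter, Set.mem_ofPred_eq, mem_product]
    exact ⟨⟨mem_union_left _ (hf1 y hy'), mem_union_right _ (mem_inter.1 hy').1⟩,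
      hf2 y hy', hf3 y hy'⟩
  · intro a _ b _ hab
    exact (Prod.ext_iff.1 hab).2

/-- splitting sums over independent sets of a clean `U` -/
lemma sum_ind_split (h : IdLS op) {v : α} {U : Finset α} (hc : Clean op rk v U)
    (F : Finset α → ℝ) :
    ∑ T ∈ Ind op U, F T =
      ∑ T' ∈ Ind op (U \ Yv op rk v U), ∑ T'' ∈ (Op op (Yv op rk v U) T').powerset, F (T' ∪ T'') := by
  have hYU : Yv op rk v U ⊆ U := filter_subset _ _
  rw [Finset.sum_sigma']
  refine Finset.sum_bij' (fun T _ => ⟨T \ Yv op rk v U, T ∩ Yv op rk v U⟩)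
    (fun s _ => s.1 ∪ s.2) ?_ ?_ ?_ ?_ ?_
  · intro T hT
    obtain ⟨hTU, hTI⟩ := mem_filter.1 hT
    rw [mem_powerset] at hTU
    rw [mem_sigma]
    refine ⟨mem_filter.2 ⟨mem_powerset.2 (sdiff_subset_sdiff hTU (Finset.Subset.refl _)),
      hTI.mono sdiff_subset⟩, ?_⟩
    rw [mem_powerset]
    refine (indep_union h hc (sdiff_subset_sdiff hTU (Finset.Subset.refl _))
      (hTI.mono sdiff_subset) inter_subset_right).1 ?_
    rw [Finset.sdiff_union_inter]
    exact hTI
  · rintro ⟨T', T''⟩ hs
    rw [mem_sigma] at hs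
    obtain ⟨h1, h2⟩ := hs
    simp only at h1 h2 ⊢
    obtain ⟨h3, h4⟩ := mem_filter.1 h1
    rw [mem_powerset] at h2 h3
    have h5 : T'' ⊆ Yv op rk v U := h2.trans (filter_subset _ _)
    refine mem_filter.2 ⟨mem_powerset.2 (union_subset (h3.trans sdiff_subset) (h5.trans hYU)), ?_⟩
    exact (indep_union h hc h3 h4 h5).2 h2
  · intro T hT
    simp only
    rw [Finset.sdiff_union_inter]
  · rintro ⟨T', T''⟩ hs
    rw [mem_sigma] at hs
    obtain ⟨h1, h2⟩ := hs
    simp only at h1 h2 ⊢
    obtain ⟨h3, h4⟩ := mem_filter.1 h1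
    rw [mem_powerset] at h2 h3
    have h5 : T'' ⊆ Yv op rk v U := h2.trans (filter_subset _ _)
    have h6 : Disjoint T' (Yv op rk v U) := by
      rw [Finset.disjoint_left]
      intro a ha; exact (mem_sdiff.1 (h3 ha)).2
    have e1 : (T' ∪ T'') \ Yv op rk v U = T' := by
      ext a
      simp only [mem_sdiff, mem_union]
      constructor
      · rintro ⟨h7 | h7, h8⟩
        · exact h7
        · exact absurd (h5 h7) h8
      · intro h7
        exact ⟨Or.inl h7, (mem_sdiff.1 (h3 h7)).2⟩
    have e2 : (T' ∪ T'') ∩ Yv op rk v U = T'' := by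
      ext a
      simp only [mem_inter, mem_union]
      constructor
      · rintro ⟨h7 | h7, h8⟩
        · exact absurd h8 (mem_sdiff.1 (h3 h7)).2
        · exact h7
      · intro h7
        exact ⟨Or.inr h7, h5 h7⟩
    simp only [e1, e2]
  · intro T hT
    simp only
    rw [Finset.sdiff_union_inter]

lemma sum_powerset_one (O : Finset α) : ∑ _T ∈ O.powerset, (1 : ℝ) = 2 ^ O.card := by
  simp

lemma card_powerset_mem (O : Finset α) {y : α} (hy : y ∈ O) :
    ((O.powerset.filter (fun T => y ∈ T)).card : ℝ) = 2 ^ O.card / 2 := by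
  have h1 : (O.powerset.filter (fun T => y ∈ T)).card = (O.erase y).powerset.card := by
    refine Finset.card_bij' (fun T _ => T.erase y) (fun T _ => insert y T) ?_ ?_ ?_ ?_
    · intro T hT
      obtain ⟨h1, h2⟩ := mem_filter.1 hT
      rw [mem_powerset] at h1 ⊢
      exact erase_subset_erase _ h1
    · intro T hT
      rw [mem_powerset] at hT
      refine mem_filter.2 ⟨mem_powerset.2 ?_, mem_insert_self _ _⟩
      exact insert_subset hy (hT.trans (erase_subset _ _))
    · intro T hT
      exact insert_erase (mem_filter.1 hT).2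
    · intro T hT
      rw [mem_powerset] at hT
      exact erase_insert (fun h => (notMem_erase y O) (hT h))
  rw [h1, card_powerset, card_erase_of_mem hy]
  have : 1 ≤ O.card := card_pos.2 ⟨y, hy⟩
  obtain ⟨k, hk⟩ := Nat.exists_eq_add_of_le this
  rw [hk]
  push_cast
  rw [pow_add]
  simp

lemma sum_powerset_inter (O B : Finset α) (hB : B ⊆ O) :
    ∑ T ∈ O.powerset, ((T ∩ B).card : ℝ) = B.card * (2 ^ O.card / 2) := by
  have h1 : ∀ T ∈ O.powerset, ((T ∩ B).card : ℝ) = ∑ y ∈ B, if y ∈ T then (1 : ℝ) else 0 := by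
    intro T _
    rw [← Finset.sum_filter, sum_const, nsmul_eq_mul, mul_one]
    congr 2
    ext a; simp [and_comm]
  rw [Finset.sum_congr rfl h1, Finset.sum_comm]
  have h2 : ∀ y ∈ B, ∑ T ∈ O.powerset, (if y ∈ T then (1 : ℝ) else 0) = 2 ^ O.card / 2 := by
    intro y hy
    rw [← Finset.sum_filter, sum_const, nsmul_eq_mul, mul_one]
    exact card_powerset_mem O (hB hy)
  rw [Finset.sum_congr rfl h2, sum_const, nsmul_eq_mul]

lemma sum_powerset_disj (O B : Finset α) (hB : B ⊆ O) :
    ∑ T ∈ O.powerset, (if Disjoint T B then (1 : ℝ) else 0) = 2 ^ O.card / 2 ^ B.card := by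
  rw [← Finset.sum_filter, sum_const, nsmul_eq_mul, mul_one]
  have h1 : O.powerset.filter (fun T => Disjoint T B) = (O \ B).powerset := by
    ext T
    simp only [mem_filter, mem_powerset]
    constructor
    · rintro ⟨h1, h2⟩ a ha
      exact mem_sdiff.2 ⟨h1 ha, Finset.disjoint_left.1 h2 ha⟩
    · intro h1
      refine ⟨h1.trans sdiff_subset, ?_⟩
      rw [Finset.disjoint_left]
      intro a ha
      exact (mem_sdiff.1 (h1 ha)).2
  rw [h1, card_powerset, card_sdiff_of_subset hB]
  have h2 := card_le_card hB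
  push_cast
  rw [eq_div_iff (by positivity), ← pow_add]
  congr 1
  omega

lemma two_pow_tangent (k : ℕ) (κ : ℝ) :
    Real.exp (-(κ * Real.log 2)) * (1 + κ * Real.log 2 - Real.log 2 * k) ≤ 1 / 2 ^ k := by
  have h1 : (1 : ℝ) / 2 ^ k = Real.exp (-(κ * Real.log 2)) *
      Real.exp (κ * Real.log 2 - Real.log 2 * k) := by
    rw [← Real.exp_add]
    have : -(κ * Real.log 2) + (κ * Real.log 2 - Real.log 2 * k) = -(k * Real.log 2) := by ring
    rw [this, Real.exp_neg, Real.exp_nat_mul, Real.exp_log (by norm_num), one_div]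
  rw [h1]
  refine mul_le_mul_of_nonneg_left ?_ (Real.exp_pos _).le
  have := Real.add_one_le_exp (κ * Real.log 2 - Real.log 2 * k)
  linarith

/-- the local inequality -/
theorem local_ineq (h : IdLS op) (hrk : Function.Injective rk) {v : α} {U : Finset α} (hvU : v ∉ U) (hc : Clean op rk v U)
    (κ : ℝ) :
    Real.exp (-(κ * Real.log 2)) * ((1 + κ * Real.log 2) * ((Ind op U).card : ℝ)
      - 2 * Real.log 2 * ∑ T ∈ Ind op U, (av op rk v T : ℝ)) ≤ (Jn op v U : ℝ) := by
  have hL : 0 < Real.log 2 := Real.log_pos (by norm_num)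
  set Y := Yv op rk v U with hY
  have hI : ((Ind op U).card : ℝ) = ∑ T' ∈ Ind op (U \ Y), (2 : ℝ) ^ (Op op Y T').card := by
    have := sum_ind_split h hc (fun _ => (1 : ℝ))
    simp only [sum_const, nsmul_eq_mul, mul_one] at this
    rw [this]
    refine Finset.sum_congr rfl fun T' _ => ?_
    rw [card_powerset]; push_cast; rfl
  have hA : ∑ T' ∈ Ind op (U \ Y), (((Bl op rk v Y T').card : ℝ) * (2 ^ (Op op Y T').card / 2)) ≤
      ∑ T ∈ Ind op U, (av op rk v T : ℝ) := by
    rw [sum_ind_split h hc (fun T => (av op rk v T : ℝ))]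
    refine Finset.sum_le_sum fun T' _ => ?_
    rw [← sum_powerset_inter (Op op Y T') (Bl op rk v Y T') (filter_subset _ _)]
    refine Finset.sum_le_sum fun T'' _ => ?_
    exact_mod_cast av_ge
  have hJ : (Jn op v U : ℝ) = ∑ T' ∈ Ind op (U \ Y),
      ((2 : ℝ) ^ (Op op Y T').card / 2 ^ (Bl op rk v Y T').card) := by
    have h1 : (Jn op v U : ℝ) = ∑ T ∈ Ind op U, (if Indep op (insert v T) then (1 : ℝ) else 0) := by
      rw [← Finset.sum_filter, sum_const, nsmul_eq_mul, mul_one]; rfl
    rw [h1, sum_ind_split h hc]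
    refine Finset.sum_congr rfl fun T' hT' => ?_
    rw [← sum_powerset_disj (Op op Y T') (Bl op rk v Y T') (filter_subset _ _)]
    refine Finset.sum_congr rfl fun T'' hT'' => ?_
    obtain ⟨h3, h4⟩ := mem_filter.1 hT'
    rw [mem_powerset] at h3 hT''
    have := insert_union_iff h hrk hvU hc h3 h4 hT''
    simp only [this]
    rfl
  rw [hI, hJ]
  have hstep : Real.exp (-(κ * Real.log 2)) * ((1 + κ * Real.log 2) *
      (∑ T' ∈ Ind op (U \ Y), (2 : ℝ) ^ (Op op Y T').card)
      - 2 * Real.log 2 * ∑ T' ∈ Ind op (U \ Y), (((Bl op rk v Y T').card : ℝ) *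
        (2 ^ (Op op Y T').card / 2))) ≤
      ∑ T' ∈ Ind op (U \ Y), ((2 : ℝ) ^ (Op op Y T').card / 2 ^ (Bl op rk v Y T').card) := by
    rw [Finset.mul_sum, Finset.mul_sum, ← Finset.sum_sub_distrib, Finset.mul_sum]
    refine Finset.sum_le_sum fun T' _ => ?_
    have h5 := two_pow_tangent (Bl op rk v Y T').card κ
    have h6 : (0 : ℝ) < 2 ^ (Op op Y T').card := by positivity
    have h7 := mul_le_mul_of_nonneg_left h5 h6.le
    calc _ = 2 ^ (Op op Y T').card * (Real.exp (-(κ * Real.log 2)) *
          (1 + κ * Real.log 2 - Real.log 2 * ((Bl op rk v Y T').card : ℝ))) := by ring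
      _ ≤ _ := h7
      _ = _ := by ring
  refine le_trans ?_ hstep
  refine mul_le_mul_of_nonneg_left ?_ (Real.exp_pos _).le
  have := mul_le_mul_of_nonneg_left hA (by positivity : (0 : ℝ) ≤ 2 * Real.log 2)
  linarith

end Rook
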