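import Pool.Agent.Rook.A1

/-! Module A2 of project ROOK: random subsets, global inequality. -/

namespace Rook

open Finset Classical

variable {α : Type} [Fintype α]

/-- weight of `U` for the `p`-random subset -/
noncomputable def wt (p : ℝ) (U : Finset α) : ℝ :=
  p ^ U.card * (1 - p) ^ (Fintype.card α - U.card)

lemma wt_nonneg {p : ℝ} (hp : 0 ≤ p) (hp1 : p ≤ 1) (U : Finset α) : 0 ≤ wt p U :=
  mul_nonneg (pow_nonneg hp _) (pow_nonneg (by linarith) _)

lemma sum_wt (p : ℝ) : ∑ U : Finset α, wt p U = 1 := by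
  have := Fintype.sum_pow_mul_eq_add_pow α p (1 - p)
  simp only [wt]
  rw [this]; simp

lemma sum_wt_superset {p : ℝ} (A : Finset α) :
    ∑ U : Finset α, (if A ⊆ U then wt p U else 0) = p ^ A.card := by
  have h := Finset.prod_add (fun _ : α => p) (fun i => if i ∈ A then 0 else (1 - p)) univ
  have h1 : ∏ i : α, (p + (if i ∈ A then 0 else (1 - p))) = p ^ A.card := by
    have : ∀ i : α, (p + (if i ∈ A then 0 else (1 - p))) = if i ∈ A then p else 1 := by
      intro i; split_ifs <;> ring
    rw [Finset.prod_congr rfl (fun i _ => this i), Finset.prod_ite]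
    simp
  rw [← h1, h, powerset_univ]
  refine Finset.sum_congr rfl fun U _ => ?_
  by_cases hA : A ⊆ U
  · rw [if_pos hA]
    have h2 : ∏ i ∈ univ \ U, (if i ∈ A then 0 else (1 - p)) = ∏ i ∈ univ \ U, (1 - p) := by
      refine Finset.prod_congr rfl fun i hi => ?_
      rw [if_neg (fun hiA => (mem_sdiff.1 hi).2 (hA hiA))]
    rw [h2, prod_const, prod_const, wt, card_sdiff_of_subset (subset_univ _), card_univ]
  · rw [if_neg hA]
    obtain ⟨a, haA, haU⟩ := Finset.not_subset.1 hA
    have h2 : ∏ i ∈ univ \ U, (if i ∈ A then 0 else (1 - p)) = 0 :=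
      Finset.prod_eq_zero (mem_sdiff.2 ⟨mem_univ a, haU⟩) (if_pos haA)
    rw [h2, mul_zero]

lemma wt_insert {p : ℝ} (hp1 : p < 1) {v : α} {U : Finset α} (hv : v ∉ U) :
    wt p (insert v U) = p / (1 - p) * wt p U := by
  have h1 : U.card + 1 ≤ Fintype.card α := by
    rw [← card_insert_of_notMem hv]; exact card_le_univ _
  obtain ⟨k, hk⟩ := Nat.exists_eq_add_of_le h1
  have e1 : Fintype.card α - (U.card + 1) = k := by omega
  have e2 : Fintype.card α - U.card = k + 1 := by omega
  rw [wt, wt, card_insert_of_notMem hv, e1, e2]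
  have : (1 - p) ≠ 0 := by linarith
  field_simp
  ring

lemma union_bound {ι : Type} {p : ℝ} (hp : 0 ≤ p) (hp1 : p ≤ 1) (B : Finset ι)
    (f : ι → Finset α) (k : ℕ) (hf : ∀ i ∈ B, (f i).card = k) :
    ∑ U : Finset α, (if ∃ i ∈ B, f i ⊆ U then wt p U else 0) ≤ B.card * p ^ k := by
  calc ∑ U : Finset α, (if ∃ i ∈ B, f i ⊆ U then wt p U else 0)
      ≤ ∑ U : Finset α, ∑ i ∈ B, (if f i ⊆ U then wt p U else 0) := by
        refine Finset.sum_le_sum fun U _ => ?_
        split_ifs with h
        · obtain ⟨i, hi, hiU⟩ := h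
          refine le_trans ?_ (Finset.single_le_sum (f := fun i => if f i ⊆ U then wt p U else 0)
            (fun j _ => ?_) hi)
          · simp [hiU]
          · split_ifs
            · exact wt_nonneg hp hp1 U
            · exact le_refl _
        · refine Finset.sum_nonneg fun j _ => ?_
          split_ifs
          · exact wt_nonneg hp hp1 U
          · exact le_refl _
    _ = ∑ i ∈ B, p ^ (f i).card := by
        rw [Finset.sum_comm]
        refine Finset.sum_congr rfl fun i _ => ?_
        exact sum_wt_superset (f i)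
    _ = B.card * p ^ k := by
        rw [Finset.sum_congr rfl (fun i hi => by rw [hf i hi]), sum_const, nsmul_eq_mul]

variable {op : α → α → α} {rk : α → ℕ}

lemma card_Ind_pos (U : Finset α) : 0 < ((Ind op U).card : ℝ) := by
  have : (∅ : Finset α) ∈ Ind op U := by
    refine mem_filter.2 ⟨mem_powerset.2 (empty_subset _), ?_⟩
    intro p hp; simp at hp
  exact_mod_cast card_pos.2 ⟨_, this⟩

lemma filter_mem_card (v : α) (U : Finset α) (hv : v ∈ U) :
    ((Ind op U).filter (fun T => v ∈ T)).card = Jn op v (U.erase v) := by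
  unfold Jn
  refine Finset.card_bij' (fun T _ => T.erase v) (fun T _ => insert v T) ?_ ?_ ?_ ?_
  · intro T hT
    obtain ⟨h1, h2⟩ := mem_filter.1 hT
    obtain ⟨h3, h4⟩ := mem_filter.1 h1
    rw [mem_powerset] at h3
    refine mem_filter.2 ⟨mem_filter.2 ⟨mem_powerset.2 (erase_subset_erase _ h3),
      h4.mono (erase_subset _ _)⟩, ?_⟩
    rw [insert_erase h2]; exact h4
  · intro T hT
    obtain ⟨h1, h2⟩ := mem_filter.1 hT
    obtain ⟨h3, h4⟩ := mem_filter.1 h1
    rw [mem_powerset] at h3
    refine mem_filter.2 ⟨mem_filter.2 ⟨mem_powerset.2 ?_, h2⟩, mem_insert_self _ _⟩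
    exact insert_subset hv (h3.trans (erase_subset _ _))
  · intro T hT
    exact insert_erase (mem_filter.1 hT).2
  · intro T hT
    obtain ⟨h1, h2⟩ := mem_filter.1 hT
    obtain ⟨h3, h4⟩ := mem_filter.1 h1
    rw [mem_powerset] at h3
    exact erase_insert (fun h => (notMem_erase v U) (h3 h))

lemma sum_card_Ind (U : Finset α) :
    ∑ T ∈ Ind op U, (T.card : ℝ) = ∑ v ∈ U, (Jn op v (U.erase v) : ℝ) := by
  have h1 : ∀ T ∈ Ind op U, (T.card : ℝ) = ∑ v ∈ U, if v ∈ T then (1 : ℝ) else 0 := by
    intro T hT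
    obtain ⟨h3, h4⟩ := mem_filter.1 hT
    rw [mem_powerset] at h3
    rw [← Finset.sum_filter, sum_const, nsmul_eq_mul, mul_one]
    congr 2
    ext a; simp only [mem_filter]; exact ⟨fun h => ⟨h3 h, h⟩, fun h => h.2⟩
  rw [Finset.sum_congr rfl h1, Finset.sum_comm]
  refine Finset.sum_congr rfl fun v hv => ?_
  rw [← Finset.sum_filter, sum_const, nsmul_eq_mul, mul_one, filter_mem_card v U hv]

lemma card_Ind_insert {v : α} {U : Finset α} (hv : v ∉ U) :
    ((Ind op (insert v U)).card : ℝ) ≤ 2 * ((Ind op U).card : ℝ) := by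
  have h1 : (Ind op (insert v U)).card = ((Ind op (insert v U)).filter (fun T => v ∈ T)).card +
      ((Ind op (insert v U)).filter (fun T => v ∉ T)).card :=
    (Finset.card_filter_add_card_filter_not (s := Ind op (insert v U)) (fun T => v ∈ T)).symm
  have h2 : ((Ind op (insert v U)).filter (fun T => v ∈ T)).card ≤ (Ind op U).card := by
    rw [filter_mem_card v _ (mem_insert_self _ _), erase_insert hv]
    exact card_filter_le _ _
  have h3 : ((Ind op (insert v U)).filter (fun T => v ∉ T)).card ≤ (Ind op U).card := by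
    refine card_le_card ?_
    intro T hT
    obtain ⟨h1, h2⟩ := mem_filter.1 hT
    obtain ⟨h3, h4⟩ := mem_filter.1 h1
    rw [mem_powerset] at h3
    refine mem_filter.2 ⟨mem_powerset.2 ?_, h4⟩
    intro a ha
    exact (mem_insert.1 (h3 ha)).resolve_left (fun e => h2 (e ▸ ha))
  have : (Ind op (insert v U)).card ≤ 2 * (Ind op U).card := by omega
  exact_mod_cast this

lemma sum_av_le (h : IdLS op) (T : Finset α) :
    ∑ v : α, (av op rk v T : ℝ) ≤ 6 * (T.card : ℝ) ^ 2 := by
  have h1 : ∑ v : α, av op rk v T ≤ ∑ _z ∈ T ×ˢ T, 6 := by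
    calc ∑ v : α, av op rk v T
        = ∑ v : α, ∑ z ∈ T ×ˢ T, (if rk z.1 < rk z.2 ∧ E op v z.1 z.2 then 1 else 0) := by
          refine Finset.sum_congr rfl fun v _ => ?_
          rw [av, card_filter]
      _ = ∑ z ∈ T ×ˢ T, ∑ v : α, (if rk z.1 < rk z.2 ∧ E op v z.1 z.2 then 1 else 0) :=
          Finset.sum_comm
      _ ≤ _ := by
          refine Finset.sum_le_sum fun z _ => ?_
          rw [← card_filter]
          refine le_trans (card_le_card ?_) (card_E_le h z.1 z.2)
          intro v hv
          simp only [mem_filter, mem_univ, true_and] at hv ⊢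
          exact E_swap' op _ _ _ (E_swap op _ _ _ hv.2)
  rw [sum_const, card_product, smul_eq_mul] at h1
  have : (∑ v : α, (av op rk v T : ℝ)) ≤ ((T.card * T.card * 6 : ℕ) : ℝ) := by exact_mod_cast h1
  push_cast at this
  nlinarith

/-- the global inequality -/
theorem global_ineq (h : IdLS op) (hrk : Function.Injective rk) {p : ℝ} (hp : 0 < p) (hp1 : p < 1)
    (w κ : ℝ) (hκ : 0 ≤ κ) (hw : 0 ≤ w) (hS : ∀ S : Finset α, Indep op S → (S.card : ℝ) ≤ w)
    (q : ℝ) (hq : ∀ v : α, q ≤ ∑ U : Finset α, (if v ∉ U ∧ Clean op rk v U then wt p U else 0)) :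
    p / 2 * (Real.exp (-(κ * Real.log 2)) * ((1 + κ * Real.log 2) * (Fintype.card α * q)
      - 2 * Real.log 2 * (6 * w ^ 2))) ≤ w := by
  have hL : 0 < Real.log 2 := Real.log_pos (by norm_num)
  have hwt : ∀ U : Finset α, 0 ≤ wt p U := wt_nonneg hp.le hp1.le
  -- step 1
  have s1 : ∑ U : Finset α, wt p U * ((∑ v ∈ U, (Jn op v (U.erase v) : ℝ)) /
      ((Ind op U).card : ℝ)) ≤ w := by
    calc _ ≤ ∑ U : Finset α, wt p U * w := by
          refine Finset.sum_le_sum fun U _ => ?_
          refine mul_le_mul_of_nonneg_left ?_ (hwt U)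
          rw [div_le_iff₀ (card_Ind_pos U), ← sum_card_Ind]
          calc ∑ T ∈ Ind op U, (T.card : ℝ) ≤ ∑ _T ∈ Ind op U, w :=
                Finset.sum_le_sum fun T hT => hS T (mem_filter.1 hT).2
            _ = w * ((Ind op U).card : ℝ) := by rw [sum_const, nsmul_eq_mul, mul_comm]
      _ = w := by rw [← Finset.sum_mul, sum_wt, one_mul]
  -- step 2 : reindex
  have s2 : ∑ U : Finset α, wt p U * ((∑ v ∈ U, (Jn op v (U.erase v) : ℝ)) /
      ((Ind op U).card : ℝ)) = ∑ v : α, ∑ U : Finset α, (if v ∉ U then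
        wt p (insert v U) * ((Jn op v U : ℝ) / ((Ind op (insert v U)).card : ℝ)) else 0) := by
    have e1 : ∀ U : Finset α, wt p U * ((∑ v ∈ U, (Jn op v (U.erase v) : ℝ)) /
        ((Ind op U).card : ℝ)) = ∑ v : α, (if v ∈ U then
          wt p U * ((Jn op v (U.erase v) : ℝ) / ((Ind op U).card : ℝ)) else 0) := by
      intro U
      rw [← Finset.sum_filter, Finset.sum_div, Finset.mul_sum]
      refine Finset.sum_congr ?_ fun _ _ => rfl
      ext a; simp
    rw [Finset.sum_congr rfl (fun U _ => e1 U), Finset.sum_comm]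
    refine Finset.sum_congr rfl fun v _ => ?_
    rw [← Finset.sum_filter, ← Finset.sum_filter]
    refine Finset.sum_bij' (fun U _ => U.erase v) (fun U _ => insert v U) ?_ ?_ ?_ ?_ ?_
    · intro U hU; simp
    · intro U hU; simp
    · intro U hU; exact insert_erase (mem_filter.1 hU).2
    · intro U hU; exact erase_insert (mem_filter.1 hU).2
    · intro U hU
      rw [insert_erase (mem_filter.1 hU).2]
  -- step 3
  have s3 : ∀ v : α, p / 2 * (Real.exp (-(κ * Real.log 2)) *
      ((1 + κ * Real.log 2) * q - 2 * Real.log 2 *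
        ∑ U : Finset α, wt p U * ((∑ T ∈ Ind op U, (av op rk v T : ℝ)) / ((Ind op U).card : ℝ)))) ≤
      ∑ U : Finset α, (if v ∉ U then
        wt p (insert v U) * ((Jn op v U : ℝ) / ((Ind op (insert v U)).card : ℝ)) else 0) := by
    intro v
    have t1 : ∀ U : Finset α, (if v ∉ U ∧ Clean op rk v U then
        p / 2 * (Real.exp (-(κ * Real.log 2)) * ((1 + κ * Real.log 2) * wt p U -
        2 * Real.log 2 * (wt p U * ((∑ T ∈ Ind op U, (av op rk v T : ℝ)) /
          ((Ind op U).card : ℝ))))) else 0) ≤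
        (if v ∉ U then
        wt p (insert v U) * ((Jn op v U : ℝ) / ((Ind op (insert v U)).card : ℝ)) else 0) := by
      intro U
      by_cases hv : v ∉ U
      · have hrhs : p / 2 * (wt p U * ((Jn op v U : ℝ) / ((Ind op U).card : ℝ))) ≤
            wt p (insert v U) * ((Jn op v U : ℝ) / ((Ind op (insert v U)).card : ℝ)) := by
          rw [wt_insert hp1 hv]
          have i1 := card_Ind_pos (op := op) U
          have i2 := card_Ind_pos (op := op) (insert v U)
          have i3 := card_Ind_insert (op := op) hv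
          have i4 : (Jn op v U : ℝ) / ((Ind op U).card : ℝ) / 2 ≤
              (Jn op v U : ℝ) / ((Ind op (insert v U)).card : ℝ) := by
            rw [div_div]
            refine div_le_div_of_nonneg_left (Nat.cast_nonneg _) i2 ?_
            linarith
          have i5 : p * wt p U ≤ p / (1 - p) * wt p U := by
            refine mul_le_mul_of_nonneg_right ?_ (hwt U)
            rw [le_div_iff₀ (by linarith)]
            nlinarith
          calc p / 2 * (wt p U * ((Jn op v U : ℝ) / ((Ind op U).card : ℝ)))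
              = p * wt p U * ((Jn op v U : ℝ) / ((Ind op U).card : ℝ) / 2) := by ring
            _ ≤ p / (1 - p) * wt p U * ((Jn op v U : ℝ) / ((Ind op (insert v U)).card : ℝ)) := by
                refine mul_le_mul i5 i4 (by positivity) ?_
                exact mul_nonneg (div_nonneg hp.le (by linarith)) (hwt U)
        rw [if_pos hv]
        by_cases hc : Clean op rk v U
        · rw [if_pos ⟨hv, hc⟩]
          refine le_trans ?_ hrhs
          refine mul_le_mul_of_nonneg_left ?_ (by linarith)
          have i1 := card_Ind_pos (op := op) U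
          have i6 := local_ineq h hrk hv hc κ
          have i7 := mul_le_mul_of_nonneg_left
            (div_le_div_of_nonneg_right i6 i1.le) (hwt U)
          refine le_trans (le_of_eq ?_) i7
          field_simp
        · rw [if_neg (fun hh => hc hh.2)]
          refine mul_nonneg (hwt _) (by positivity)
      · rw [if_neg hv, if_neg (fun hh => hv hh.1)]
    refine le_trans ?_ (Finset.sum_le_sum fun U _ => t1 U)
    rw [← Finset.sum_filter, ← Finset.mul_sum, ← Finset.mul_sum, Finset.sum_sub_distrib,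
      ← Finset.mul_sum, ← Finset.mul_sum]
    refine mul_le_mul_of_nonneg_left ?_ (by linarith)
    refine mul_le_mul_of_nonneg_left ?_ (Real.exp_pos _).le
    have u1 := hq v
    rw [← Finset.sum_filter] at u1
    have u2 : ∑ U ∈ univ.filter (fun U => v ∉ U ∧ Clean op rk v U), wt p U *
        ((∑ T ∈ Ind op U, (av op rk v T : ℝ)) / ((Ind op U).card : ℝ)) ≤
        ∑ U : Finset α, wt p U * ((∑ T ∈ Ind op U, (av op rk v T : ℝ)) /
          ((Ind op U).card : ℝ)) := by
      refine Finset.sum_le_sum_of_subset_of_nonneg (filter_subset _ _) fun U _ _ => ?_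
      refine mul_nonneg (hwt U) (div_nonneg (Finset.sum_nonneg fun _ _ => Nat.cast_nonneg _)
        (Nat.cast_nonneg _))
    have u3 : 0 ≤ κ * Real.log 2 := by positivity
    have u4 := mul_le_mul_of_nonneg_left u1 (by linarith : (0 : ℝ) ≤ 1 + κ * Real.log 2)
    have u5 := mul_le_mul_of_nonneg_left u2 (by positivity : (0 : ℝ) ≤ 2 * Real.log 2)
    linarith
  have s4 : ∑ v : α, ∑ U : Finset α, wt p U * ((∑ T ∈ Ind op U, (av op rk v T : ℝ)) /
      ((Ind op U).card : ℝ)) ≤ 6 * w ^ 2 := by
    rw [Finset.sum_comm]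
    calc ∑ U : Finset α, ∑ v : α, wt p U * ((∑ T ∈ Ind op U, (av op rk v T : ℝ)) /
          ((Ind op U).card : ℝ)) ≤ ∑ U : Finset α, wt p U * (6 * w ^ 2) := by
          refine Finset.sum_le_sum fun U _ => ?_
          rw [← Finset.mul_sum, ← Finset.sum_div, Finset.sum_comm]
          refine mul_le_mul_of_nonneg_left ?_ (hwt U)
          rw [div_le_iff₀ (card_Ind_pos U)]
          calc ∑ T ∈ Ind op U, ∑ v : α, (av op rk v T : ℝ)
              ≤ ∑ _T ∈ Ind op U, 6 * w ^ 2 := by
                refine Finset.sum_le_sum fun T hT => ?_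
                refine (sum_av_le h T).trans ?_
                have := hS T (mem_filter.1 hT).2
                have h0 : (0 : ℝ) ≤ T.card := Nat.cast_nonneg _
                nlinarith
            _ = 6 * w ^ 2 * ((Ind op U).card : ℝ) := by rw [sum_const, nsmul_eq_mul, mul_comm]
      _ = 6 * w ^ 2 := by rw [← Finset.sum_mul, sum_wt, one_mul]
  have s5 := Finset.sum_le_sum (s := univ) fun v _ => s3 v
  rw [← s2] at s5
  refine le_trans ?_ (s5.trans s1)
  rw [← Finset.mul_sum, ← Finset.mul_sum, Finset.sum_sub_distrib, ← Finset.mul_sum]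
  refine mul_le_mul_of_nonneg_left ?_ (by linarith)
  refine mul_le_mul_of_nonneg_left ?_ (Real.exp_pos _).le
  rw [sum_const, card_univ, nsmul_eq_mul]
  have u5 := mul_le_mul_of_nonneg_left s4 (by positivity : (0 : ℝ) ≤ 2 * Real.log 2)
  rw [Finset.mul_sum] at u5
  linarith

end Rook
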