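import Pool.Agent.Rook.Defs

/-! Skeleton (statements only) of project ROOK. -/

namespace Rook

open Finset

/-- (A) -/
def StmtA : Prop :=
  ∃ c : ℝ, 0 < c ∧ ∀ (α : Type) [Fintype α] (op : α → α → α), IdLS op → 2 ≤ Fintype.card α →
    ∃ S : Finset α, Indep op S ∧ c * g (Fintype.card α) ≤ (S.card : ℝ)

/-- (B1) hitting lemma -/
def StmtB1 : Prop :=
  ∀ (τ : Type) [Fintype τ] [DecidableEq τ] (conf : τ → τ → Prop), (∀ a b, conf a b → conf b a) →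
    ∀ (Δ : ℕ), 1 ≤ Δ → (∀ t : τ, ∀ s : Finset τ, (∀ t' ∈ s, t' ≠ t ∧ conf t t') → s.card ≤ Δ) →
    ∀ (A : Finset (Finset τ)) (N : ℝ), (∀ a ∈ A, N ≤ (a.card : ℝ)) →
      (A.card : ℝ) * Real.exp (-(N / (6 * Δ))) < 1 →
      ∃ F : Finset τ, (∀ t ∈ F, ∀ t' ∈ F, t ≠ t' → ¬ conf t t') ∧ ∀ a ∈ A, ∃ t ∈ F, t ∈ a

/-- (B2) building block, exponent 3 -/
def StmtB2 : Prop :=
  ∃ K : ℝ, 0 < K ∧ ∀ (B : Type) [AddCommGroup B] [Fintype B], (∀ x : B, (3 : ℕ) • x = 0) →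
    3 ≤ Fintype.card B →
    ∃ op : B → B → B, IdLS op ∧ (∀ x y, op x y = op y x) ∧ IndepLe op (K * g (Fintype.card B))

/-- (B2b) product with a group of exponent 5 -/
def StmtB2b : Prop :=
  ∀ (C B : Type) [AddCommGroup C] [Fintype C] [AddCommGroup B] [Fintype B],
    (∀ x : C, (5 : ℕ) • x = 0) → (∀ x : B, (3 : ℕ) • x = 0) →
    ∀ (op : B → B → B) (K : ℝ), IdLS op → (∀ x y, op x y = op y x) → IndepLe op K →
    ∃ op' : C × B → C × B → C × B, IdLS op' ∧ (∀ x y, op' x y = op' y x) ∧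
      IndepLe op' (Fintype.card C * K)

/-- (B3) five-fold construction -/
def StmtB3 : Prop :=
  ∀ (B : Type) [AddCommGroup B] [Fintype B], (∀ x : B, (15 : ℕ) • x = 0) →
    ∀ (op : B → B → B) (K K' : ℝ), IdLS op → (∀ x y, op x y = op y x) → IndepLe op K →
    ∀ (A : Finset B), A ≠ univ → GoodSym (B ⊕ (A × Bool)) K' →
      GoodSym (({i : ZMod 5 // i ≠ 0} × B) ⊕ (B ⊕ (A × Bool))) (4 * K + K')

/-- (B4) every odd order -/
def StmtB4 : Prop :=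
  ∃ C : ℝ, 0 < C ∧ ∀ n : ℕ, Odd n → 3 ≤ n → GoodSym (Fin n) (C * g n)

/-- (B5) prolongation by one point -/
def StmtB5 : Prop :=
  ∀ (α : Type) [Fintype α] (K : ℝ), GoodSym α K →
    ∃ op : Option α → Option α → Option α, IdLS op ∧ IndepLe op (3 * K + 4)

end Rook
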