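import Pool.Agent.Rook.A2
import Pool.Agent.Rook.Skel

/-! Module A3 of project ROOK: probability of clean pairs, conclusion (A). -/

namespace Rook

open Finset Classical

lemma card_dep {β γ : Type} (s : Finset β) (t : Finset γ) (R : β → γ → Prop) (k : ℕ)
    (hR : ∀ b ∈ s, (t.filter (R b)).card ≤ k) :
    ((s ×ˢ t).filter (fun z => R z.1 z.2)).card ≤ s.card * k := by
  rw [card_filter, sum_product]
  calc ∑ x ∈ s, ∑ y ∈ t, (if R (x, y).1 (x, y).2 then 1 else 0) ≤ ∑ _x ∈ s, k := by
        refine Finset.sum_le_sum fun x hx => ?_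
        rw [← card_filter]
        exact hR x hx
    _ = s.card * k := by rw [sum_const, smul_eq_mul]

variable {α : Type} [Fintype α] (op : α → α → α) {rk : α → ℕ}

/-- pairs `(x,y)` with `E v x y` -/
noncomputable def Pr2 (v : α) : Finset (α × α) := univ.filter (fun z => E op v z.1 z.2)

/-- paths of length two in the link of `v` -/
noncomputable def Bad3 (v : α) : Finset ((α × α) × α) :=
  (Pr2 op v ×ˢ univ).filter (fun z => E op v z.1.2 z.2)

/-- auxiliary -/
noncomputable def Pr3 (v : α) : Finset ((α × α) × α) :=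
  (Pr2 op v ×ˢ univ).filter (fun z => E op z.1.1 z.1.2 z.2)

/-- bad configurations with four points -/
noncomputable def Bad4 (v : α) : Finset (((α × α) × α) × α) :=
  (Pr3 op v ×ˢ univ).filter (fun z => E op v z.1.2 z.2)

/-- auxiliary -/
noncomputable def Qr3 (v : α) : Finset ((α × α) × α) :=
  ((univ : Finset (α × α)) ×ˢ univ).filter (fun z => E op v z.1.1 z.2)

/-- auxiliary -/
noncomputable def Qr4 (v : α) : Finset (((α × α) × α) × α) :=
  (Qr3 op v ×ˢ univ).filter (fun z => E op v z.1.1.2 z.2)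

/-- bad configurations with five points -/
noncomputable def Bad5 (v : α) : Finset ((((α × α) × α) × α) × α) :=
  (Qr4 op v ×ˢ univ).filter (fun z => E op z.1.1.1.1 z.1.1.1.2 z.2)

variable {op}

lemma card_Pr2 (h : IdLS op) (v : α) : (Pr2 op v).card ≤ Fintype.card α * 6 := by
  have := card_dep (univ : Finset α) (univ : Finset α) (fun x y => E op v x y) 6
    (fun x _ => card_E_le h v x)
  rw [card_univ, univ_product_univ] at this
  exact this

lemma card_Bad3 (h : IdLS op) (v : α) : (Bad3 op v).card ≤ Fintype.card α * 36 := by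
  have := card_dep (Pr2 op v) (univ : Finset α) (fun x y => E op v x.2 y) 6
    (fun x _ => card_E_le h v x.2)
  have h2 := card_Pr2 h v
  have h3 : (Bad3 op v).card ≤ (Pr2 op v).card * 6 := this
  omega

lemma card_Pr3 (h : IdLS op) (v : α) : (Pr3 op v).card ≤ Fintype.card α * 36 := by
  have := card_dep (Pr2 op v) (univ : Finset α) (fun x y => E op x.1 x.2 y) 6
    (fun x _ => card_E_le h x.1 x.2)
  have h2 := card_Pr2 h v
  have h3 : (Pr3 op v).card ≤ (Pr2 op v).card * 6 := this
  omega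

lemma card_Bad4 (h : IdLS op) (v : α) : (Bad4 op v).card ≤ Fintype.card α * 216 := by
  have := card_dep (Pr3 op v) (univ : Finset α) (fun x y => E op v x.2 y) 6
    (fun x _ => card_E_le h v x.2)
  have h2 := card_Pr3 h v
  have h3 : (Bad4 op v).card ≤ (Pr3 op v).card * 6 := this
  omega

lemma card_Bad5 (h : IdLS op) (v : α) :
    (Bad5 op v).card ≤ (Fintype.card α * Fintype.card α) * 216 := by
  have h1 := card_dep (univ : Finset (α × α)) (univ : Finset α) (fun x y => E op v x.1 y) 6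
    (fun x _ => card_E_le h v x.1)
  rw [card_univ, Fintype.card_prod] at h1
  have h2 := card_dep (Qr3 op v) (univ : Finset α) (fun x y => E op v x.1.2 y) 6
    (fun x _ => card_E_le h v x.1.2)
  have h3 := card_dep (Qr4 op v) (univ : Finset α) (fun x y => E op x.1.1.1 x.1.1.2 y) 6
    (fun x _ => card_E_le h x.1.1.1 x.1.1.2)
  have h4 : (Qr3 op v).card ≤ (Fintype.card α * Fintype.card α) * 6 := h1
  have h5 : (Qr4 op v).card ≤ (Qr3 op v).card * 6 := h2
  have h6 : (Bad5 op v).card ≤ (Qr4 op v).card * 6 := h3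
  omega

/-- not clean implies a bad configuration inside `U` -/
lemma not_clean {v : α} {U : Finset α} (hc : ¬ Clean op rk v U) :
    (∃ i ∈ (Bad3 op v).filter (fun z => ({z.1.1, z.1.2, z.2} : Finset α).card = 3),
      ({i.1.1, i.1.2, i.2} : Finset α) ⊆ U) ∨
    (∃ i ∈ (Bad4 op v).filter (fun z => ({z.1.1.1, z.1.1.2, z.1.2, z.2} : Finset α).card = 4),
      ({i.1.1.1, i.1.1.2, i.1.2, i.2} : Finset α) ⊆ U) ∨
    (∃ i ∈ (Bad5 op v).filter (fun z =>
        ({z.1.1.1.1, z.1.1.1.2, z.1.1.2, z.1.2, z.2} : Finset α).card = 5),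
      ({i.1.1.1.1, i.1.1.1.2, i.1.1.2, i.1.2, i.2} : Finset α) ⊆ U) := by
  -- path of length two
  have path : ∀ x y z : α, x ∈ U → y ∈ U → z ∈ U → x ≠ y → x ≠ z → y ≠ z → E op v x y →
      E op v y z →
      (∃ i ∈ (Bad3 op v).filter (fun z => ({z.1.1, z.1.2, z.2} : Finset α).card = 3),
      ({i.1.1, i.1.2, i.2} : Finset α) ⊆ U) := by
    intro x y z hx hy hz hxy hxz hyz h1 h2
    refine ⟨((x, y), z), ?_, ?_⟩
    · refine mem_filter.2 ⟨mem_filter.2 ⟨mem_product.2 ⟨mem_filter.2 ⟨mem_univ _, h1⟩,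
        mem_univ _⟩, h2⟩, ?_⟩
      exact card_eq_three.2 ⟨x, y, z, hxy, hxz, hyz, rfl⟩
    · intro a ha
      simp only [mem_insert, mem_singleton] at ha
      rcases ha with rfl | rfl | rfl <;> assumption
  have hYmem : ∀ y, y ∈ Yv op rk v U → y ∈ U ∧ ∃ x ∈ U, rk x < rk y ∧ E op v x y := by
    intro y hy
    exact ⟨(mem_filter.1 hy).1, (mem_filter.1 hy).2⟩
  unfold Clean at hc
  rw [not_and_or] at hc
  rcases hc with hc | hc
  · push Not at hc
    obtain ⟨y, hy, y', hy', hne, hE⟩ := hc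
    obtain ⟨hyU, x, hxU, hxy, hEx⟩ := hYmem y hy
    obtain ⟨hyU', x', hxU', hxy', hEx'⟩ := hYmem y' hy'
    left
    by_cases hlt : rk y < rk y'
    · exact path x y y' hxU hyU hyU' (ne_of_rk hxy) (ne_of_rk (hxy.trans hlt)) hne hEx hE
    · have h1 : x' ≠ y := by
        rintro rfl; exact hlt hxy'
      exact path x' y' y hxU' hyU' hyU (ne_of_rk hxy') h1 hne.symm hEx' (E_swap' op _ _ _ hE)
  · push Not at hc
    obtain ⟨y, hy, y', hy', a, haU, hne, hya, hya', hE⟩ := hc
    obtain ⟨hyU, x, hxU, hxy, hEx⟩ := hYmem y hy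
    obtain ⟨hyU', x', hxU', hxy', hEx'⟩ := hYmem y' hy'
    have nxy := ne_of_rk hxy
    have nxy' := ne_of_rk hxy'
    by_cases e1 : x = x'
    · subst e1
      left
      exact path y x y' hyU hxU hyU' nxy.symm hne nxy' (E_swap' op _ _ _ hEx) hEx'
    by_cases e2 : x = y'
    · subst e2
      left
      exact path x' x y hxU' hxU hyU nxy' (ne_of_rk (hxy'.trans hxy)) nxy hEx' hEx
    by_cases e3 : x' = y
    · subst e3
      left
      exact path x x' y' hxU hxU' hyU' nxy (ne_of_rk (hxy.trans hxy')) nxy' hEx hEx'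
    by_cases e4 : a = x
    · subst e4
      right; left
      refine ⟨(((a, y), y'), x'), ?_, ?_⟩
      · refine mem_filter.2 ⟨mem_filter.2 ⟨mem_product.2 ⟨mem_filter.2 ⟨mem_product.2
          ⟨mem_filter.2 ⟨mem_univ _, hEx⟩, mem_univ _⟩, ?_⟩, mem_univ _⟩, ?_⟩, ?_⟩
        · exact E_swap op _ _ _ (E_swap' op _ _ _ hE)
        · exact E_swap' op _ _ _ hEx'
        · rw [card_insert_of_notMem, card_insert_of_notMem, card_insert_of_notMem, card_singleton]
          · simp only [mem_singleton]; exact nxy'.symm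
          · simp only [mem_insert, mem_singleton, not_or]; exact ⟨hne, Ne.symm e3⟩
          · simp only [mem_insert, mem_singleton, not_or]; exact ⟨nxy, e2, e1⟩
      · intro b hb
        simp only [mem_insert, mem_singleton] at hb
        rcases hb with rfl | rfl | rfl | rfl <;> assumption
    by_cases e5 : a = x'
    · subst e5
      right; left
      refine ⟨(((a, y'), y), x), ?_, ?_⟩
      · refine mem_filter.2 ⟨mem_filter.2 ⟨mem_product.2 ⟨mem_filter.2 ⟨mem_product.2
          ⟨mem_filter.2 ⟨mem_univ _, hEx'⟩, mem_univ _⟩, ?_⟩, mem_univ _⟩, ?_⟩, ?_⟩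
        · exact E_swap' op _ _ _ (E_swap op _ _ _ (E_swap' op _ _ _ hE))
        · exact E_swap' op _ _ _ hEx
        · rw [card_insert_of_notMem, card_insert_of_notMem, card_insert_of_notMem, card_singleton]
          · simp only [mem_singleton]; exact nxy.symm
          · simp only [mem_insert, mem_singleton, not_or]; exact ⟨hne.symm, Ne.symm e2⟩
          · simp only [mem_insert, mem_singleton, not_or]; exact ⟨nxy', e3, Ne.symm e1⟩
      · intro b hb
        simp only [mem_insert, mem_singleton] at hb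
        rcases hb with rfl | rfl | rfl | rfl <;> assumption
    right; right
    refine ⟨((((y, y'), x), x'), a), ?_, ?_⟩
    · refine mem_filter.2 ⟨mem_filter.2 ⟨mem_product.2 ⟨mem_filter.2 ⟨mem_product.2
          ⟨mem_filter.2 ⟨mem_product.2 ⟨mem_univ _, mem_univ _⟩, ?_⟩, mem_univ _⟩, ?_⟩,
            mem_univ _⟩, ?_⟩, ?_⟩
      · exact E_swap' op _ _ _ hEx
      · exact E_swap' op _ _ _ hEx'
      · exact hE
      · rw [card_insert_of_notMem, card_insert_of_notMem, card_insert_of_notMem,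
          card_insert_of_notMem, card_singleton]
        · simp only [mem_singleton]; exact Ne.symm e5
        · simp only [mem_insert, mem_singleton, not_or]; exact ⟨e1, Ne.symm e4⟩
        · simp only [mem_insert, mem_singleton, not_or]; exact ⟨Ne.symm e2, nxy'.symm, hya'⟩
        · simp only [mem_insert, mem_singleton, not_or]
          exact ⟨hne, nxy.symm, Ne.symm e3, hya⟩
    · intro b hb
      simp only [mem_insert, mem_singleton] at hb
      rcases hb with rfl | rfl | rfl | rfl | rfl <;> assumption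

/-- probability of a clean pair -/
lemma clean_prob (h : IdLS op) {p : ℝ} (hp : 0 ≤ p) (hp1 : p ≤ 1) (v : α) :
    1 - p - (36 * Fintype.card α * p ^ 3 + 216 * Fintype.card α * p ^ 4
      + 216 * (Fintype.card α) ^ 2 * p ^ 5) ≤
      ∑ U : Finset α, (if v ∉ U ∧ Clean op rk v U then wt p U else 0) := by
  have hwt : ∀ U : Finset α, 0 ≤ wt p U := wt_nonneg hp hp1
  set S3 := (Bad3 op v).filter (fun z => ({z.1.1, z.1.2, z.2} : Finset α).card = 3) with hS3
  set S4 := (Bad4 op v).filter
    (fun z => ({z.1.1.1, z.1.1.2, z.1.2, z.2} : Finset α).card = 4) with hS4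
  set S5 := (Bad5 op v).filter (fun z =>
        ({z.1.1.1.1, z.1.1.1.2, z.1.1.2, z.1.2, z.2} : Finset α).card = 5) with hS5
  have u3 := union_bound hp hp1 S3 (fun i => ({i.1.1, i.1.2, i.2} : Finset α)) 3
    (fun i hi => (mem_filter.1 hi).2)
  have u4 := union_bound hp hp1 S4 (fun i => ({i.1.1.1, i.1.1.2, i.1.2, i.2} : Finset α)) 4
    (fun i hi => (mem_filter.1 hi).2)
  have u5 := union_bound hp hp1 S5
    (fun i => ({i.1.1.1.1, i.1.1.1.2, i.1.1.2, i.1.2, i.2} : Finset α)) 5
    (fun i hi => (mem_filter.1 hi).2)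
  have u1 := sum_wt_superset (p := p) ({v} : Finset α)
  rw [card_singleton, pow_one] at u1
  have c3 : (S3.card : ℝ) ≤ 36 * Fintype.card α := by
    have h2 : S3.card ≤ Fintype.card α * 36 := (card_le_card (filter_subset _ _)).trans (card_Bad3 h v)
    have h3 : (S3.card : ℝ) ≤ ((Fintype.card α * 36 : ℕ) : ℝ) := by exact_mod_cast h2
    push_cast at h3; linarith
  have c4 : (S4.card : ℝ) ≤ 216 * Fintype.card α := by
    have h2 : S4.card ≤ Fintype.card α * 216 := (card_le_card (filter_subset _ _)).trans (card_Bad4 h v)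
    have h3 : (S4.card : ℝ) ≤ ((Fintype.card α * 216 : ℕ) : ℝ) := by exact_mod_cast h2
    push_cast at h3; linarith
  have c5 : (S5.card : ℝ) ≤ 216 * (Fintype.card α) ^ 2 := by
    have h2 : S5.card ≤ (Fintype.card α * Fintype.card α) * 216 := (card_le_card (filter_subset _ _)).trans (card_Bad5 h v)
    have h3 : (S5.card : ℝ) ≤ (((Fintype.card α * Fintype.card α) * 216 : ℕ) : ℝ) := by
      exact_mod_cast h2
    push_cast at h3; nlinarith
  have hsum : ∀ U : Finset α, wt p U ≤
      (if v ∉ U ∧ Clean op rk v U then wt p U else 0) + (if ({v} : Finset α) ⊆ U then wt p U else 0)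
      + (if ∃ i ∈ S3, ({i.1.1, i.1.2, i.2} : Finset α) ⊆ U then wt p U else 0)
      + (if ∃ i ∈ S4, ({i.1.1.1, i.1.1.2, i.1.2, i.2} : Finset α) ⊆ U then wt p U else 0)
      + (if ∃ i ∈ S5, ({i.1.1.1.1, i.1.1.1.2, i.1.1.2, i.1.2, i.2} : Finset α) ⊆ U then
          wt p U else 0) := by
    intro U
    have n1 : ∀ (P : Prop) [Decidable P], (0 : ℝ) ≤ (if P then wt p U else 0) := by
      intro P _; split_ifs
      · exact hwt U
      · exact le_refl _
    have a1 := n1 (v ∉ U ∧ Clean op rk v U)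
    have a2 := n1 (({v} : Finset α) ⊆ U)
    have a3 := n1 (∃ i ∈ S3, ({i.1.1, i.1.2, i.2} : Finset α) ⊆ U)
    have a4 := n1 (∃ i ∈ S4, ({i.1.1.1, i.1.1.2, i.1.2, i.2} : Finset α) ⊆ U)
    have a5 := n1 (∃ i ∈ S5, ({i.1.1.1.1, i.1.1.1.2, i.1.1.2, i.1.2, i.2} : Finset α) ⊆ U)
    by_cases hv : v ∈ U
    · have e : (if ({v} : Finset α) ⊆ U then wt p U else 0) = wt p U :=
        if_pos (singleton_subset_iff.2 hv)
      linarith
    by_cases hc : Clean op rk v U
    · have e : (if v ∉ U ∧ Clean op rk v U then wt p U else 0) = wt p U := if_pos ⟨hv, hc⟩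
      linarith
    rcases not_clean hc with h1 | h1 | h1
    · have e : (if ∃ i ∈ S3, ({i.1.1, i.1.2, i.2} : Finset α) ⊆ U then wt p U else 0) = wt p U :=
        if_pos h1
      linarith
    · have e : (if ∃ i ∈ S4, ({i.1.1.1, i.1.1.2, i.1.2, i.2} : Finset α) ⊆ U then
        wt p U else 0) = wt p U := if_pos h1
      linarith
    · have e : (if ∃ i ∈ S5, ({i.1.1.1.1, i.1.1.1.2, i.1.1.2, i.1.2, i.2} : Finset α) ⊆ U then
          wt p U else 0) = wt p U := if_pos h1
      linarith
  have htot := Finset.sum_le_sum (s := (univ : Finset (Finset α))) fun U _ => hsum U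
  rw [sum_wt, sum_add_distrib, sum_add_distrib, sum_add_distrib, sum_add_distrib] at htot
  have m3 := mul_le_mul_of_nonneg_right c3 (pow_nonneg hp 3)
  have m4 := mul_le_mul_of_nonneg_right c4 (pow_nonneg hp 4)
  have m5 := mul_le_mul_of_nonneg_right c5 (pow_nonneg hp 5)
  linarith

/-- (A) for large orders -/
theorem a_large (h : IdLS op) {t : ℝ} (ht : 5 ≤ t) (hn : (Fintype.card α : ℝ) = t ^ 20) :
    ∃ S : Finset α, Indep op S ∧ g (Fintype.card α) / 40 ≤ (S.card : ℝ) := by
  by_contra hcon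
  push Not at hcon
  set w : ℝ := g (Fintype.card α) / 40 with hw
  have ht0 : 0 < t := by linarith
  have hlt : 0 < Real.log t := Real.log_pos (by linarith)
  have hlog : Real.log (Fintype.card α) = 20 * Real.log t := by
    rw [hn, Real.log_pow]; norm_num
  have hgpos : 0 ≤ g (Fintype.card α) := Real.sqrt_nonneg _
  have hw0 : 0 ≤ w := by positivity
  have hw2 : w ^ 2 = t ^ 20 * (20 * Real.log t) / 1600 := by
    rw [hw, div_pow, g, Real.sq_sqrt, hlog, hn]
    · norm_num
    · rw [hlog, hn]; positivity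
  set p : ℝ := 1 / t ^ 9 with hp
  have hp0 : 0 < p := by positivity
  have ht9 : (4 : ℝ) ≤ t ^ 9 := by
    calc (4 : ℝ) ≤ 5 ^ 9 := by norm_num
      _ ≤ t ^ 9 := pow_le_pow_left₀ (by norm_num) ht 9
  have hp1 : p ≤ 1 / 4 := by
    rw [hp]
    exact one_div_le_one_div_of_le (by norm_num) ht9
  obtain ⟨rk, hrk⟩ : ∃ rk : α → ℕ, Function.Injective rk :=
    ⟨fun a => (Fintype.equivFin α a : ℕ), fun a b hab =>
      (Fintype.equivFin α).injective (Fin.ext hab)⟩
  have hq : ∀ v : α, (1 / 2 : ℝ) ≤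
      ∑ U : Finset α, (if v ∉ U ∧ Clean op rk v U then wt p U else 0) := by
    intro v
    refine le_trans ?_ (clean_prob h hp0.le (by linarith) v)
    rw [hn]
    have ht5 : (3125 : ℝ) ≤ t ^ 5 := by
      calc (3125 : ℝ) = 5 ^ 5 := by norm_num
        _ ≤ t ^ 5 := pow_le_pow_left₀ (by norm_num) ht 5
    have e3 : t ^ 20 * p ^ 3 ≤ 1 / t ^ 5 := by
      have e : t ^ 20 * p ^ 3 = 1 / t ^ 7 := by
        rw [hp]; field_simp
      rw [e]
      exact one_div_le_one_div_of_le (by positivity) (pow_le_pow_right₀ (by linarith) (by norm_num))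
    have e4 : t ^ 20 * p ^ 4 ≤ 1 / t ^ 5 := by
      have e : t ^ 20 * p ^ 4 = 1 / t ^ 16 := by
        rw [hp]; field_simp
      rw [e]
      exact one_div_le_one_div_of_le (by positivity) (pow_le_pow_right₀ (by linarith) (by norm_num))
    have e5 : (t ^ 20) ^ 2 * p ^ 5 = 1 / t ^ 5 := by
      rw [hp]; field_simp
    have e6 : 1 / t ^ 5 ≤ 1 / 3125 := one_div_le_one_div_of_le (by norm_num) ht5
    nlinarith
  have hk0 : 0 ≤ 24 * w ^ 2 / t ^ 20 := by positivity
  have hmain := global_ineq h hrk hp0 (by linarith : p < 1) w (24 * w ^ 2 / t ^ 20) hk0 hw0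
    (fun S hS => (hcon S hS).le) (1 / 2) hq
  rw [hn] at hmain
  have hL : 0 < Real.log 2 := Real.log_pos (by norm_num)
  have hL1 : Real.log 2 < 1 := by
    have := Real.log_two_lt_d9; linarith
  have e1 : (1 + 24 * w ^ 2 / t ^ 20 * Real.log 2) * (t ^ 20 * (1 / 2)) -
      2 * Real.log 2 * (6 * w ^ 2) = t ^ 20 / 2 := by
    field_simp
    ring
  rw [e1] at hmain
  have e2 : 24 * w ^ 2 / t ^ 20 * Real.log 2 ≤ Real.log t / 2 := by
    rw [hw2]
    have : 24 * (t ^ 20 * (20 * Real.log t) / 1600) / t ^ 20 * Real.log 2 =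
      3 / 10 * Real.log t * Real.log 2 := by
      field_simp
      ring
    rw [this]
    nlinarith
  have e3 : Real.exp (-(Real.log t / 2)) ≤ Real.exp (-(24 * w ^ 2 / t ^ 20 * Real.log 2)) :=
    Real.exp_le_exp.2 (by linarith)
  have e4 : Real.exp (-(Real.log t / 2)) = 1 / Real.sqrt t := by
    rw [Real.exp_neg, one_div]
    congr 1
    rw [Real.sqrt_eq_rpow, Real.rpow_def_of_pos ht0]
    congr 1; ring
  rw [e4] at e3
  have hst : 0 < Real.sqrt t := Real.sqrt_pos.2 ht0
  have e5 : t ^ 10 * Real.sqrt t / 4 ≤ w := by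
    refine le_trans ?_ hmain
    have : t ^ 10 * Real.sqrt t / 4 = p / 2 * (1 / Real.sqrt t * (t ^ 20 / 2)) := by
      rw [hp]
      field_simp
      rw [Real.sq_sqrt ht0.le]
      ring
    rw [this]
    refine mul_le_mul_of_nonneg_left ?_ (by positivity)
    exact mul_le_mul_of_nonneg_right e3 (by positivity)
  have e6 : (t ^ 10 * Real.sqrt t / 4) ^ 2 ≤ w ^ 2 :=
    pow_le_pow_left₀ (by positivity) e5 2
  rw [hw2, div_pow, mul_pow, Real.sq_sqrt ht0.le] at e6
  have e7 : Real.log t ≤ t := (Real.log_le_sub_one_of_pos ht0).trans (by linarith)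
  have e8 : (t ^ 10) ^ 2 = t ^ 20 := by ring
  rw [e8] at e6
  have ht20 : (0 : ℝ) < t ^ 20 := by positivity
  have e9 : t ^ 20 * (20 * Real.log t) / 1600 ≤ t ^ 20 * t / 80 := by
    have := mul_le_mul_of_nonneg_left e7 ht20.le
    linarith
  have e10 : 0 < t ^ 20 * t := by positivity
  linarith

end Rook

namespace Rook

/-- (A) -/
theorem stmtA : StmtA := by
  have hN : (0 : ℝ) ≤ g (5 ^ 20) := Real.sqrt_nonneg _
  refine ⟨1 / (40 * (1 + g (5 ^ 20))), by positivity, ?_⟩
  intro α _ op h hcard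
  have hg0 : 0 ≤ g (Fintype.card α) := Real.sqrt_nonneg _
  by_cases hbig : 5 ^ 20 ≤ Fintype.card α
  · -- large
    have hn0 : (0 : ℝ) ≤ (Fintype.card α : ℝ) := Nat.cast_nonneg _
    obtain ⟨S, hS, hS2⟩ := a_large h (t := (Fintype.card α : ℝ) ^ ((1 : ℝ) / 20)) (by
      have h1 : ((5 : ℝ) ^ 20) ^ ((1 : ℝ) / 20) ≤ (Fintype.card α : ℝ) ^ ((1 : ℝ) / 20) := by
        refine Real.rpow_le_rpow (by positivity) ?_ (by norm_num)
        exact_mod_cast hbig
      have h2 : ((5 : ℝ) ^ 20) ^ ((1 : ℝ) / 20) = 5 := by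
        rw [← Real.rpow_natCast, ← Real.rpow_mul (by norm_num)]
        norm_num
      rw [h2] at h1
      exact h1) (by
      rw [← Real.rpow_natCast, ← Real.rpow_mul hn0]
      norm_num)
    refine ⟨S, hS, le_trans ?_ hS2⟩
    have : 1 / (40 * (1 + g (5 ^ 20))) ≤ 1 / 40 :=
      one_div_le_one_div_of_le (by norm_num) (by linarith)
    calc _ ≤ 1 / 40 * g (Fintype.card α) := mul_le_mul_of_nonneg_right this hg0
      _ = _ := by ring
  · -- small
    push Not at hbig
    have hne : Nonempty α := Fintype.card_pos_iff.1 (by omega)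
    obtain ⟨a⟩ := hne
    refine ⟨{a}, ?_, ?_⟩
    · intro p hp q hq hpq
      rw [Finset.mem_singleton] at hp hq
      exact absurd (hp.trans hq.symm) hpq
    · rw [Finset.card_singleton]
      have h1 : g (Fintype.card α) ≤ g (5 ^ 20) := by
        unfold g
        refine Real.sqrt_le_sqrt ?_
        have hc0 : (0 : ℝ) < (Fintype.card α : ℝ) := by
          have : 0 < Fintype.card α := by omega
          exact_mod_cast this
        have hc1 : (Fintype.card α : ℝ) ≤ ((5 ^ 20 : ℕ) : ℝ) := by exact_mod_cast hbig.le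
        have hc2 : (1 : ℝ) ≤ (Fintype.card α : ℝ) := by
          have : 1 ≤ Fintype.card α := by omega
          exact_mod_cast this
        refine mul_le_mul hc1 (Real.log_le_log hc0 hc1) (Real.log_nonneg hc2) (by positivity)
      calc 1 / (40 * (1 + g (5 ^ 20))) * g (Fintype.card α)
          ≤ 1 / (40 * (1 + g (5 ^ 20))) * g (5 ^ 20) :=
            mul_le_mul_of_nonneg_left h1 (by positivity)
        _ ≤ 1 := by
            rw [div_mul_eq_mul_div, one_mul, div_le_one (by positivity)]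
            linarith
        _ = ((1 : ℕ) : ℝ) := by norm_num

end Rook
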