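import Pool.Agent.Rook.Skel

/-! (B1) hitting lemma: a hard-core random conflict-free set misses a given set with
exponentially small probability. -/

namespace Rook

open Finset

namespace HC

variable {τ : Type} [Fintype τ] [DecidableEq τ]

/-- conflict-free -/
def CF (conf : τ → τ → Prop) (F : Finset τ) : Prop :=
  ∀ t ∈ F, ∀ t' ∈ F, t ≠ t' → ¬ conf t t'

open Classical in
/-- hard-core weight -/
noncomputable def wt (conf : τ → τ → Prop) (l : ℝ) (F : Finset τ) : ℝ :=
  if CF conf F then l ^ F.card else 0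

/-- hard-core partition function -/
noncomputable def Z (conf : τ → τ → Prop) (l : ℝ) (U : Finset τ) : ℝ :=
  ∑ F ∈ U.powerset, wt conf l F

omit [Fintype τ] [DecidableEq τ] in
theorem wt_nonneg (conf : τ → τ → Prop) {l : ℝ} (hl : 0 ≤ l) (F : Finset τ) :
    0 ≤ wt conf l F := by
  unfold wt
  split_ifs
  · exact pow_nonneg hl _
  · exact le_rfl

theorem Z_mono (conf : τ → τ → Prop) {l : ℝ} (hl : 0 ≤ l) {U V : Finset τ} (h : U ⊆ V) :
    Z conf l U ≤ Z conf l V :=
  Finset.sum_le_sum_of_subset_of_nonneg (Finset.powerset_mono.2 h)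
    fun F _ _ => wt_nonneg conf hl F

theorem Z_pos (conf : τ → τ → Prop) {l : ℝ} (hl : 0 ≤ l) (U : Finset τ) :
    0 < Z conf l U := by
  have h1 : wt conf l ∅ = 1 := by
    unfold wt
    rw [if_pos]
    · simp
    · intro t ht
      simp at ht
  have h2 : wt conf l ∅ ≤ Z conf l U :=
    Finset.single_le_sum (f := fun F => wt conf l F) (fun F _ => wt_nonneg conf hl F)
      (Finset.empty_mem_powerset U)
  linarith

open Classical in
theorem Z_insert (conf : τ → τ → Prop) (hs : ∀ a b, conf a b → conf b a) (l : ℝ)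
    {U : Finset τ} {a : τ} (ha : a ∉ U) :
    Z conf l (insert a U) = Z conf l U + l * Z conf l (U.filter fun t => ¬ conf a t) := by
  unfold Z
  rw [Finset.sum_powerset_insert ha]
  congr 1
  rw [Finset.mul_sum]
  have hsub : (U.filter fun t => ¬ conf a t).powerset ⊆ U.powerset :=
    Finset.powerset_mono.2 (Finset.filter_subset _ _)
  have h1 : ∑ F ∈ U.powerset, wt conf l (insert a F) =
      ∑ F ∈ (U.filter fun t => ¬ conf a t).powerset, wt conf l (insert a F) := by
    symm
    apply Finset.sum_subset hsub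
    intro F hF hF'
    rw [Finset.mem_powerset] at hF hF'
    unfold wt
    rw [if_neg]
    intro hc
    apply hF'
    intro t ht
    rw [Finset.mem_filter]
    refine ⟨hF ht, ?_⟩
    have hne : a ≠ t := fun h => ha (h ▸ hF ht)
    exact hc a (Finset.mem_insert_self _ _) t (Finset.mem_insert_of_mem ht) hne
  rw [h1]
  apply Finset.sum_congr rfl
  intro F hF
  rw [Finset.mem_powerset] at hF
  have haF : a ∉ F := fun h => ha (Finset.mem_filter.1 (hF h)).1
  have hiff : CF conf (insert a F) ↔ CF conf F := by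
    constructor
    · intro h t ht t' ht'
      exact h t (Finset.mem_insert_of_mem ht) t' (Finset.mem_insert_of_mem ht')
    · intro h t ht t' ht' hne
      rcases Finset.mem_insert.1 ht with e | h1
      · rcases Finset.mem_insert.1 ht' with e' | h2
        · exact absurd (e.trans e'.symm) hne
        · rw [e]
          exact (Finset.mem_filter.1 (hF h2)).2
      · rcases Finset.mem_insert.1 ht' with e' | h2
        · rw [e']
          exact fun hc => (Finset.mem_filter.1 (hF h1)).2 (hs _ _ hc)
        · exact h t h1 t' h2 hne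
  unfold wt
  by_cases hc : CF conf F
  · rw [if_pos (hiff.2 hc), if_pos hc, Finset.card_insert_of_notMem haF, pow_succ']
  · rw [if_neg (fun h => hc (hiff.1 h)), if_neg hc, mul_zero]

theorem Z_le_pow (conf : τ → τ → Prop) (hs : ∀ a b, conf a b → conf b a) {l : ℝ} (hl : 0 ≤ l)
    (U W : Finset τ) (hd : Disjoint U W) :
    Z conf l (U ∪ W) ≤ (1 + l) ^ W.card * Z conf l U := by
  classical
  induction W using Finset.induction_on with
  | empty => simp
  | @insert a W haW ih =>
    have hd' : Disjoint U W := Finset.disjoint_of_subset_right (Finset.subset_insert _ _) hd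
    have haU : a ∉ U := fun h => (Finset.disjoint_left.1 hd h) (Finset.mem_insert_self _ _)
    have ha : a ∉ U ∪ W := by
      rw [Finset.mem_union]
      rintro (h | h)
      · exact haU h
      · exact haW h
    have e1 : U ∪ insert a W = insert a (U ∪ W) := by
      rw [Finset.union_insert]
    rw [e1, Z_insert conf hs l ha, Finset.card_insert_of_notMem haW, pow_succ]
    have h1 : Z conf l ((U ∪ W).filter fun t => ¬ conf a t) ≤ Z conf l (U ∪ W) :=
      Z_mono conf hl (Finset.filter_subset _ _)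
    have h2 := ih hd'
    have h3 : 0 ≤ Z conf l (U ∪ W) := (Z_pos conf hl _).le
    calc Z conf l (U ∪ W) + l * Z conf l ((U ∪ W).filter fun t => ¬ conf a t)
        ≤ Z conf l (U ∪ W) + l * Z conf l (U ∪ W) := by
          have := mul_le_mul_of_nonneg_left h1 hl
          linarith
      _ = (1 + l) * Z conf l (U ∪ W) := by ring
      _ ≤ (1 + l) * ((1 + l) ^ W.card * Z conf l U) :=
          mul_le_mul_of_nonneg_left h2 (by linarith)
      _ = (1 + l) ^ W.card * (1 + l) * Z conf l U := by ring

theorem exp_small {y : ℝ} (h0 : 0 ≤ y) (h1 : y ≤ 1) : Real.exp y ≤ 1 + 2 * y := by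
  have h := Real.abs_exp_sub_one_sub_id_le (x := y) (by rw [abs_of_nonneg h0]; exact h1)
  have h2 := (abs_le.1 h).2
  nlinarith

/-- adding one vertex -/
theorem Z_insert_ge (conf : τ → τ → Prop) (hs : ∀ a b, conf a b → conf b a)
    {Δ : ℕ} (hΔ : 1 ≤ Δ)
    (hdeg : ∀ t : τ, ∀ s : Finset τ, (∀ t' ∈ s, t' ≠ t ∧ conf t t') → s.card ≤ Δ)
    {U : Finset τ} {a : τ} (ha : a ∉ U) :
    Real.exp (1 / (6 * Δ)) * Z conf (1 / Δ) U ≤ Z conf (1 / Δ) (insert a U) := by
  classical
  have hD : (1 : ℝ) ≤ Δ := by exact_mod_cast hΔ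
  have hD0 : (0 : ℝ) < Δ := by linarith
  have hl : (0 : ℝ) ≤ 1 / Δ := by positivity
  rw [Z_insert conf hs _ ha]
  set U0 := U.filter fun t => ¬ conf a t with hU0
  set W := U.filter fun t => conf a t with hW
  have hd : Disjoint U0 W := by
    rw [Finset.disjoint_left]
    intro t h1 h2
    exact (Finset.mem_filter.1 h1).2 (Finset.mem_filter.1 h2).2
  have hUW : U0 ∪ W = U := by
    ext t
    simp only [hU0, hW, Finset.mem_union, Finset.mem_filter]
    tauto
  have hcard : W.card ≤ Δ := by
    apply hdeg a W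
    intro t' ht'
    have h := Finset.mem_filter.1 ht'
    exact ⟨fun h' => ha (h' ▸ h.1), h.2⟩
  have h1 := Z_le_pow conf hs hl U0 W hd
  rw [hUW] at h1
  have h2 : (1 + 1 / (Δ : ℝ)) ^ W.card ≤ 3 := by
    calc (1 + 1 / (Δ : ℝ)) ^ W.card ≤ (1 + 1 / (Δ : ℝ)) ^ Δ :=
          pow_le_pow_right₀ (by linarith) hcard
      _ ≤ (Real.exp (1 / Δ)) ^ Δ := by
          apply pow_le_pow_left₀ (by linarith)
          have := Real.add_one_le_exp (1 / (Δ : ℝ))
          linarith
      _ = Real.exp 1 := by
          rw [← Real.exp_nat_mul]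
          congr 1
          field_simp
      _ ≤ 3 := by
          have := Real.exp_one_lt_d9
          linarith
  have h3 : Z conf (1 / Δ) U ≤ 3 * Z conf (1 / Δ) U0 :=
    h1.trans (mul_le_mul_of_nonneg_right h2 (Z_pos conf hl _).le)
  have h4 : Real.exp (1 / (6 * Δ)) ≤ 1 + 2 * (1 / (6 * Δ)) := by
    apply exp_small (by positivity)
    rw [div_le_one (by positivity)]
    linarith
  have h5 : 0 ≤ Z conf (1 / Δ) U := (Z_pos conf hl _).le
  calc Real.exp (1 / (6 * Δ)) * Z conf (1 / Δ) U
      ≤ (1 + 2 * (1 / (6 * Δ))) * Z conf (1 / Δ) U := mul_le_mul_of_nonneg_right h4 h5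
    _ = Z conf (1 / Δ) U + (1 / Δ) * (Z conf (1 / Δ) U / 3) := by
        field_simp
        ring
    _ ≤ Z conf (1 / Δ) U + (1 / Δ) * Z conf (1 / Δ) U0 := by
        have : Z conf (1 / Δ) U / 3 ≤ Z conf (1 / Δ) U0 := by linarith
        have := mul_le_mul_of_nonneg_left this hl
        linarith

theorem Z_union_ge (conf : τ → τ → Prop) (hs : ∀ a b, conf a b → conf b a)
    {Δ : ℕ} (hΔ : 1 ≤ Δ)
    (hdeg : ∀ t : τ, ∀ s : Finset τ, (∀ t' ∈ s, t' ≠ t ∧ conf t t') → s.card ≤ Δ)
    (U W : Finset τ) (hd : Disjoint U W) :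
    Real.exp (W.card / (6 * Δ)) * Z conf (1 / Δ) U ≤ Z conf (1 / Δ) (U ∪ W) := by
  classical
  induction W using Finset.induction_on with
  | empty => simp
  | @insert a W haW ih =>
    have hd' : Disjoint U W := Finset.disjoint_of_subset_right (Finset.subset_insert _ _) hd
    have ha : a ∉ U ∪ W := by
      rw [Finset.mem_union]
      rintro (h | h)
      · exact (Finset.disjoint_left.1 hd h) (Finset.mem_insert_self _ _)
      · exact haW h
    have e1 : U ∪ insert a W = insert a (U ∪ W) := by
      rw [Finset.union_insert]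
    rw [e1, Finset.card_insert_of_notMem haW]
    have h1 := Z_insert_ge conf hs hΔ hdeg ha
    have h2 := ih hd'
    refine le_trans ?_ h1
    calc Real.exp ((W.card + 1 : ℕ) / (6 * Δ)) * Z conf (1 / Δ) U
        = Real.exp (1 / (6 * Δ)) * (Real.exp (W.card / (6 * Δ)) * Z conf (1 / Δ) U) := by
          rw [← mul_assoc, ← Real.exp_add]
          congr 2
          push_cast
          ring
      _ ≤ Real.exp (1 / (6 * Δ)) * Z conf (1 / Δ) (U ∪ W) :=
          mul_le_mul_of_nonneg_left h2 (Real.exp_pos _).le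

end HC

open HC in
theorem stmtB1 : StmtB1 := by
  classical
  intro τ _ _ conf hs Δ hΔ hdeg A N hN hlt
  by_contra hcon
  push Not at hcon
  have hD : (1 : ℝ) ≤ Δ := by exact_mod_cast hΔ
  have hD0 : (0 : ℝ) < Δ := by linarith
  have hl : (0 : ℝ) ≤ 1 / Δ := by positivity
  have hZ : 0 < Z conf (1 / Δ) (univ : Finset τ) := Z_pos conf hl _
  have hmiss : ∀ a ∈ A, Z conf (1 / Δ) (univ \ a) ≤
      Real.exp (-(N / (6 * Δ))) * Z conf (1 / Δ) (univ : Finset τ) := by
    intro a ha
    have h1 := Z_union_ge conf hs hΔ hdeg (univ \ a) a Finset.sdiff_disjoint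
    have e1 : (univ \ a) ∪ a = (univ : Finset τ) :=
      Finset.sdiff_union_of_subset (Finset.subset_univ a)
    rw [e1] at h1
    have h2 : Real.exp (N / (6 * Δ)) ≤ Real.exp (a.card / (6 * Δ)) := by
      apply Real.exp_le_exp.2
      exact div_le_div_of_nonneg_right (hN a ha) (by positivity)
    have h3 : 0 ≤ Z conf (1 / Δ) (univ \ a) := (Z_pos conf hl _).le
    have h4 : Real.exp (N / (6 * Δ)) * Z conf (1 / Δ) (univ \ a) ≤
        Z conf (1 / Δ) (univ : Finset τ) :=
      (mul_le_mul_of_nonneg_right h2 h3).trans h1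
    calc Z conf (1 / Δ) (univ \ a)
        = Real.exp (-(N / (6 * Δ))) * (Real.exp (N / (6 * Δ)) * Z conf (1 / Δ) (univ \ a)) := by
          rw [← mul_assoc, ← Real.exp_add, neg_add_cancel, Real.exp_zero, one_mul]
      _ ≤ _ := mul_le_mul_of_nonneg_left h4 (Real.exp_pos _).le
  have hcover : Z conf (1 / Δ) (univ : Finset τ) ≤ ∑ a ∈ A, Z conf (1 / Δ) (univ \ a) := by
    have h1 : ∀ F : Finset τ, wt conf (1 / Δ) F ≤
        ∑ a ∈ A, if F ⊆ univ \ a then wt conf (1 / Δ) F else 0 := by
      intro F
      by_cases hF : CF conf F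
      · obtain ⟨a, ha, hFa⟩ := hcon F hF
        have hsub : F ⊆ univ \ a := by
          intro t ht
          rw [Finset.mem_sdiff]
          exact ⟨Finset.mem_univ _, hFa t ht⟩
        have h := Finset.single_le_sum
          (f := fun a => if F ⊆ univ \ a then wt conf (1 / (Δ : ℝ)) F else 0)
          (fun i _ => by
            split_ifs
            · exact wt_nonneg conf hl F
            · exact le_rfl) ha
        simp only [if_pos hsub] at h
        exact h
      · have h0 : wt conf (1 / (Δ : ℝ)) F = 0 := by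
          unfold wt
          rw [if_neg hF]
        rw [h0]
        simp
    calc Z conf (1 / Δ) (univ : Finset τ) = ∑ F ∈ (univ : Finset τ).powerset, wt conf (1 / Δ) F := rfl
      _ ≤ ∑ F ∈ (univ : Finset τ).powerset,
            ∑ a ∈ A, (if F ⊆ univ \ a then wt conf (1 / Δ) F else 0) :=
          Finset.sum_le_sum fun F _ => h1 F
      _ = ∑ a ∈ A, ∑ F ∈ (univ : Finset τ).powerset,
            (if F ⊆ univ \ a then wt conf (1 / Δ) F else 0) := Finset.sum_comm
      _ = ∑ a ∈ A, Z conf (1 / Δ) (univ \ a) := by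
          apply Finset.sum_congr rfl
          intro a _
          rw [← Finset.sum_filter]
          unfold Z
          apply Finset.sum_congr _ fun _ _ => rfl
          ext F
          simp
  have hfin : Z conf (1 / Δ) (univ : Finset τ) ≤
      (A.card : ℝ) * Real.exp (-(N / (6 * Δ))) * Z conf (1 / Δ) (univ : Finset τ) := by
    calc Z conf (1 / Δ) (univ : Finset τ) ≤ ∑ a ∈ A, Z conf (1 / Δ) (univ \ a) := hcover
      _ ≤ ∑ a ∈ A, Real.exp (-(N / (6 * Δ))) * Z conf (1 / Δ) (univ : Finset τ) :=
          Finset.sum_le_sum hmiss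
      _ = _ := by
          rw [Finset.sum_const, nsmul_eq_mul]
          ring
  have := mul_lt_mul_of_pos_right hlt hZ
  linarith

end Rook
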