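import Pool.Agent.Rook.Skel

/-! Module B2 of project ROOK: the building block on groups of exponent 3. -/

namespace Rook.B2

open Finset

section Group

variable {B : Type} [AddCommGroup B]

/-- `x - y ∈ {0, u, -u}` -/
def near (u x y : B) : Prop := x - y = 0 ∨ x - y = u ∨ x - y = -u

theorem near_refl (u x : B) : near u x x := Or.inl (sub_self x)

theorem near_symm {u x y : B} (h : near u x y) : near u y x := by
  rcases h with h | h | h
  · left; rw [← neg_sub, h, neg_zero]
  · right; right; rw [← neg_sub, h]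
  · right; left; rw [← neg_sub, h, neg_neg]

theorem near_trans (h3 : ∀ x : B, (3 : ℕ) • x = 0) {u x y z : B} (h : near u x y)
    (h' : near u y z) : near u x z := by
  have e : x - z = (x - y) + (y - z) := by abel
  have h2 : u + u = -u := by
    have h4 := h3 u
    have h5 : u + u + u = 0 := by rw [← h4]; abel
    exact eq_neg_of_add_eq_zero_left h5
  have h2' : -u + -u = u := by rw [← neg_add, h2, neg_neg]
  rcases h with h | h | h <;> rcases h' with h' | h' | h' <;> rw [near, e, h, h']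
  · left; simp
  · right; left; simp
  · right; right; simp
  · right; left; simp
  · right; right; exact h2
  · left; simp
  · right; right; simp
  · left; simp
  · right; left; exact h2'

/-- the cell `(a, b)` belongs to the trade `t = (p, q, u)` -/
def cell (t : B × B × B) (a b : B) : Prop :=
  (near t.2.2 a t.1 ∧ near t.2.2 b t.2.1) ∨ (near t.2.2 a t.2.1 ∧ near t.2.2 b t.1)

/-- the trade is off-diagonal -/
def valid (t : B × B × B) : Prop := ¬ near t.2.2 t.1 t.2.1

/-- two trades share a cell -/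
def conf (t t' : B × B × B) : Prop := ∃ a b, cell t a b ∧ cell t' a b

theorem cell_symm {t : B × B × B} {a b : B} (h : cell t a b) : cell t b a := by
  rcases h with h | h
  · exact Or.inr ⟨h.2, h.1⟩
  · exact Or.inl ⟨h.2, h.1⟩

theorem conf_symm {t t' : B × B × B} (h : conf t t') : conf t' t := by
  obtain ⟨a, b, h1, h2⟩ := h
  exact ⟨a, b, h2, h1⟩

theorem cell_near (h3 : ∀ x : B, (3 : ℕ) • x = 0) {t : B × B × B} {a b b' : B} (h : cell t a b)
    (hb : near t.2.2 b' b) : cell t a b' := by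
  rcases h with h | h
  · exact Or.inl ⟨h.1, near_trans h3 hb h.2⟩
  · exact Or.inr ⟨h.1, near_trans h3 hb h.2⟩

theorem not_cell_diag (h3 : ∀ x : B, (3 : ℕ) • x = 0) {t : B × B × B} (ht : valid t) (a : B) :
    ¬ cell t a a := by
  intro h
  rcases h with h | h
  · exact ht (near_trans h3 (near_symm h.1) h.2)
  · exact ht (near_trans h3 (near_symm h.2) h.1)

/-- the three shifts -/
def sh (u : B) (i : Fin 3) : B := ![0, u, -u] i

theorem near_iff (u x y : B) : near u x y ↔ ∃ i, x - y = sh u i := by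
  constructor
  · rintro (h | h | h)
    · exact ⟨0, h⟩
    · exact ⟨1, h⟩
    · exact ⟨2, h⟩
  · rintro ⟨i, h⟩
    fin_cases i
    · exact Or.inl h
    · exact Or.inr (Or.inl h)
    · exact Or.inr (Or.inr h)

/-- parametrisation of the trades in conflict with `t` -/
def phi (t : B × B × B) (x : Fin 3 × Fin 3 × Fin 3 × Fin 3 × Bool × B) : B × B × B :=
  let p' := t.1 + sh t.2.2 x.1 - sh x.2.2.2.2.2 x.2.2.1
  let q' := t.2.1 + sh t.2.2 x.2.1 - sh x.2.2.2.2.2 x.2.2.2.1
  if x.2.2.2.2.1 then (p', q', x.2.2.2.2.2) else (q', p', x.2.2.2.2.2)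

theorem exists_phi {t t' : B × B × B} (h : conf t t') : ∃ x, phi t x = t' := by
  obtain ⟨a, b, h1, h2⟩ := h
  obtain ⟨a, b, h1, h2⟩ : ∃ a b, (near t.2.2 a t.1 ∧ near t.2.2 b t.2.1) ∧ cell t' a b := by
    rcases h1 with h1 | h1
    · exact ⟨a, b, h1, h2⟩
    · exact ⟨b, a, ⟨h1.2, h1.1⟩, cell_symm h2⟩
  obtain ⟨i, hi⟩ := (near_iff _ _ _).1 h1.1
  obtain ⟨j, hj⟩ := (near_iff _ _ _).1 h1.2
  obtain ⟨p', q', u'⟩ := t'
  rcases h2 with h2 | h2
  · obtain ⟨i', hi'⟩ := (near_iff _ _ _).1 h2.1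
    obtain ⟨j', hj'⟩ := (near_iff _ _ _).1 h2.2
    refine ⟨(i, j, i', j', true, u'), ?_⟩
    simp only at hi' hj'
    simp only [phi, if_true, Prod.mk.injEq, and_true, ← hi, ← hj, ← hi', ← hj']
    constructor <;> abel
  · obtain ⟨i', hi'⟩ := (near_iff _ _ _).1 h2.1
    obtain ⟨j', hj'⟩ := (near_iff _ _ _).1 h2.2
    refine ⟨(i, j, i', j', false, u'), ?_⟩
    simp only at hi' hj'
    simp only [phi, Bool.false_eq_true, if_false, Prod.mk.injEq, and_true, ← hi, ← hj, ← hi',
      ← hj']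
    constructor <;> abel

theorem deg [Fintype B] (t : B × B × B) (s : Finset (B × B × B))
    (hs : ∀ t' ∈ s, t' ≠ t ∧ conf t t') : s.card ≤ 162 * Fintype.card B := by
  classical
  have h1 : s ⊆ (univ : Finset (Fin 3 × Fin 3 × Fin 3 × Fin 3 × Bool × B)).image (phi t) := by
    intro t' ht'
    obtain ⟨x, hx⟩ := exists_phi (hs t' ht').2
    exact mem_image.2 ⟨x, mem_univ _, hx⟩
  refine (card_le_card h1).trans (card_image_le.trans ?_)
  simp only [card_univ, Fintype.card_prod, Fintype.card_fin, Fintype.card_bool]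
  omega

/-! ### the operation -/

open Classical in
/-- the shift of the cell `(a, b)` -/
noncomputable def dl (F : Finset (B × B × B)) (a b : B) : B :=
  if h : ∃ t, t ∈ F ∧ valid t ∧ cell t a b then h.choose.2.2 else 0

/-- the operation -/
noncomputable def op (F : Finset (B × B × B)) (a b : B) : B := -(a + b) + dl F a b

variable {F : Finset (B × B × B)}

theorem dl_eq (hF : ∀ t ∈ F, ∀ t' ∈ F, t ≠ t' → ¬ conf t t') {t : B × B × B} (ht : t ∈ F)
    (hv : valid t) {a b : B} (hc : cell t a b) : dl F a b = t.2.2 := by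
  have h : ∃ t, t ∈ F ∧ valid t ∧ cell t a b := ⟨t, ht, hv, hc⟩
  have e : h.choose = t := by
    by_contra hne
    exact hF _ h.choose_spec.1 t ht hne ⟨a, b, h.choose_spec.2.2, hc⟩
  rw [dl, dif_pos h, e]

theorem dl_symm (hF : ∀ t ∈ F, ∀ t' ∈ F, t ≠ t' → ¬ conf t t') (a b : B) :
    dl F a b = dl F b a := by
  by_cases h : ∃ t, t ∈ F ∧ valid t ∧ cell t a b
  · obtain ⟨t, ht, hv, hc⟩ := h
    rw [dl_eq hF ht hv hc, dl_eq hF ht hv (cell_symm hc)]
  · have h' : ¬ ∃ t, t ∈ F ∧ valid t ∧ cell t b a := by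
      rintro ⟨t, ht, hv, hc⟩
      exact h ⟨t, ht, hv, cell_symm hc⟩
    rw [dl, dif_neg h, dl, dif_neg h']

theorem dl_diag (h3 : ∀ x : B, (3 : ℕ) • x = 0) (a : B) : dl F a a = 0 := by
  rw [dl, dif_neg]
  rintro ⟨t, -, hv, hc⟩
  exact not_cell_diag h3 hv a hc

theorem dl_shift (h3 : ∀ x : B, (3 : ℕ) • x = 0)
    (hF : ∀ t ∈ F, ∀ t' ∈ F, t ≠ t' → ¬ conf t t') (a b : B) :
    dl F a (b - dl F a b) = dl F a b := by
  by_cases h : ∃ t, t ∈ F ∧ valid t ∧ cell t a b
  · obtain ⟨t, ht, hv, hc⟩ := h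
    rw [dl_eq hF ht hv hc, dl_eq hF ht hv (cell_near h3 hc ?_)]
    right; right; abel
  · have e : dl F a b = 0 := by rw [dl, dif_neg h]
    rw [e, sub_zero, e]

theorem op_symm (hF : ∀ t ∈ F, ∀ t' ∈ F, t ≠ t' → ¬ conf t t') (a b : B) :
    op F a b = op F b a := by
  rw [op, op, dl_symm hF, add_comm a b]

theorem op_idem (h3 : ∀ x : B, (3 : ℕ) • x = 0) (a : B) : op F a a = a := by
  rw [op, dl_diag h3, add_zero]
  have h4 := h3 a
  have h5 : a + (a + a) = 0 := by rw [← h4]; abel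
  exact (eq_neg_of_add_eq_zero_left h5).symm

theorem op_inj (h3 : ∀ x : B, (3 : ℕ) • x = 0)
    (hF : ∀ t ∈ F, ∀ t' ∈ F, t ≠ t' → ¬ conf t t') (a : B) : Function.Injective (op F a) := by
  intro b b' h
  have e : b - dl F a b = b' - dl F a b' := by
    have : -(a + b) + dl F a b = -(a + b') + dl F a b' := h
    have h1 : b - dl F a b = -a - (-(a + b) + dl F a b) := by abel
    have h2 : b' - dl F a b' = -a - (-(a + b') + dl F a b') := by abel
    rw [h1, h2, this]
  have h1 := dl_shift h3 hF a b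
  have h2 := dl_shift h3 hF a b'
  rw [e, h2] at h1
  rw [h1] at e
  exact sub_left_injective e

theorem idLS_op (h3 : ∀ x : B, (3 : ℕ) • x = 0)
    (hF : ∀ t ∈ F, ∀ t' ∈ F, t ≠ t' → ¬ conf t t') : IdLS (op F) where
  row := op_inj h3 hF
  col := by
    intro b a a' h
    have h' : op F b a = op F b a' := by
      rw [op_symm hF b a, op_symm hF b a']; exact h
    exact op_inj h3 hF b h'
  idem := op_idem h3

/-! ### the trades that destroy a set -/

open Classical in
/-- the trades that destroy the set `S` -/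
noncomputable def AS [Fintype B] (S : Finset B) : Finset (B × B × B) :=
  univ.filter fun t => t.1 ∈ S ∧ t.2.1 ∈ S ∧ t.1 ≠ t.2.1 ∧ -(t.1 + t.2.1) + t.2.2 ∈ S ∧ valid t

theorem mem_AS [Fintype B] (S : Finset B) (t : B × B × B) : t ∈ AS S ↔
    True ∧ t.1 ∈ S ∧ t.2.1 ∈ S ∧ t.1 ≠ t.2.1 ∧ -(t.1 + t.2.1) + t.2.2 ∈ S ∧ valid t := by
  simp [AS]

theorem not_indep [Fintype B] (hF : ∀ t ∈ F, ∀ t' ∈ F, t ≠ t' → ¬ conf t t') {S : Finset B}
    (h : ∃ t ∈ F, t ∈ AS S) : ¬ Indep (op F) S := by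
  obtain ⟨t, ht, hA⟩ := h
  obtain ⟨-, h1, h2, h3, h4, h5⟩ := (mem_AS S t).1 hA
  intro hI
  apply hI _ h1 _ h2 h3
  rw [op, dl_eq hF ht h5 (Or.inl ⟨near_refl _ _, near_refl _ _⟩)]
  exact h4

theorem card_AS [Fintype B] (S : Finset B) :
    (S.card * S.card - S.card) * (S.card - 2) ≤ (AS S).card := by
  classical
  set R : B × B → Finset B := fun pq =>
    S \ {-(pq.1 + pq.2) + (pq.1 - pq.2), -(pq.1 + pq.2) - (pq.1 - pq.2)} with hR
  have h1 : (S.card * S.card - S.card) * (S.card - 2) ≤ (S.offDiag.sigma R).card := by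
    rw [card_sigma]
    calc (S.card * S.card - S.card) * (S.card - 2) = ∑ _pq ∈ S.offDiag, (S.card - 2) := by
          rw [sum_const, offDiag_card, smul_eq_mul]
      _ ≤ ∑ pq ∈ S.offDiag, (R pq).card := by
          apply sum_le_sum
          intro pq _
          have h2 := le_card_sdiff
            {-(pq.1 + pq.2) + (pq.1 - pq.2), -(pq.1 + pq.2) - (pq.1 - pq.2)} S
          have h3 : ({-(pq.1 + pq.2) + (pq.1 - pq.2), -(pq.1 + pq.2) - (pq.1 - pq.2)} :
            Finset B).card ≤ 2 := card_le_two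
          have h4 : (R pq).card
            = (S \ {-(pq.1 + pq.2) + (pq.1 - pq.2), -(pq.1 + pq.2) - (pq.1 - pq.2)}).card := rfl
          omega
  refine h1.trans ?_
  refine card_le_card_of_injOn
    (fun x : (Σ _ : B × B, B) => ((x.1.1, x.1.2, x.2 + (x.1.1 + x.1.2)) : B × B × B)) ?_ ?_
  · rintro ⟨⟨p, q⟩, r⟩ hx
    simp only [coe_sigma, Set.mem_sigma_iff, mem_coe, mem_offDiag, hR, mem_sdiff, mem_insert,
      mem_singleton, not_or] at hx
    obtain ⟨⟨hp, hq, hpq⟩, hr, hr1, hr2⟩ := hx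
    simp only [AS, coe_filter, mem_univ, true_and, Set.mem_ofPred_eq, valid, near, not_or]
    refine ⟨hp, hq, hpq, ?_, ?_, ?_, ?_⟩
    · have : -(p + q) + (r + (p + q)) = r := by abel
      rw [this]; exact hr
    · rw [sub_eq_zero]; exact hpq
    · intro h
      apply hr1
      rw [h]; abel
    · intro h
      apply hr2
      rw [h]; abel
  · rintro ⟨⟨p, q⟩, r⟩ _ ⟨⟨p', q'⟩, r'⟩ _ h
    simp only [Prod.mk.injEq] at h
    obtain ⟨rfl, rfl, h⟩ := h
    have : r = r' := add_right_cancel h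
    rw [this]

end Group

/-! ### numbers -/

theorem numbers (M s : ℕ) (hM : 3 ≤ M) (hs : 100 * g M ≤ s) :
    ((M : ℝ) ^ s) * Real.exp (-(((s : ℝ) * (s - 1) * (s - 2)) / (6 * (162 * M : ℕ)))) < 1 := by
  have hM0 : (0 : ℝ) < M := by positivity
  have hM3 : (3 : ℝ) ≤ M := by exact_mod_cast hM
  have hlog : 1 ≤ Real.log M := by
    rw [Real.le_log_iff_exp_le hM0]
    have := Real.exp_one_lt_d9
    linarith
  have hml : 3 ≤ (M : ℝ) * Real.log M := by nlinarith
  have hg : g M ^ 2 = M * Real.log M := by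
    rw [g, Real.sq_sqrt (by positivity)]
  have hg0 : 0 ≤ g M := Real.sqrt_nonneg _
  have hg1 : 1 ≤ g M := by
    rw [g]
    apply Real.one_le_sqrt.2
    linarith
  have hs100 : (100 : ℝ) ≤ s := by linarith
  have hpow : (M : ℝ) ^ s = Real.exp (s * Real.log M) := by
    rw [Real.exp_nat_mul, Real.exp_log hM0]
  rw [hpow, ← Real.exp_add, Real.exp_lt_one_iff]
  have h1 : (M : ℝ) * Real.log M * 10000 ≤ s ^ 2 := by
    rw [← hg]
    nlinarith
  push_cast
  rw [← sub_eq_add_neg, sub_neg, lt_div_iff₀ (by positivity)]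
  have h2 : (s : ℝ) ^ 2 / 4 ≤ (s - 1) * (s - 2) := by nlinarith
  have h3 : (s : ℝ) * ((M : ℝ) * Real.log M * 2500) ≤ s * ((s - 1) * (s - 2)) := by
    apply mul_le_mul_of_nonneg_left _ (by linarith)
    linarith
  have h4 : (0 : ℝ) < s * ((M : ℝ) * Real.log M) := by positivity
  nlinarith

theorem b2_of_b1 (hB1 : StmtB1) : StmtB2 := by
  refine ⟨100, by norm_num, ?_⟩
  intro B _ _ h3 hM
  classical
  set M := Fintype.card B with hMdef
  set s := ⌈100 * g M⌉₊ with hs
  have hs1 : 100 * g M ≤ s := Nat.le_ceil _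
  have hM3 : (3 : ℝ) ≤ M := by exact_mod_cast hM
  have hg1 : 1 ≤ g M := by
    rw [g]
    apply Real.one_le_sqrt.2
    have hlog : 1 ≤ Real.log M := by
      rw [Real.le_log_iff_exp_le (by linarith)]
      have := Real.exp_one_lt_d9
      linarith
    nlinarith
  have hs100 : (100 : ℝ) ≤ s := by linarith
  have hs2 : 100 ≤ s := by exact_mod_cast hs100
  obtain ⟨F, hF1, hF2⟩ := hB1 (B × B × B) conf (fun a b => conf_symm) (162 * M) (by omega)
    (fun t s hs => deg t s hs) ((powersetCard s (univ : Finset B)).image AS)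
    ((s : ℝ) * (s - 1) * (s - 2)) (by
      intro a ha
      obtain ⟨S, hS, rfl⟩ := mem_image.1 ha
      have hc := (mem_powersetCard.1 hS).2
      have h1 := card_AS S
      rw [hc] at h1
      have h2 : (((s * s - s) * (s - 2) : ℕ) : ℝ) ≤ ((AS S).card : ℝ) := by exact_mod_cast h1
      rw [Nat.cast_mul, Nat.cast_sub (by nlinarith), Nat.cast_sub (by omega)] at h2
      push_cast at h2
      linarith) (by
      have h1 := numbers M s hM hs1
      refine lt_of_le_of_lt ?_ h1
      apply mul_le_mul_of_nonneg_right _ (Real.exp_pos _).le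
      have h2 : ((powersetCard s (univ : Finset B)).image AS).card ≤ M ^ s := by
        refine card_image_le.trans ?_
        rw [card_powersetCard, card_univ]
        exact Nat.choose_le_pow _ _
      exact_mod_cast h2)
  refine ⟨op F, idLS_op h3 hF1, op_symm hF1, ?_⟩
  intro S hS
  by_contra hlt
  rw [not_le] at hlt
  have h1 : s ≤ S.card := Nat.ceil_le.2 hlt.le
  obtain ⟨S', hS', hc⟩ := exists_subset_card_eq h1
  have h2 := hF2 (AS S') (mem_image.2 ⟨S', mem_powersetCard.2 ⟨subset_univ _, hc⟩, rfl⟩)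
  apply not_indep hF1 h2
  intro p hp q hq hpq hr
  exact hS p (hS' hp) q (hS' hq) hpq (hS' hr)

end Rook.B2
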