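import Pool.Agent.Rook.Skel

/-! (B2b) product of a building block with a group of exponent 5. -/

namespace Rook

open Finset

namespace Prod5

variable {C B : Type} [AddCommGroup C] [AddCommGroup B]

open Classical in
/-- the product operation -/
noncomputable def opP (op : B → B → B) (x y : C × B) : C × B :=
  if x.1 = y.1 then (x.1, op x.2 y.2) else ((3 : ℕ) • (x.1 + y.1), (2 : ℕ) • (x.2 + y.2))

theorem c5 (hC : ∀ x : C, (5 : ℕ) • x = 0) {x y : C} (h : (3 : ℕ) • x = (3 : ℕ) • y) : x = y := by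
  have e : ∀ z : C, z = (2 : ℕ) • ((3 : ℕ) • z) := by
    intro z
    rw [smul_smul]
    have h6 : (2 * 3 : ℕ) • z = (5 : ℕ) • z + z := by
      rw [← succ_nsmul]
    rw [h6, hC, zero_add]
  rw [e x, h, ← e y]

theorem b3 (hB : ∀ x : B, (3 : ℕ) • x = 0) {x y : B} (h : (2 : ℕ) • x = (2 : ℕ) • y) : x = y := by
  have e : ∀ z : B, z = (2 : ℕ) • ((2 : ℕ) • z) := by
    intro z
    rw [smul_smul]
    have h6 : (2 * 2 : ℕ) • z = (3 : ℕ) • z + z := by
      rw [← succ_nsmul]
    rw [h6, hB, zero_add]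
  rw [e x, h, ← e y]

theorem ne5 (hC : ∀ x : C, (5 : ℕ) • x = 0) {i j : C} (h : i = (3 : ℕ) • (i + j)) : i = j := by
  apply c5 hC
  have h2 : (3 : ℕ) • i = (3 : ℕ) • ((3 : ℕ) • (i + j)) := by rw [← h]
  have h3 : (3 : ℕ) • ((3 : ℕ) • (i + j)) = (5 : ℕ) • (i + j) + ((4 : ℕ) • (i + j)) := by
    rw [smul_smul, ← add_nsmul]
    norm_num
  rw [h3, hC, zero_add] at h2
  have h4 : (4 : ℕ) • (i + j) = (i + (3 : ℕ) • (i + j)) + j := by
    rw [show (4 : ℕ) = 3 + 1 from rfl, add_nsmul, one_nsmul]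
    abel
  rw [h4, ← h] at h2
  have h5 : (3 : ℕ) • i = i + i + i := by
    rw [show (3 : ℕ) = 1 + 1 + 1 from rfl, add_nsmul, add_nsmul, one_nsmul]
  rw [h5] at h2
  have h6 : i = j := add_left_cancel h2
  rw [h6]

theorem opP_comm (op : B → B → B) (hc : ∀ x y, op x y = op y x) (x y : C × B) :
    opP op x y = opP op y x := by
  unfold opP
  by_cases h : x.1 = y.1
  · rw [if_pos h, if_pos h.symm, h, hc]
  · rw [if_neg h, if_neg (fun h' => h h'.symm), add_comm x.1, add_comm x.2]

theorem opP_row (hC : ∀ x : C, (5 : ℕ) • x = 0) (hB : ∀ x : B, (3 : ℕ) • x = 0)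
    (op : B → B → B) (h : IdLS op) (x : C × B) : Function.Injective (opP op x) := by
  intro y z hyz
  unfold opP at hyz
  by_cases h1 : x.1 = y.1
  · by_cases h2 : x.1 = z.1
    · rw [if_pos h1, if_pos h2] at hyz
      have h3 := h.row x.2 (Prod.ext_iff.1 hyz).2
      exact Prod.ext (h1.symm.trans h2) h3
    · rw [if_pos h1, if_neg h2] at hyz
      exact absurd (ne5 hC (Prod.ext_iff.1 hyz).1) h2
  · by_cases h2 : x.1 = z.1
    · rw [if_neg h1, if_pos h2] at hyz
      exact absurd (ne5 hC (Prod.ext_iff.1 hyz).1.symm) h1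
    · rw [if_neg h1, if_neg h2] at hyz
      have h3 := c5 hC (Prod.ext_iff.1 hyz).1
      have h4 := b3 hB (Prod.ext_iff.1 hyz).2
      exact Prod.ext (add_left_cancel h3) (add_left_cancel h4)

end Prod5

open Prod5 in
theorem stmtB2b : StmtB2b := by
  classical
  intro C B _ _ _ _ hC hB op K hop hc hK
  refine ⟨opP op, ⟨opP_row hC hB op hop, ?_, ?_⟩, opP_comm op hc, ?_⟩
  · intro y x z hxz
    dsimp only at hxz
    rw [opP_comm op hc x y, opP_comm op hc z y] at hxz
    exact opP_row hC hB op hop y hxz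
  · intro x
    unfold opP
    rw [if_pos rfl, hop.idem]
  · intro S hS
    have h1 : ∀ i : C, (((univ : Finset B).filter fun p => (i, p) ∈ S).card : ℝ) ≤ K := by
      intro i
      apply hK
      intro p hp q hq hpq hmem
      rw [Finset.mem_filter] at hp hq hmem
      have h2 := hS (i, p) hp.2 (i, q) hq.2 (fun h => hpq (Prod.ext_iff.1 h).2)
      apply h2
      unfold opP
      rw [if_pos rfl]
      exact hmem.2
    have h2 : S.card = ∑ i : C, ((univ : Finset B).filter fun p => (i, p) ∈ S).card := by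
      rw [Finset.card_eq_sum_card_fiberwise (f := Prod.fst) (t := univ) (fun x _ => by simp)]
      apply Finset.sum_congr rfl
      intro i _
      apply Finset.card_bij (fun x _ => x.2)
      · intro x hx
        rw [Finset.mem_filter] at hx ⊢
        refine ⟨Finset.mem_univ _, ?_⟩
        rw [← hx.2]
        exact hx.1
      · intro x hx y hy hxy
        rw [Finset.mem_filter] at hx hy
        exact Prod.ext (hx.2.trans hy.2.symm) hxy
      · intro p hp
        rw [Finset.mem_filter] at hp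
        exact ⟨(i, p), Finset.mem_filter.2 ⟨hp.2, rfl⟩, rfl⟩
    rw [h2]
    push_cast
    calc ∑ i : C, (((univ : Finset B).filter fun p => (i, p) ∈ S).card : ℝ) ≤ ∑ _i : C, K :=
          Finset.sum_le_sum fun i _ => h1 i
      _ = Fintype.card C * K := by
          rw [Finset.sum_const, nsmul_eq_mul, Finset.card_univ]

end Rook
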