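import Pool.Agent.Rook.Skel

/-!
# The five-fold construction (StmtB3)

The square is first built on `(ZMod 5 × B) ⊕ (A × Bool)`, the hole being `{0} × B` together with
`A × Bool`.
-/

set_option autoImplicit false
set_option linter.unusedSectionVars false

open Finset

namespace Rook

open Classical in
/-- Transport of `GoodSym` along an equivalence. -/
theorem GoodSym.congr {α β : Type} {K : ℝ} (h : GoodSym α K) (e : α ≃ β) : GoodSym β K := by
  obtain ⟨op, hid, hs, ⟨T, hT1, hT2, hT3⟩, hI⟩ := h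
  refine ⟨fun x y => e (op (e.symm x) (e.symm y)), ⟨?_, ?_, ?_⟩, ?_, ⟨fun x => e (T (e.symm x)),
    ?_, ?_, ?_⟩, ?_⟩
  · intro x y y' hyy
    exact e.symm.injective (hid.row _ (e.injective hyy))
  · intro y x x' hxx
    exact e.symm.injective (hid.col _ (e.injective hxx))
  · intro x
    simp [hid.idem]
  · intro x y
    simp only []
    rw [hs]
  · intro x x' hxx
    exact e.symm.injective (hT1 (e.injective hxx))
  · intro x hx
    apply hT2 (e.symm x)
    apply e.injective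
    simpa using hx
  · intro x x' hxx
    simp only [Equiv.symm_apply_apply] at hxx
    exact e.symm.injective (hT3 (e.injective hxx))
  · intro S hS
    have h1 : Indep op (S.map e.symm.toEmbedding) := by
      intro p hp q hq hpq hmem
      rw [Finset.mem_map_equiv] at hp hq hmem
      simp only [Equiv.symm_symm] at hp hq hmem
      have := hS (e p) hp (e q) hq (fun h => hpq (e.injective h))
      simp only [Equiv.symm_apply_apply] at this
      exact this hmem
    have := hI _ h1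
    rwa [Finset.card_map] at this

namespace B3

/-- the two colours of the nonzero residues -/
def chi (i : ZMod 5) : Bool := decide (i = 1 ∨ i = 4)

lemma z5 : ∀ i j : ZMod 5, i ≠ 0 → j = 0 ∨ j = i ∨ j = 2 * i ∨ j = 3 * i ∨ j = 4 * i := by decide

lemma z5a : ∀ i : ZMod 5, i ≠ 0 → chi (3 * i) = !(chi i) := by decide

variable {B : Type} [AddCommGroup B]

/-- The hole. -/
def io {A : Finset B} : B ⊕ (A × Bool) → (ZMod 5 × B) ⊕ (A × Bool)
  | Sum.inl b => Sum.inl (0, b)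
  | Sum.inr z => Sum.inr z

lemma io_inj {A : Finset B} : Function.Injective (io (A := A)) := by
  intro x y h
  rcases x with x | x <;> rcases y with y | y <;> simp_all [io]

open Classical in
/-- The square. -/
noncomputable def op5 {A : Finset B} (op : B → B → B)
    (opH : B ⊕ (A × Bool) → B ⊕ (A × Bool) → B ⊕ (A × Bool)) :
    (ZMod 5 × B) ⊕ (A × Bool) → (ZMod 5 × B) ⊕ (A × Bool) → (ZMod 5 × B) ⊕ (A × Bool)
  | Sum.inl (i, p), Sum.inl (j, q) =>
      if i = 0 ∧ j = 0 then io (opH (Sum.inl p) (Sum.inl q))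
      else if i = j then Sum.inl (i, op p q)
      else if j = 2 * i then
        (if h : q - p ∈ A then Sum.inr (⟨q - p, h⟩, chi i)
          else Sum.inl (3 * (i + j), (8 : ℕ) • (p + q)))
      else if i = 2 * j then
        (if h : p - q ∈ A then Sum.inr (⟨p - q, h⟩, chi j)
          else Sum.inl (3 * (i + j), (8 : ℕ) • (p + q)))
      else Sum.inl (3 * (i + j), (8 : ℕ) • (p + q))
  | Sum.inl (i, p), Sum.inr z =>
      if i = 0 then io (opH (Sum.inl p) (Sum.inr z))
      else if z.2 = true then Sum.inl (4 * i, p + (8 : ℕ) • (z.1 : B))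
      else Sum.inl (2 * i, p - (8 : ℕ) • (z.1 : B))
  | Sum.inr z, Sum.inl (i, p) =>
      if i = 0 then io (opH (Sum.inr z) (Sum.inl p))
      else if z.2 = true then Sum.inl (4 * i, p + (8 : ℕ) • (z.1 : B))
      else Sum.inl (2 * i, p - (8 : ℕ) • (z.1 : B))
  | Sum.inr z, Sum.inr z' => io (opH (Sum.inr z) (Sum.inr z'))

open Classical in
/-- Left inverse of a row of `X`. -/
noncomputable def Lv {A : Finset B} (op : B → B → B) (i : ZMod 5) (p : B) :
    (ZMod 5 × B) ⊕ (A × Bool) → (ZMod 5 × B) ⊕ (A × Bool)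
  | Sum.inl (k, r) =>
      if k = i then Sum.inl (i, Function.invFun (op p) r)
      else if k = 4 * i then
        (if h : (2 : ℕ) • r - (2 : ℕ) • p ∈ A then Sum.inr (⟨(2 : ℕ) • r - (2 : ℕ) • p, h⟩, true)
          else Sum.inl (2 * i, (2 : ℕ) • r - p))
      else if k = 2 * i then
        (if h : (2 : ℕ) • p - (2 : ℕ) • r ∈ A then Sum.inr (⟨(2 : ℕ) • p - (2 : ℕ) • r, h⟩, false)
          else Sum.inl (3 * i, (2 : ℕ) • r - p))
      else if k = 0 then Sum.inl (4 * i, (2 : ℕ) • r - p)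
      else Sum.inl (0, (2 : ℕ) • r - p)
  | Sum.inr z => if z.2 = chi i then Sum.inl (2 * i, p + (z.1 : B))
      else Sum.inl (3 * i, p - (z.1 : B))

lemma sixteen (hB : ∀ x : B, (15 : ℕ) • x = 0) (x : B) : (16 : ℕ) • x = x := by
  have : (16 : ℕ) • x = (15 : ℕ) • x + x := by rw [← succ_nsmul]
  rw [this, hB, zero_add]

lemma two_eight (hB : ∀ x : B, (15 : ℕ) • x = 0) (x : B) : (2 : ℕ) • (8 : ℕ) • x = x := by
  rw [← mul_nsmul]
  exact sixteen hB x

lemma zf1 : ∀ i : ZMod 5, i ≠ 0 → (2 * i ≠ i ∧ 3 * i ≠ i ∧ 4 * i ≠ i ∧ (0 : ZMod 5) ≠ i ∧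
    2 * i ≠ 0 ∧ 3 * i ≠ 0 ∧ 4 * i ≠ 0 ∧ 3 * i ≠ 2 * i ∧ 4 * i ≠ 2 * i ∧ 4 * i ≠ 3 * i ∧
    i = 2 * (3 * i) ∧ i ≠ 2 * (4 * i) ∧ i ≠ 2 * (2 * i) ∧ 3 * (i + 2 * i) = 4 * i ∧
    3 * (i + 3 * i) = 2 * i ∧
    3 * (i + 4 * i) = 0 ∧ 3 * (i + 0) = 3 * i ∧ i ≠ 2 * 0 ∧ 0 ≠ 2 * i) := by decide

section eval
variable {A : Finset B} (op : B → B → B)
    (opH : B ⊕ (A × Bool) → B ⊕ (A × Bool) → B ⊕ (A × Bool)) (i : ZMod 5) (hi : i ≠ 0) (p q : B)
include hi

lemma op5_i : op5 op opH (Sum.inl (i, p)) (Sum.inl (i, q)) = Sum.inl (i, op p q) := by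
  simp only [op5]
  rw [if_neg (fun h => hi h.1), if_pos trivial]

lemma op5_2 (h : q - p ∈ A) : op5 op opH (Sum.inl (i, p)) (Sum.inl (2 * i, q)) =
    Sum.inr (⟨q - p, h⟩, chi i) := by
  obtain ⟨f1, f2, f3, f4, f5, f6, f7, f8, f9, f10, f11, f12, f13, f14, f15, f16, f17, f18, f19⟩ :=
    zf1 i hi
  simp only [op5]
  rw [if_neg (fun h => hi h.1), if_neg (Ne.symm f1), if_pos trivial, dif_pos h]

lemma op5_2' (h : q - p ∉ A) : op5 op opH (Sum.inl (i, p)) (Sum.inl (2 * i, q)) =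
    Sum.inl (4 * i, (8 : ℕ) • (p + q)) := by
  obtain ⟨f1, f2, f3, f4, f5, f6, f7, f8, f9, f10, f11, f12, f13, f14, f15, f16, f17, f18, f19⟩ :=
    zf1 i hi
  simp only [op5]
  rw [if_neg (fun h => hi h.1), if_neg (Ne.symm f1), if_pos trivial, dif_neg h, f14]

lemma op5_3 (h : p - q ∈ A) : op5 op opH (Sum.inl (i, p)) (Sum.inl (3 * i, q)) =
    Sum.inr (⟨p - q, h⟩, !(chi i)) := by
  obtain ⟨f1, f2, f3, f4, f5, f6, f7, f8, f9, f10, f11, f12, f13, f14, f15, f16, f17, f18, f19⟩ :=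
    zf1 i hi
  simp only [op5]
  rw [if_neg (fun h => hi h.1), if_neg (Ne.symm f2), if_neg f8, if_pos f11, dif_pos h,
    z5a i hi]

lemma op5_3' (h : p - q ∉ A) : op5 op opH (Sum.inl (i, p)) (Sum.inl (3 * i, q)) =
    Sum.inl (2 * i, (8 : ℕ) • (p + q)) := by
  obtain ⟨f1, f2, f3, f4, f5, f6, f7, f8, f9, f10, f11, f12, f13, f14, f15, f16, f17, f18, f19⟩ :=
    zf1 i hi
  simp only [op5]
  rw [if_neg (fun h => hi h.1), if_neg (Ne.symm f2), if_neg f8, if_pos f11, dif_neg h, f15]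

lemma op5_4 : op5 op opH (Sum.inl (i, p)) (Sum.inl (4 * i, q)) =
    Sum.inl (0, (8 : ℕ) • (p + q)) := by
  obtain ⟨f1, f2, f3, f4, f5, f6, f7, f8, f9, f10, f11, f12, f13, f14, f15, f16, f17, f18, f19⟩ :=
    zf1 i hi
  simp only [op5]
  rw [if_neg (fun h => hi h.1), if_neg (Ne.symm f3), if_neg f9, if_neg f12, f16]

lemma op5_0 : op5 op opH (Sum.inl (i, p)) (Sum.inl (0, q)) =
    Sum.inl (3 * i, (8 : ℕ) • (p + q)) := by
  obtain ⟨f1, f2, f3, f4, f5, f6, f7, f8, f9, f10, f11, f12, f13, f14, f15, f16, f17, f18, f19⟩ :=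
    zf1 i hi
  simp only [op5]
  rw [if_neg (fun h => hi h.1), if_neg (Ne.symm f4), if_neg f19, if_neg f18, f17]

lemma op5_t (e : A) : op5 op opH (Sum.inl (i, p)) (Sum.inr (e, true)) =
    Sum.inl (4 * i, p + (8 : ℕ) • (e : B)) := by
  simp only [op5]
  rw [if_neg hi, if_pos trivial]

lemma op5_f (e : A) : op5 op opH (Sum.inl (i, p)) (Sum.inr (e, false)) =
    Sum.inl (2 * i, p - (8 : ℕ) • (e : B)) := by
  simp only [op5]
  rw [if_neg hi, if_neg (by decide)]

lemma Lv_i (r : B) : Lv (A := A) op i p (Sum.inl (i, r)) =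
    Sum.inl (i, Function.invFun (op p) r) := by
  simp only [Lv]
  rw [if_pos trivial]

lemma Lv_4 (r : B) (h : (2 : ℕ) • r - (2 : ℕ) • p ∈ A) :
    Lv (A := A) op i p (Sum.inl (4 * i, r)) = Sum.inr (⟨(2 : ℕ) • r - (2 : ℕ) • p, h⟩, true) := by
  obtain ⟨f1, f2, f3, f4, f5, f6, f7, f8, f9, f10, f11, f12, f13, f14, f15, f16, f17, f18, f19⟩ :=
    zf1 i hi
  simp only [Lv]
  rw [if_neg f3, if_pos trivial, dif_pos h]

lemma Lv_4' (r : B) (h : (2 : ℕ) • r - (2 : ℕ) • p ∉ A) :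
    Lv (A := A) op i p (Sum.inl (4 * i, r)) = Sum.inl (2 * i, (2 : ℕ) • r - p) := by
  obtain ⟨f1, f2, f3, f4, f5, f6, f7, f8, f9, f10, f11, f12, f13, f14, f15, f16, f17, f18, f19⟩ :=
    zf1 i hi
  simp only [Lv]
  rw [if_neg f3, if_pos trivial, dif_neg h]

lemma Lv_2 (r : B) (h : (2 : ℕ) • p - (2 : ℕ) • r ∈ A) :
    Lv (A := A) op i p (Sum.inl (2 * i, r)) = Sum.inr (⟨(2 : ℕ) • p - (2 : ℕ) • r, h⟩, false) := by
  obtain ⟨f1, f2, f3, f4, f5, f6, f7, f8, f9, f10, f11, f12, f13, f14, f15, f16, f17, f18, f19⟩ :=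
    zf1 i hi
  simp only [Lv]
  rw [if_neg f1, if_neg (Ne.symm f9), if_pos trivial, dif_pos h]

lemma Lv_2' (r : B) (h : (2 : ℕ) • p - (2 : ℕ) • r ∉ A) :
    Lv (A := A) op i p (Sum.inl (2 * i, r)) = Sum.inl (3 * i, (2 : ℕ) • r - p) := by
  obtain ⟨f1, f2, f3, f4, f5, f6, f7, f8, f9, f10, f11, f12, f13, f14, f15, f16, f17, f18, f19⟩ :=
    zf1 i hi
  simp only [Lv]
  rw [if_neg f1, if_neg (Ne.symm f9), if_pos trivial, dif_neg h]

lemma Lv_0 (r : B) : Lv (A := A) op i p (Sum.inl (0, r)) = Sum.inl (4 * i, (2 : ℕ) • r - p) := by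
  obtain ⟨f1, f2, f3, f4, f5, f6, f7, f8, f9, f10, f11, f12, f13, f14, f15, f16, f17, f18, f19⟩ :=
    zf1 i hi
  simp only [Lv]
  rw [if_neg f4, if_neg (Ne.symm f7), if_neg f19, if_pos trivial]

lemma Lv_3 (r : B) : Lv (A := A) op i p (Sum.inl (3 * i, r)) = Sum.inl (0, (2 : ℕ) • r - p) := by
  obtain ⟨f1, f2, f3, f4, f5, f6, f7, f8, f9, f10, f11, f12, f13, f14, f15, f16, f17, f18, f19⟩ :=
    zf1 i hi
  simp only [Lv]
  rw [if_neg f2, if_neg (Ne.symm f10), if_neg f8, if_neg f6]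

lemma Lv_c (e : A) : Lv op i p (Sum.inr (e, chi i)) = Sum.inl (2 * i, p + (e : B)) := by
  simp only [Lv]
  rw [if_pos trivial]

lemma Lv_n (e : A) : Lv op i p (Sum.inr (e, !(chi i))) = Sum.inl (3 * i, p - (e : B)) := by
  simp only [Lv]
  rw [if_neg (by cases chi i <;> simp)]

end eval

lemma Lv_left {A : Finset B} (hB : ∀ x : B, (15 : ℕ) • x = 0) (op : B → B → B) (hid : IdLS op)
    (opH : B ⊕ (A × Bool) → B ⊕ (A × Bool) → B ⊕ (A × Bool)) (i : ZMod 5) (hi : i ≠ 0) (p : B)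
    (z : (ZMod 5 × B) ⊕ (A × Bool)) : Lv op i p (op5 op opH (Sum.inl (i, p)) z) = z := by
  have e1 : ∀ q : B, (2 : ℕ) • (8 : ℕ) • (p + q) - p = q := by
    intro q; rw [two_eight hB]; abel
  have e2 : ∀ q : B, (2 : ℕ) • (8 : ℕ) • (p + q) - (2 : ℕ) • p = q - p := by
    intro q; rw [two_eight hB]; abel
  have e3 : ∀ q : B, (2 : ℕ) • p - (2 : ℕ) • (8 : ℕ) • (p + q) = p - q := by
    intro q; rw [two_eight hB]; abel
  have e4 : ∀ e : B, (2 : ℕ) • (p + (8 : ℕ) • e) - (2 : ℕ) • p = e := by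
    intro e; rw [smul_add, two_eight hB]; abel
  have e5 : ∀ e : B, (2 : ℕ) • p - (2 : ℕ) • (p - (8 : ℕ) • e) = e := by
    intro e; rw [smul_sub, two_eight hB]; abel
  rcases z with ⟨j, q⟩ | ⟨e, c⟩
  · rcases z5 i j hi with rfl | rfl | rfl | rfl | rfl
    · rw [op5_0 op opH i hi, Lv_3 op i hi, e1]
    · rw [op5_i op opH _ hi, Lv_i op _ hi, Function.leftInverse_invFun (hid.row p) q]
    · by_cases h : q - p ∈ A
      · rw [op5_2 op opH i hi p q h, Lv_c op i hi]
        simp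
      · rw [op5_2' op opH i hi p q h, Lv_4' op i hi, e1]
        rwa [e2]
    · by_cases h : p - q ∈ A
      · rw [op5_3 op opH i hi p q h, Lv_n op i hi]
        simp
      · rw [op5_3' op opH i hi p q h, Lv_2' op i hi, e1]
        rwa [e3]
    · rw [op5_4 op opH i hi, Lv_0 op i hi, e1]
  · cases c
    · rw [op5_f op opH i hi, Lv_2 op i hi _ _ (by rw [e5]; exact e.2)]
      simp only [e5]
    · rw [op5_t op opH i hi, Lv_4 op i hi _ _ (by rw [e4]; exact e.2)]
      simp only [e4]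

/-- The hole has type `H`, the rest is `X`. -/
def inX {A : Finset B} : (ZMod 5 × B) ⊕ (A × Bool) → Prop
  | Sum.inl (i, _) => i ≠ 0
  | Sum.inr _ => False

lemma inX_or {A : Finset B} (z : (ZMod 5 × B) ⊕ (A × Bool)) :
    (∃ i p, i ≠ 0 ∧ z = Sum.inl (i, p)) ∨ ∃ h, z = io h := by
  rcases z with ⟨i, p⟩ | z
  · by_cases hi : i = 0
    · right
      exact ⟨Sum.inl p, by simp [io, hi]⟩
    · left
      exact ⟨i, p, hi, rfl⟩
  · right
    exact ⟨Sum.inr z, rfl⟩

lemma not_inX_io {A : Finset B} (h : B ⊕ (A × Bool)) : ¬ inX (io h) := by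
  rcases h with b | z <;> simp [io, inX]

lemma op5_hh {A : Finset B} (op : B → B → B)
    (opH : B ⊕ (A × Bool) → B ⊕ (A × Bool) → B ⊕ (A × Bool)) (h h' : B ⊕ (A × Bool)) :
    op5 op opH (io h) (io h') = io (opH h h') := by
  rcases h with b | z <;> rcases h' with b' | z' <;> simp [io, op5]

lemma op5_symm {A : Finset B} (op : B → B → B) (hs : ∀ x y, op x y = op y x)
    (opH : B ⊕ (A × Bool) → B ⊕ (A × Bool) → B ⊕ (A × Bool)) (hsH : ∀ x y, opH x y = opH y x)
    (z z' : (ZMod 5 × B) ⊕ (A × Bool)) : op5 op opH z z' = op5 op opH z' z := by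
  have key : ∀ (i : ZMod 5), i ≠ 0 → ∀ (p : B) (z' : (ZMod 5 × B) ⊕ (A × Bool)),
      op5 op opH (Sum.inl (i, p)) z' = op5 op opH z' (Sum.inl (i, p)) := by
    intro i hi p z'
    obtain ⟨f1, f2, f3, f4, f5, f6, f7, f8, f9, f10, f11, f12, f13, f14, f15, f16, f17, f18,
      f19⟩ := zf1 i hi
    rcases z' with ⟨j, q⟩ | z'
    · rcases z5 i j hi with rfl | rfl | rfl | rfl | rfl
      · rw [op5_0 op opH i hi]
        simp only [op5]
        rw [if_neg (fun h => hi h.2), if_neg f4, if_neg f18, if_neg f19, add_comm 0 i, f17,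
          add_comm q p]
      · rw [op5_i op opH _ hi, op5_i op opH _ hi, hs]
      · by_cases h : q - p ∈ A
        · rw [op5_2 op opH i hi p q h]
          simp only [op5]
          rw [if_neg (fun h => f5 h.1), if_neg f1, if_neg f13, if_pos trivial, dif_pos h]
        · rw [op5_2' op opH i hi p q h]
          simp only [op5]
          rw [if_neg (fun h => f5 h.1), if_neg f1, if_neg f13, if_pos trivial, dif_neg h,
            add_comm (2 * i) i, f14, add_comm q p]
      · have g1 : 3 * i ≠ i := f2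
        by_cases h : p - q ∈ A
        · rw [op5_3 op opH i hi p q h]
          simp only [op5]
          rw [if_neg (fun h => f6 h.1), if_neg f2, if_pos f11, dif_pos h, z5a i hi]
        · rw [op5_3' op opH i hi p q h]
          simp only [op5]
          rw [if_neg (fun h => f6 h.1), if_neg f2, if_pos f11, dif_neg h,
            add_comm (3 * i) i, f15, add_comm q p]
      · rw [op5_4 op opH i hi]
        simp only [op5]
        rw [if_neg (fun h => f7 h.1), if_neg f3, if_neg f12, if_neg f9, add_comm (4 * i) i, f16,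
          add_comm q p]
    · simp only [op5]
      rw [if_neg hi, if_neg hi]
  rcases inX_or z with ⟨i, p, hi, rfl⟩ | ⟨h, rfl⟩
  · exact key i hi p z'
  · rcases inX_or z' with ⟨i, p, hi, rfl⟩ | ⟨h', rfl⟩
    · exact (key i hi p _).symm
    · rw [op5_hh, op5_hh, hsH]

lemma op5_hx {A : Finset B} (op : B → B → B)
    (opH : B ⊕ (A × Bool) → B ⊕ (A × Bool) → B ⊕ (A × Bool)) (h : B ⊕ (A × Bool))
    (i : ZMod 5) (hi : i ≠ 0) (p : B) : inX (op5 op opH (Sum.inl (i, p)) (io h)) := by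
  obtain ⟨f1, f2, f3, f4, f5, f6, f7, f8, f9, f10, f11, f12, f13, f14, f15, f16, f17, f18,
      f19⟩ := zf1 i hi
  rcases h with b | ⟨e, c⟩
  · simp only [io]
    rw [op5_0 op opH i hi]
    exact f6
  · simp only [io]
    cases c
    · rw [op5_f op opH i hi]
      exact f5
    · rw [op5_t op opH i hi]
      exact f7

lemma op5_hinj {A : Finset B} (hB : ∀ x : B, (15 : ℕ) • x = 0) (op : B → B → B)
    (opH : B ⊕ (A × Bool) → B ⊕ (A × Bool) → B ⊕ (A × Bool)) (h : B ⊕ (A × Bool))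
    (i j : ZMod 5) (hi : i ≠ 0) (hj : j ≠ 0) (p q : B)
    (heq : op5 op opH (Sum.inl (i, p)) (io h) = op5 op opH (Sum.inl (j, q)) (io h)) :
    (i, p) = (j, q) := by
  have c2 : ∀ i j : ZMod 5, 2 * i = 2 * j → i = j := by decide
  have c3 : ∀ i j : ZMod 5, 3 * i = 3 * j → i = j := by decide
  have c4 : ∀ i j : ZMod 5, 4 * i = 4 * j → i = j := by decide
  rcases h with b | ⟨e, c⟩
  · simp only [io] at heq
    rw [op5_0 op opH i hi, op5_0 op opH j hj] at heq
    have h1 := Prod.ext_iff.mp (Sum.inl_injective heq)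
    have h2 := congrArg (fun x => (2 : ℕ) • x) h1.2
    simp only [] at h2
    rw [two_eight hB, two_eight hB] at h2
    exact Prod.ext (c3 _ _ h1.1) (add_right_cancel h2)
  · simp only [io] at heq
    cases c
    · rw [op5_f op opH i hi, op5_f op opH j hj] at heq
      have h1 := Prod.ext_iff.mp (Sum.inl_injective heq)
      exact Prod.ext (c2 _ _ h1.1) (sub_left_injective h1.2)
    · rw [op5_t op opH i hi, op5_t op opH j hj] at heq
      have h1 := Prod.ext_iff.mp (Sum.inl_injective heq)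
      exact Prod.ext (c4 _ _ h1.1) (add_right_cancel h1.2)

lemma op5_row {A : Finset B} (hB : ∀ x : B, (15 : ℕ) • x = 0) (op : B → B → B) (hid : IdLS op)
    (hs : ∀ x y, op x y = op y x)
    (opH : B ⊕ (A × Bool) → B ⊕ (A × Bool) → B ⊕ (A × Bool)) (hidH : IdLS opH)
    (hsH : ∀ x y, opH x y = opH y x)
    (z : (ZMod 5 × B) ⊕ (A × Bool)) : Function.Injective (op5 op opH z) := by
  intro y y' hyy
  rcases inX_or z with ⟨i, p, hi, rfl⟩ | ⟨h, rfl⟩
  · rw [← Lv_left hB op hid opH i hi p y, hyy, Lv_left hB op hid opH i hi p y']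
  · rcases inX_or y with ⟨i, p, hi, rfl⟩ | ⟨h1, rfl⟩ <;>
    rcases inX_or y' with ⟨j, q, hj, rfl⟩ | ⟨h2, rfl⟩
    · rw [op5_symm op hs opH hsH, op5_symm op hs opH hsH (io h)] at hyy
      rw [op5_hinj hB op opH h i j hi hj p q hyy]
    · exfalso
      rw [op5_symm op hs opH hsH, op5_hh] at hyy
      have := op5_hx op opH h i hi p
      rw [hyy] at this
      exact not_inX_io _ this
    · exfalso
      rw [op5_symm op hs opH hsH (io h) (Sum.inl (j, q)), op5_hh] at hyy
      have := op5_hx op opH h j hj q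
      rw [← hyy] at this
      exact not_inX_io _ this
    · rw [op5_hh, op5_hh] at hyy
      rw [hidH.row _ (io_inj hyy)]

open Classical in
/-- The transversal. -/
noncomputable def T5 {A : Finset B} (e : B) (T : B ⊕ (A × Bool) → B ⊕ (A × Bool)) :
    (ZMod 5 × B) ⊕ (A × Bool) → (ZMod 5 × B) ⊕ (A × Bool)
  | Sum.inl (i, p) => if i = 0 then io (T (Sum.inl p)) else Sum.inl (2 * i, p + e)
  | Sum.inr z => io (T (Sum.inr z))

lemma T5_h {A : Finset B} (e : B) (T : B ⊕ (A × Bool) → B ⊕ (A × Bool)) (h : B ⊕ (A × Bool)) :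
    T5 e T (io h) = io (T h) := by
  rcases h with b | z
  · simp [T5, io]
  · simp [T5, io]

lemma T5_x {A : Finset B} (e : B) (T : B ⊕ (A × Bool) → B ⊕ (A × Bool)) (i : ZMod 5)
    (hi : i ≠ 0) (p : B) : T5 (A := A) e T (Sum.inl (i, p)) = Sum.inl (2 * i, p + e) := by
  simp only [T5]
  rw [if_neg hi]

/-- `Y` is the target type. -/
noncomputable def eqv (A : Finset B) : ((ZMod 5 × B) ⊕ (A × Bool)) ≃
    (({i : ZMod 5 // i ≠ 0} × B) ⊕ (B ⊕ (A × Bool))) := by
  classical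
  exact
  { toFun := fun z => match z with
      | Sum.inl (i, p) => if h : i = 0 then Sum.inr (Sum.inl p) else Sum.inl (⟨i, h⟩, p)
      | Sum.inr z => Sum.inr (Sum.inr z)
    invFun := fun z => match z with
      | Sum.inl (i, p) => Sum.inl ((i : ZMod 5), p)
      | Sum.inr (Sum.inl p) => Sum.inl (0, p)
      | Sum.inr (Sum.inr z) => Sum.inr z
    left_inv := by
      rintro (⟨i, p⟩ | z)
      · by_cases h : i = 0
        · subst h
          simp
        · simp [h]
      · simp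
    right_inv := by
      rintro (⟨⟨i, hi⟩, p⟩ | (p | z))
      · simp [hi]
      · simp
      · simp }

end B3

open B3 in
theorem b3 : StmtB3 := by
  classical
  intro B _ _ hB op K K' hid hs hK A hA hH
  obtain ⟨opH, hidH, hsH, ⟨T, hT1, hT2, hT3⟩, hK'⟩ := hH
  obtain ⟨e, he⟩ : ∃ e, e ∉ A := by
    by_contra hcon
    push Not at hcon
    exact hA (Finset.eq_univ_iff_forall.mpr hcon)
  refine GoodSym.congr (α := (ZMod 5 × B) ⊕ (A × Bool)) ?_ (eqv A)
  have hsym := op5_symm op hs opH hsH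
  have hrow := op5_row hB op hid hs opH hidH hsH
  have hTx : ∀ (i : ZMod 5), i ≠ 0 → ∀ p : B,
      op5 op opH (Sum.inl (i, p)) (T5 e T (Sum.inl (i, p))) = Sum.inl (4 * i, p + (8 : ℕ) • e) := by
    intro i hi p
    rw [T5_x e T i hi, op5_2' op opH i hi p (p + e) (by simpa using he)]
    congr 2
    have : (8 : ℕ) • (p + (p + e)) = (16 : ℕ) • p + (8 : ℕ) • e := by
      rw [← add_assoc, ← two_nsmul, smul_add, ← mul_nsmul]
    rw [this, sixteen hB]
  refine ⟨op5 op opH, ⟨hrow, ?_, ?_⟩, hsym, ⟨T5 e T, ?_, ?_, ?_⟩, ?_⟩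
  · intro y x x' hxx
    simp only [] at hxx
    rw [hsym x y, hsym x' y] at hxx
    exact hrow y hxx
  · intro z
    rcases inX_or z with ⟨i, p, hi, rfl⟩ | ⟨h, rfl⟩
    · rw [op5_i op opH i hi, hid.idem]
    · rw [op5_hh, hidH.idem]
  · intro y y' hyy
    have c2 : ∀ i j : ZMod 5, 2 * i = 2 * j → i = j := by decide
    rcases inX_or y with ⟨i, p, hi, rfl⟩ | ⟨h1, rfl⟩ <;>
    rcases inX_or y' with ⟨j, q, hj, rfl⟩ | ⟨h2, rfl⟩
    · rw [T5_x e T i hi, T5_x e T j hj] at hyy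
      have h1 := Prod.ext_iff.mp (Sum.inl_injective hyy)
      have h5 : ((i, p) : ZMod 5 × B) = (j, q) := Prod.ext (c2 _ _ h1.1) (add_right_cancel h1.2)
      rw [h5]
    · exfalso
      rw [T5_x e T i hi, T5_h] at hyy
      have h3 : inX (A := A) (Sum.inl (2 * i, p + e)) := (zf1 i hi).2.2.2.2.1
      rw [hyy] at h3
      exact not_inX_io _ h3
    · exfalso
      rw [T5_x e T j hj, T5_h] at hyy
      have h3 : inX (A := A) (Sum.inl (2 * j, q + e)) := (zf1 j hj).2.2.2.2.1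
      rw [← hyy] at h3
      exact not_inX_io _ h3
    · rw [T5_h, T5_h] at hyy
      rw [hT1 (io_inj hyy)]
  · intro y hy
    rcases inX_or y with ⟨i, p, hi, rfl⟩ | ⟨h, rfl⟩
    · rw [T5_x e T i hi] at hy
      have h1 := Prod.ext_iff.mp (Sum.inl_injective hy)
      exact (zf1 i hi).1 h1.1
    · rw [T5_h] at hy
      exact hT2 h (io_inj hy)
  · intro y y' hyy
    simp only [] at hyy
    have c4 : ∀ i j : ZMod 5, 4 * i = 4 * j → i = j := by decide
    rcases inX_or y with ⟨i, p, hi, rfl⟩ | ⟨h1, rfl⟩ <;>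
    rcases inX_or y' with ⟨j, q, hj, rfl⟩ | ⟨h2, rfl⟩
    · rw [hTx i hi, hTx j hj] at hyy
      have h1 := Prod.ext_iff.mp (Sum.inl_injective hyy)
      have h5 : ((i, p) : ZMod 5 × B) = (j, q) := Prod.ext (c4 _ _ h1.1) (add_right_cancel h1.2)
      rw [h5]
    · exfalso
      rw [hTx i hi, T5_h, op5_hh] at hyy
      have h3 : inX (A := A) (Sum.inl (4 * i, p + (8 : ℕ) • e)) := (zf1 i hi).2.2.2.2.2.2.1
      rw [hyy] at h3
      exact not_inX_io _ h3
    · exfalso
      rw [hTx j hj, T5_h, op5_hh] at hyy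
      have h3 : inX (A := A) (Sum.inl (4 * j, q + (8 : ℕ) • e)) := (zf1 j hj).2.2.2.2.2.2.1
      rw [← hyy] at h3
      exact not_inX_io _ h3
    · rw [T5_h, T5_h, op5_hh, op5_hh] at hyy
      rw [hT3 (io_inj hyy)]
  · intro S hS
    set SH : Finset (B ⊕ (A × Bool)) := univ.filter (fun h => io h ∈ S) with hSH
    set Sx : ZMod 5 → Finset B := fun i => univ.filter (fun p => Sum.inl (i, p) ∈ S) with hSx
    have h1 : (SH.card : ℝ) ≤ K' := by
      apply hK'
      intro h hh h' hh' hne hmem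
      rw [hSH, Finset.mem_filter] at hh hh' hmem
      apply hS _ hh.2 _ hh'.2 (fun heq => hne (io_inj heq))
      rw [op5_hh]
      exact hmem.2
    have h2 : ∀ i : ZMod 5, i ≠ 0 → ((Sx i).card : ℝ) ≤ K := by
      intro i hi
      apply hK
      intro p hp q hq hne hmem
      rw [hSx, Finset.mem_filter] at hp hq hmem
      apply hS _ hp.2 _ hq.2 (fun heq => hne (Prod.ext_iff.mp (Sum.inl_injective heq)).2)
      rw [op5_i op opH i hi]
      exact hmem.2
    have h3 : S ⊆ ((univ.filter (fun i : ZMod 5 => i ≠ 0)).biUnion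
        (fun i => (Sx i).image (fun p => Sum.inl (i, p)))) ∪ SH.image io := by
      intro z hz
      rw [Finset.mem_union]
      rcases inX_or z with ⟨i, p, hi, rfl⟩ | ⟨h, rfl⟩
      · left
        rw [Finset.mem_biUnion]
        refine ⟨i, by simp [hi], ?_⟩
        rw [Finset.mem_image]
        exact ⟨p, by simp [hSx, hz], rfl⟩
      · right
        rw [Finset.mem_image]
        exact ⟨h, by simp [hSH, hz], rfl⟩
    have h4 : (univ.filter (fun i : ZMod 5 => i ≠ 0)).card = 4 := by decide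
    have h5 : S.card ≤ ∑ i ∈ univ.filter (fun i : ZMod 5 => i ≠ 0), (Sx i).card + SH.card := by
      calc S.card ≤ _ := Finset.card_le_card h3
        _ ≤ _ := Finset.card_union_le _ _
        _ ≤ _ := by
          refine Nat.add_le_add ?_ Finset.card_image_le
          refine Finset.card_biUnion_le.trans (Finset.sum_le_sum fun i _ => ?_)
          exact Finset.card_image_le
    have h6 : ∑ i ∈ univ.filter (fun i : ZMod 5 => i ≠ 0), ((Sx i).card : ℝ) ≤ 4 * K := by
      calc ∑ i ∈ univ.filter (fun i : ZMod 5 => i ≠ 0), ((Sx i).card : ℝ)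
          ≤ ∑ _i ∈ univ.filter (fun i : ZMod 5 => i ≠ 0), K := by
            refine Finset.sum_le_sum fun i hi => h2 i ?_
            exact (Finset.mem_filter.mp hi).2
        _ = 4 * K := by
            rw [Finset.sum_const, h4, nsmul_eq_mul]
            norm_num
    have h7 : (S.card : ℝ) ≤ ∑ i ∈ univ.filter (fun i : ZMod 5 => i ≠ 0), ((Sx i).card : ℝ) +
        SH.card := by exact_mod_cast h5
    linarith

end Rook
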