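import Pool.Agent.Rook.Skel

/-! (B4): commutative idempotent Latin squares of every odd order, from the building blocks. -/

set_option autoImplicit false

namespace Rook

open Finset

/-- transport of `IndepLe`, `IdLS`, ... along an equivalence -/
theorem GoodSym.transfer {α β : Type*} (e : α ≃ β) {K : ℝ} (h : GoodSym α K) : GoodSym β K := by
  classical
  obtain ⟨op, hL, hc, ⟨T, hT1, hT2, hT3⟩, hI⟩ := h
  refine ⟨fun x y => e (op (e.symm x) (e.symm y)), ⟨?_, ?_, ?_⟩, ?_, ⟨fun x => e (T (e.symm x)), ?_, ?_, ?_⟩, ?_⟩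
  · intro x y z h
    have h1 := hL.row _ (e.injective h)
    exact e.symm.injective h1
  · intro x y z h
    have h1 := hL.col (e.symm x) (e.injective h)
    exact e.symm.injective h1
  · intro x
    simp [hL.idem]
  · intro x y
    simp [hc (e.symm x)]
  · intro x y h
    exact e.symm.injective (hT1 (e.injective h))
  · intro x h
    apply hT2 (e.symm x)
    have h1 : e (T (e.symm x)) = x := h
    exact e.injective (h1.trans (e.apply_symm_apply x).symm)
  · intro x y h
    have h1 : op (e.symm x) (e.symm (e (T (e.symm x)))) = op (e.symm y) (e.symm (e (T (e.symm y)))) :=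
      e.injective h
    simp only [Equiv.symm_apply_apply] at h1
    exact e.symm.injective (hT3 h1)
  · intro S hS
    have h1 : Indep op (S.map e.symm.toEmbedding) := by
      intro p hp q hq hpq hm
      rw [Finset.mem_map] at hp hq hm
      obtain ⟨p', hp', rfl⟩ := hp
      obtain ⟨q', hq', rfl⟩ := hq
      obtain ⟨r', hr', h2⟩ := hm
      have h3 : p' ≠ q' := by
        rintro rfl
        exact hpq rfl
      apply hS p' hp' q' hq' h3
      have h4 : e (op (e.symm p') (e.symm q')) = r' := by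
        have : e.symm r' = op (e.symm p') (e.symm q') := h2
        rw [← this]
        simp
      show e (op (e.symm p') (e.symm q')) ∈ S
      rw [h4]
      exact hr'
    have h2 := hI _ h1
    simpa using h2

theorem GoodSym.of_card {α β : Type*} [Fintype α] [Fintype β] {K : ℝ} (h : GoodSym α K)
    (hc : Fintype.card α = Fintype.card β) : GoodSym β K :=
  h.transfer (Fintype.equivOfCardEq hc)

theorem GoodSym.mono {α : Type*} {K K' : ℝ} (h : GoodSym α K) (hK : K ≤ K') : GoodSym α K' := by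
  obtain ⟨op, hL, hc, hT, hI⟩ := h
  exact ⟨op, hL, hc, hT, fun S hS => (hI S hS).trans hK⟩

/-- small orders: the cyclic group -/
theorem goodSym_zmod (n : ℕ) (hn : Odd n) (h3 : 3 ≤ n) : GoodSym (Fin n) (n : ℝ) := by
  classical
  have : NeZero n := ⟨by omega⟩
  have : Fact (1 < n) := ⟨by omega⟩
  obtain ⟨k, hk⟩ := hn
  -- 2 is invertible with inverse k+1
  have h2 : (2 : ZMod n) * ((k : ZMod n) + 1) = 1 := by
    have h4 : ((n : ℕ) : ZMod n) = 0 := ZMod.natCast_self n
    have h5 : (2 : ZMod n) * ((k : ZMod n) + 1) = ((2 * k + 1 : ℕ) : ZMod n) + 1 := by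
      push_cast; ring
    rw [h5, ← hk, h4, zero_add]
  set i : ZMod n := (k : ZMod n) + 1 with hi
  have hinj : ∀ x y : ZMod n, i * x = i * y → x = y := by
    intro x y h
    have : 2 * (i * x) = 2 * (i * y) := by rw [h]
    rw [← mul_assoc, ← mul_assoc, h2, one_mul, one_mul] at this
    exact this
  have hG : GoodSym (ZMod n) (n : ℝ) := by
    refine ⟨fun x y => i * (x + y), ⟨?_, ?_, ?_⟩, ?_, ⟨fun x => x + 1, ?_, ?_, ?_⟩, ?_⟩
    · intro x y z h
      exact add_left_cancel (hinj _ _ h)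
    · intro x y z h
      exact add_right_cancel (hinj _ _ h)
    · intro x
      show i * (x + x) = x
      calc i * (x + x) = (2 * i) * x := by ring
        _ = x := by rw [h2, one_mul]
    · intro x y
      show i * (x + y) = i * (y + x)
      rw [add_comm]
    · intro x y h
      exact add_right_cancel h
    · intro x h
      have h6 : (1 : ZMod n) = 0 := by
        have : x + 1 = x + 0 := by rw [add_zero]; exact h
        exact add_left_cancel this
      exact one_ne_zero h6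
    · intro x y h
      have h7 := hinj _ _ h
      have h8 : (2 : ZMod n) * x = 2 * y := by
        have h9 : 2 * x + 1 = 2 * y + 1 := by
          calc 2 * x + 1 = x + (x + 1) := by ring
            _ = y + (y + 1) := h7
            _ = 2 * y + 1 := by ring
        exact add_right_cancel h9
      have : i * (2 * x) = i * (2 * y) := by rw [h8]
      rw [← mul_assoc, ← mul_assoc, mul_comm i 2, h2, one_mul, one_mul] at this
      exact this
    · intro S _
      have h10 : S.card ≤ Fintype.card (ZMod n) := Finset.card_le_univ S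
      rw [ZMod.card] at h10
      exact_mod_cast h10
  exact hG.of_card (by simp [ZMod.card])

theorem g_nonneg (n : ℕ) : 0 ≤ g n := Real.sqrt_nonneg _

/-- `g m ≤ r g n` if `m ≤ r^2 n`, `1 ≤ m ≤ n`. -/
theorem g_le (m n : ℕ) (r : ℝ) (hr : 0 ≤ r) (h1 : 1 ≤ m) (hmn : m ≤ n)
    (h : (m : ℝ) ≤ r ^ 2 * n) : g m ≤ r * g n := by
  unfold g
  have h2 : r * Real.sqrt (n * Real.log n) = Real.sqrt (r ^ 2 * (n * Real.log n)) := by
    rw [Real.sqrt_mul (x := r ^ 2) (by positivity), Real.sqrt_sq hr]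
  rw [h2]
  apply Real.sqrt_le_sqrt
  have hm : (0 : ℝ) < m := by exact_mod_cast h1
  have h3 : Real.log m ≤ Real.log n := Real.log_le_log hm (by exact_mod_cast hmn)
  have h4 : 0 ≤ Real.log m := Real.log_nonneg (by exact_mod_cast h1)
  calc (m : ℝ) * Real.log m ≤ (r ^ 2 * n) * Real.log n := by
        apply mul_le_mul h h3 h4 (by positivity)
    _ = r ^ 2 * (n * Real.log n) := by ring

/-- small orders -/
theorem base_case (C : ℝ) (N : ℕ) (hC : Real.sqrt N ≤ C) (n : ℕ) (hn : Odd n) (h3 : 3 ≤ n)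
    (hN : n ≤ N) : GoodSym (Fin n) (C * g n) := by
  refine (goodSym_zmod n hn h3).mono ?_
  have hn0 : (0 : ℝ) < n := by
    have : 0 < n := by omega
    exact_mod_cast this
  have h1 : (n : ℝ) = Real.sqrt n * Real.sqrt n := (Real.mul_self_sqrt hn0.le).symm
  have h2 : Real.sqrt n ≤ Real.sqrt N := Real.sqrt_le_sqrt (by exact_mod_cast hN)
  have h4 : Real.sqrt n ≤ g n := by
    unfold g
    apply Real.sqrt_le_sqrt
    have h5 : (1 : ℝ) ≤ Real.log n := by
      rw [Real.le_log_iff_exp_le hn0]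
      have h6 : Real.exp 1 < 2.7182818286 := Real.exp_one_lt_d9
      have h7 : (3 : ℝ) ≤ n := by exact_mod_cast h3
      linarith
    nlinarith
  calc (n : ℝ) = Real.sqrt n * Real.sqrt n := h1
    _ ≤ C * g n := by
        apply mul_le_mul (h2.trans hC) h4 (Real.sqrt_nonneg _)
        exact (Real.sqrt_nonneg _).trans hC

/-- building blocks of order `5^b 3^c`, `b ≤ 8`, `1 ≤ c`. -/
theorem blocks (h2 : StmtB2) (h2b : StmtB2b) :
    ∃ K : ℝ, 0 < K ∧ ∀ b c : ℕ, b ≤ 8 → 1 ≤ c →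
      ∃ op : ((Fin b → ZMod 5) × (Fin c → ZMod 3)) → ((Fin b → ZMod 5) × (Fin c → ZMod 3)) →
        ((Fin b → ZMod 5) × (Fin c → ZMod 3)), IdLS op ∧ (∀ x y, op x y = op y x) ∧
        IndepLe op (K * g (5 ^ b * 3 ^ c)) := by
  obtain ⟨K, hK, hB⟩ := h2
  refine ⟨5 ^ 4 * K, by positivity, fun b c hb hc => ?_⟩
  have e5 : ∀ x : (Fin b → ZMod 5), (5 : ℕ) • x = 0 := by
    intro x
    funext i
    have : (5 : ZMod 5) = 0 := by decide
    simp [nsmul_eq_mul, this]
  have e3 : ∀ x : (Fin c → ZMod 3), (3 : ℕ) • x = 0 := by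
    intro x
    funext i
    have : (3 : ZMod 3) = 0 := by decide
    simp [nsmul_eq_mul, this]
  have hcard : Fintype.card (Fin c → ZMod 3) = 3 ^ c := by simp
  have hcard5 : Fintype.card (Fin b → ZMod 5) = 5 ^ b := by simp
  have h3c : 3 ≤ 3 ^ c := by
    calc 3 = 3 ^ 1 := by norm_num
      _ ≤ 3 ^ c := Nat.pow_le_pow_right (by norm_num) hc
  obtain ⟨op, hL, hcomm, hI⟩ := hB (Fin c → ZMod 3) e3 (by rw [hcard]; exact h3c)
  obtain ⟨op', hL', hcomm', hI'⟩ := h2b (Fin b → ZMod 5) (Fin c → ZMod 3) e5 e3 op _ hL hcomm hI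
  refine ⟨op', hL', hcomm', fun S hS => (hI' S hS).trans ?_⟩
  rw [hcard, hcard5]
  -- 5^b * (K * g (3^c)) ≤ 5^4 K g(5^b 3^c)
  have key : ((5 ^ b : ℕ) : ℝ) * g (3 ^ c) ≤ 5 ^ 4 * g (5 ^ b * 3 ^ c) := by
    unfold g
    have hb5 : ((5 ^ b : ℕ) : ℝ) ≤ 5 ^ 8 := by
      have : 5 ^ b ≤ 5 ^ 8 := Nat.pow_le_pow_right (by norm_num) hb
      exact_mod_cast this
    have hpos : (0 : ℝ) < ((5 ^ b : ℕ) : ℝ) := by positivity
    have hlog0 : 0 ≤ Real.log ((3 ^ c : ℕ) : ℝ) := by
      apply Real.log_nonneg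
      exact_mod_cast Nat.one_le_pow _ _ (by norm_num)
    have hlog : Real.log ((3 ^ c : ℕ) : ℝ) ≤ Real.log ((5 ^ b * 3 ^ c : ℕ) : ℝ) := by
      apply Real.log_le_log
      · positivity
      · have : 3 ^ c ≤ 5 ^ b * 3 ^ c := Nat.le_mul_of_pos_left _ (by positivity)
        exact_mod_cast this
    have e1 : ((5 ^ b : ℕ) : ℝ) * Real.sqrt (((3 ^ c : ℕ) : ℝ) * Real.log ((3 ^ c : ℕ) : ℝ))
        = Real.sqrt (((5 ^ b : ℕ) : ℝ) ^ 2 * (((3 ^ c : ℕ) : ℝ) * Real.log ((3 ^ c : ℕ) : ℝ))) := by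
      rw [Real.sqrt_mul (x := ((5 ^ b : ℕ) : ℝ) ^ 2) (by positivity), Real.sqrt_sq hpos.le]
    have e2 : (5 : ℝ) ^ 4 * Real.sqrt (((5 ^ b * 3 ^ c : ℕ) : ℝ) * Real.log ((5 ^ b * 3 ^ c : ℕ) : ℝ))
        = Real.sqrt ((5 : ℝ) ^ 8 * (((5 ^ b * 3 ^ c : ℕ) : ℝ) * Real.log ((5 ^ b * 3 ^ c : ℕ) : ℝ))) := by
      rw [Real.sqrt_mul (x := (5 : ℝ) ^ 8) (by positivity)]
      rw [show (5 : ℝ) ^ 8 = (5 ^ 4) ^ 2 by norm_num, Real.sqrt_sq (by positivity)]
    rw [e1, e2]
    apply Real.sqrt_le_sqrt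
    have e3' : ((5 ^ b * 3 ^ c : ℕ) : ℝ) = ((5 ^ b : ℕ) : ℝ) * ((3 ^ c : ℕ) : ℝ) := by push_cast; ring
    rw [e3'] at hlog ⊢
    have hq : (0 : ℝ) < ((3 ^ c : ℕ) : ℝ) := by positivity
    calc ((5 ^ b : ℕ) : ℝ) ^ 2 * (((3 ^ c : ℕ) : ℝ) * Real.log ((3 ^ c : ℕ) : ℝ))
        = ((5 ^ b : ℕ) : ℝ) * ((((5 ^ b : ℕ) : ℝ) * ((3 ^ c : ℕ) : ℝ)) * Real.log ((3 ^ c : ℕ) : ℝ)) := by ring
      _ ≤ 5 ^ 8 * ((((5 ^ b : ℕ) : ℝ) * ((3 ^ c : ℕ) : ℝ)) *
            Real.log (((5 ^ b : ℕ) : ℝ) * ((3 ^ c : ℕ) : ℝ))) := by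
          apply mul_le_mul hb5 _ (by positivity) (by positivity)
          apply mul_le_mul_of_nonneg_left hlog (by positivity)
  calc ((5 ^ b : ℕ) : ℝ) * (K * g (3 ^ c)) = K * (((5 ^ b : ℕ) : ℝ) * g (3 ^ c)) := by ring
    _ ≤ K * (5 ^ 4 * g (5 ^ b * 3 ^ c)) := mul_le_mul_of_nonneg_left key hK.le
    _ = 5 ^ 4 * K * g (5 ^ b * 3 ^ c) := by ring

/-- choice of the order of the building block -/
theorem choose_block (n : ℕ) (hn : 3 ^ 14 ≤ n) :
    ∃ b c : ℕ, b ≤ 8 ∧ 1 ≤ c ∧ 5 * (5 ^ b * 3 ^ c) ≤ n ∧ n + 2 ≤ 7 * (5 ^ b * 3 ^ c) := by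
  -- a with 3^a ≤ n/5 < 3^(a+1)
  have hex : ∃ a : ℕ, 5 * 3 ^ (a + 12) ≤ n ∧ n < 5 * 3 ^ (a + 13) := by
    have h0 : n / 5 ≠ 0 := by
      have : 3 ^ 14 = 4782969 := by norm_num
      omega
    set a := Nat.log 3 (n / 5) with ha
    have h1 : 3 ^ a ≤ n / 5 := Nat.pow_log_le_self 3 h0
    have h2 : n / 5 < 3 ^ (a + 1) := Nat.lt_pow_succ_log_self (by norm_num) _
    have h12 : 12 ≤ a := by
      by_contra h
      have h3 : 3 ^ (a + 1) ≤ 3 ^ 12 := Nat.pow_le_pow_right (by norm_num) (by omega)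
      have e14 : 3 ^ 14 = 4782969 := by norm_num
      have e12 : 3 ^ 12 = 531441 := by norm_num
      omega
    refine ⟨a - 12, ?_, ?_⟩
    · have : a - 12 + 12 = a := by omega
      rw [this]; omega
    · have : a - 12 + 13 = a + 1 := by omega
      rw [this]; omega
  obtain ⟨a, h1, h2⟩ := hex
  -- t = 3^(a+1)
  have e12 : 3 ^ (a + 12) = 177147 * 3 ^ (a + 1) := by rw [show a + 12 = 11 + (a + 1) by ring, pow_add]; norm_num
  have e13 : 3 ^ (a + 13) = 531441 * 3 ^ (a + 1) := by rw [show a + 13 = 12 + (a + 1) by ring, pow_add]; norm_num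
  have hM2 : 5 ^ 7 * 3 ^ (a + 2) = 234375 * 3 ^ (a + 1) := by
    rw [show a + 2 = 1 + (a + 1) by ring, pow_add]; ring
  have hM3 : 5 ^ 1 * 3 ^ (a + 11) = 295245 * 3 ^ (a + 1) := by
    rw [show a + 11 = 10 + (a + 1) by ring, pow_add]; ring
  have hM4 : 5 ^ 8 * 3 ^ (a + 1) = 390625 * 3 ^ (a + 1) := by ring
  have hM1 : 5 ^ 0 * 3 ^ (a + 12) = 177147 * 3 ^ (a + 1) := by rw [e12]; ring
  have ht : 1 ≤ 3 ^ (a + 1) := Nat.one_le_pow _ _ (by norm_num)
  rw [e12] at h1
  rw [e13] at h2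
  by_cases c1 : n < 5 * (234375 * 3 ^ (a + 1))
  · refine ⟨0, a + 12, by norm_num, by omega, ?_, ?_⟩
    · rw [hM1]; omega
    · rw [hM1]; omega
  · by_cases c2 : n < 5 * (295245 * 3 ^ (a + 1))
    · refine ⟨7, a + 2, by norm_num, by omega, ?_, ?_⟩
      · rw [hM2]; omega
      · rw [hM2]; omega
    · by_cases c3 : n < 5 * (390625 * 3 ^ (a + 1))
      · refine ⟨1, a + 11, by norm_num, by omega, ?_, ?_⟩
        · rw [hM3]; omega
        · rw [hM3]; omega
      · refine ⟨8, a + 1, by norm_num, by omega, ?_, ?_⟩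
        · rw [hM4]; omega
        · rw [hM4]; omega

/-- the induction step for a given block -/
theorem step (h3 : StmtB3) (B : Type) [AddCommGroup B] [Fintype B] (e15 : ∀ x : B, (15 : ℕ) • x = 0)
    (op : B → B → B) (K K' : ℝ) (hL : IdLS op) (hcomm : ∀ x y, op x y = op y x)
    (hI : IndepLe op K) (n M : ℕ) (hBcard : Fintype.card B = M) (hodd : Odd n) (hModd : Odd M)
    (hM5 : 5 * M ≤ n) (hM7 : n + 2 ≤ 7 * M)
    (hih : GoodSym (Fin (n - 4 * M)) K') : GoodSym (Fin n) (4 * K + K') := by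
  classical
  obtain ⟨k, hk⟩ := hodd
  obtain ⟨j, hj⟩ := hModd
  have hA : ∃ A : Finset B, A.card = (n - 5 * M) / 2 := by
    obtain ⟨A, hA1, hA2⟩ := Finset.exists_subset_card_eq (s := (Finset.univ : Finset B))
      (n := (n - 5 * M) / 2) (by rw [Finset.card_univ, hBcard]; omega)
    exact ⟨A, hA2⟩
  obtain ⟨A, hA⟩ := hA
  have hAne : A ≠ univ := by
    intro h
    rw [h, Finset.card_univ, hBcard] at hA
    omega
  have hcardH : Fintype.card (B ⊕ (A × Bool)) = n - 4 * M := by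
    rw [Fintype.card_sum, Fintype.card_prod, hBcard, Fintype.card_coe, hA, Fintype.card_bool]
    omega
  have hH : GoodSym (B ⊕ (A × Bool)) K' :=
    hih.of_card (by rw [hcardH, Fintype.card_fin])
  have hG := h3 B e15 op _ _ hL hcomm hI A hAne hH
  have hcard : Fintype.card (({i : ZMod 5 // i ≠ 0} × B) ⊕ (B ⊕ (A × Bool)))
      = Fintype.card (Fin n) := by
    rw [Fintype.card_sum, Fintype.card_prod, hcardH, hBcard, Fintype.card_fin]
    have : Fintype.card {i : ZMod 5 // i ≠ 0} = 4 := by decide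
    rw [this]
    omega
  exact hG.of_card hcard

theorem b4 : StmtB2 → StmtB2b → StmtB3 → StmtB4 := by
  classical
  intro h2 h2b h3
  obtain ⟨K, hK, hblocks⟩ := blocks h2 h2b
  set N : ℕ := 3 ^ 14 with hN
  set C : ℝ := max (Real.sqrt N) (6 * K) with hC
  have hC1 : Real.sqrt N ≤ C := le_max_left _ _
  have hC2 : 6 * K ≤ C := le_max_right _ _
  have hC0 : 0 < C := lt_of_lt_of_le (by positivity) hC2
  refine ⟨C, hC0, ?_⟩
  intro n
  induction n using Nat.strong_induction_on with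
  | _ n ih =>
    intro hodd hn3
    by_cases hsmall : n ≤ N
    · exact base_case C N hC1 n hodd hn3 hsmall
    · push Not at hsmall
      obtain ⟨b, c, hb, hc, hM5, hM7⟩ := choose_block n (by omega)
      set M : ℕ := 5 ^ b * 3 ^ c with hMdef
      have hModd : Odd M := by
        rw [hMdef]
        exact Odd.mul (Odd.pow (by decide)) (Odd.pow (by decide))
      have hMpos : 0 < M := by positivity
      have hM3 : 3 ≤ M := by
        have h3c : 3 ≤ 3 ^ c := by
          calc 3 = 3 ^ 1 := by norm_num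
            _ ≤ 3 ^ c := Nat.pow_le_pow_right (by norm_num) hc
        calc 3 ≤ 3 ^ c := h3c
          _ ≤ 5 ^ b * 3 ^ c := Nat.le_mul_of_pos_left _ (by positivity)
      have e15 : ∀ x : (Fin b → ZMod 5) × (Fin c → ZMod 3), (15 : ℕ) • x = 0 := by
        intro x
        obtain ⟨x1, x2⟩ := x
        have e5 : (15 : ZMod 5) = 0 := by decide
        have e3 : (15 : ZMod 3) = 0 := by decide
        refine Prod.ext ?_ ?_
        · funext i
          show ((15 : ℕ) • x1) i = 0
          simp [nsmul_eq_mul, e5]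
        · funext i
          show ((15 : ℕ) • x2) i = 0
          simp [nsmul_eq_mul, e3]
      obtain ⟨op, hL, hcomm, hI⟩ := hblocks b c hb hc
      have hodd' := hodd
      have hModd' := hModd
      obtain ⟨k, hk⟩ := hodd'
      obtain ⟨j, hj⟩ := hModd'
      have hih : GoodSym (Fin (n - 4 * M)) (C * g (n - 4 * M)) := by
        apply ih _ (by omega)
        · exact ⟨k - 2 * M, by omega⟩
        · omega
      refine (step h3 _ e15 op _ _ hL hcomm hI n M (by simp [hMdef]) hodd hModd hM5 hM7 hih).mono ?_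
      have g1 : g M ≤ (9 / 20 : ℝ) * g n := by
        apply g_le M n _ (by norm_num) (by omega) (by omega)
        have : (5 : ℝ) * M ≤ n := by exact_mod_cast hM5
        nlinarith
      have g2 : g (n - 4 * M) ≤ (66 / 100 : ℝ) * g n := by
        apply g_le _ n _ (by norm_num) (by omega) (by omega)
        have h7 : (n : ℝ) + 2 ≤ 7 * M := by exact_mod_cast hM7
        have h8 : ((n - 4 * M : ℕ) : ℝ) = (n : ℝ) - 4 * M := by
          rw [Nat.cast_sub (by omega)]
          push_cast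
          ring
        rw [h8]
        have hn0 : (0 : ℝ) ≤ n := by positivity
        nlinarith
      have hg := g_nonneg n
      calc 4 * (K * g M) + C * g (n - 4 * M)
          ≤ 4 * (K * ((9 / 20 : ℝ) * g n)) + C * ((66 / 100 : ℝ) * g n) := by
            apply add_le_add
            · apply mul_le_mul_of_nonneg_left _ (by norm_num)
              exact mul_le_mul_of_nonneg_left g1 hK.le
            · exact mul_le_mul_of_nonneg_left g2 hC0.le
        _ = (9 / 5 * K + 66 / 100 * C) * g n := by ring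
        _ ≤ C * g n := by
            apply mul_le_mul_of_nonneg_right _ hg
            nlinarith

end Rook
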