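import Pool.Agent.Rook.Skel

/-! Module B5 of project ROOK: prolongation by one point. -/

namespace Rook.B5

open Finset

open Classical in
/-- the prolongation along the permutation `e` -/
noncomputable def pro {α : Type} (op : α → α → α) (e : Equiv.Perm α) :
    Option α → Option α → Option α
  | some x, some y => if y = e x then none else some (op x y)
  | some x, none => some (op x (e x))
  | none, some y => some (op (e.symm y) y)
  | none, none => none

variable {α : Type} {op : α → α → α} {e : Equiv.Perm α}

theorem pro_ss_eq {x y : α} (h : y = e x) : pro op e (some x) (some y) = none := by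
  simp [pro, h]

theorem pro_ss_ne {x y : α} (h : y ≠ e x) : pro op e (some x) (some y) = some (op x y) := by
  simp [pro, h]

theorem pro_sn (x : α) : pro op e (some x) none = some (op x (e x)) := rfl

theorem pro_ns (y : α) : pro op e none (some y) = some (op (e.symm y) y) := rfl

theorem pro_nn : pro op e none none = none := rfl

theorem idLS_pro (h : IdLS op) (hT : OffTrans op e) : IdLS (pro op e) where
  row := by
    intro x
    cases x with
    | none =>
      intro y y' hyy
      cases y with
      | none =>
        cases y' with
        | none => rfl
        | some y' => rw [pro_nn, pro_ns] at hyy; cases hyy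
      | some y =>
        cases y' with
        | none => rw [pro_nn, pro_ns] at hyy; cases hyy
        | some y' =>
          rw [pro_ns, pro_ns, Option.some.injEq] at hyy
          have h1 : op (e.symm y) (e (e.symm y)) = op (e.symm y') (e (e.symm y')) := by
            simpa using hyy
          have h2 := hT.2.2 h1
          rw [e.symm.injective h2]
    | some x =>
      intro y y' hyy
      cases y with
      | none =>
        cases y' with
        | none => rfl
        | some y' =>
          by_cases hy : y' = e x
          · rw [pro_sn, pro_ss_eq hy] at hyy; cases hyy
          · rw [pro_sn, pro_ss_ne hy, Option.some.injEq] at hyy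
            exact absurd (h.row x hyy).symm hy
      | some y =>
        cases y' with
        | none =>
          by_cases hy : y = e x
          · rw [pro_sn, pro_ss_eq hy] at hyy; cases hyy
          · rw [pro_sn, pro_ss_ne hy, Option.some.injEq] at hyy
            exact absurd (h.row x hyy) hy
        | some y' =>
          by_cases hy : y = e x
          · by_cases hy' : y' = e x
            · rw [hy, hy']
            · rw [pro_ss_eq hy, pro_ss_ne hy'] at hyy; cases hyy
          · by_cases hy' : y' = e x
            · rw [pro_ss_ne hy, pro_ss_eq hy'] at hyy; cases hyy
            · rw [pro_ss_ne hy, pro_ss_ne hy', Option.some.injEq] at hyy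
              rw [h.row x hyy]
  col := by
    intro y
    cases y with
    | none =>
      intro x x' hxx
      cases x with
      | none =>
        cases x' with
        | none => rfl
        | some x' =>
          have hxx' : pro op e none none = pro op e (some x') none := hxx
          rw [pro_nn, pro_sn] at hxx'; cases hxx'
      | some x =>
        cases x' with
        | none =>
          have hxx' : pro op e (some x) none = pro op e none none := hxx
          rw [pro_nn, pro_sn] at hxx'; cases hxx'
        | some x' =>
          have hxx' : pro op e (some x) none = pro op e (some x') none := hxx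
          rw [pro_sn, pro_sn, Option.some.injEq] at hxx'
          rw [hT.2.2 hxx']
    | some y =>
      intro x x' hxx
      have hc := h.col y
      cases x with
      | none =>
        cases x' with
        | none => rfl
        | some x' =>
          have hxx' : pro op e none (some y) = pro op e (some x') (some y) := hxx
          by_cases hy : y = e x'
          · rw [pro_ns, pro_ss_eq hy] at hxx'; cases hxx'
          · rw [pro_ns, pro_ss_ne hy, Option.some.injEq] at hxx'
            have := hc hxx'
            exact absurd (by rw [← this, Equiv.apply_symm_apply]) hy
      | some x =>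
        cases x' with
        | none =>
          have hxx' : pro op e (some x) (some y) = pro op e none (some y) := hxx
          by_cases hy : y = e x
          · rw [pro_ns, pro_ss_eq hy] at hxx'; cases hxx'
          · rw [pro_ns, pro_ss_ne hy, Option.some.injEq] at hxx'
            have := hc hxx'
            exact absurd (by rw [this, Equiv.apply_symm_apply]) hy
        | some x' =>
          have hxx' : pro op e (some x) (some y) = pro op e (some x') (some y) := hxx
          by_cases hy : y = e x
          · by_cases hy' : y = e x'
            · rw [e.injective (hy.symm.trans hy')]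
            · rw [pro_ss_eq hy, pro_ss_ne hy'] at hxx'; cases hxx'
          · by_cases hy' : y = e x'
            · rw [pro_ss_ne hy, pro_ss_eq hy'] at hxx'; cases hxx'
            · rw [pro_ss_ne hy, pro_ss_ne hy', Option.some.injEq] at hxx'
              rw [hc hxx']
  idem := by
    intro x
    cases x with
    | none => rfl
    | some x =>
      rw [pro_ss_ne (fun hx => hT.2.1 x hx.symm), h.idem]

/-- no `x` and `e x` both in `P` -/
def Free (e : Equiv.Perm α) (P : Finset α) : Prop := ∀ x ∈ P, e x ∉ P

theorem exists_third (e : Equiv.Perm α) (he : ∀ x, e x ≠ x) (S : Finset α) :
    ∃ P ⊆ S, (∀ x ∈ P, e x ∉ P) ∧ S.card ≤ 3 * P.card := by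
  classical
  obtain ⟨P, hP, hmax⟩ := exists_max_image (S.powerset.filter fun P => Free e P) card
    ⟨∅, by simp [Free]⟩
  obtain ⟨hPS, hPT⟩ := mem_filter.1 hP
  rw [mem_powerset] at hPS
  refine ⟨P, hPS, hPT, ?_⟩
  have hsub : S ⊆ P ∪ P.image e ∪ P.image e.symm := by
    intro x hx
    by_contra hn
    simp only [mem_union, mem_image, not_or, not_exists, not_and] at hn
    obtain ⟨⟨h1, h2⟩, h3⟩ := hn
    have h4 := hmax (insert x P) (mem_filter.2 (by
      rw [mem_powerset]
      refine ⟨insert_subset hx hPS, ?_⟩
      intro y hy
      rw [mem_insert] at hy
      rw [mem_insert, not_or]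
      rcases hy with rfl | hy
      · refine ⟨he y, ?_⟩
        intro h5
        exact h3 _ h5 (by simp)
      · exact ⟨h2 y hy, hPT y hy⟩))
    rw [card_insert_of_notMem h1] at h4
    omega
  have h1 := card_le_card hsub
  have h2 := card_union_le (P ∪ P.image e) (P.image e.symm)
  have h3 := card_union_le P (P.image e)
  have h4 : (P.image e).card ≤ P.card := card_image_le
  have h5 : (P.image e.symm).card ≤ P.card := card_image_le
  omega

theorem b5 : StmtB5 := by
  intro α _ K hG
  obtain ⟨op, h, _, ⟨T, hT⟩, hK⟩ := hG
  classical
  have hb : Function.Bijective T := Finite.injective_iff_bijective.1 hT.1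
  set e : Equiv.Perm α := Equiv.ofBijective T hb with he
  have heT : (e : α → α) = T := rfl
  rw [← heT] at hT
  refine ⟨pro op e, idLS_pro h hT, ?_⟩
  intro S hS
  obtain ⟨P, hPS, hP1, hP2⟩ := exists_third e hT.2.1 (Finset.eraseNone S)
  have h1 : S.card ≤ (Finset.eraseNone S).card + 1 := by
    have h2 : S ⊆ insertNone (eraseNone S) := by
      intro x hx
      cases x with
      | none => exact none_mem_insertNone
      | some x =>
        rw [some_mem_insertNone, mem_eraseNone]
        exact hx
    have := card_le_card h2
    rwa [card_insertNone] at this
  have h2 : (P.card : ℝ) ≤ K := by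
    apply hK P
    intro p hp q hq hpq hr
    have hq' : q ≠ e p := by
      intro hh
      exact hP1 p hp (hh ▸ hq)
    apply hS (some p) (mem_eraseNone.1 (hPS hp)) (some q) (mem_eraseNone.1 (hPS hq))
      (by simpa using hpq)
    rw [pro_ss_ne hq']
    exact mem_eraseNone.1 (hPS hr)
  have h3 : (S.card : ℝ) ≤ 3 * P.card + 1 := by
    have : S.card ≤ 3 * P.card + 1 := by omega
    exact_mod_cast this
  linarith

end Rook.B5
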