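import Mathlib

/-!
MP_420652_co (super rooks).  Definitions shared by all modules.
`op : α → α → α` is an idempotent quasigroup (= Latin square whose diagonal is the identity).
A set `S` is independent if `p ≠ q` in `S` implies `op p q ∉ S`.
-/

namespace Rook

/-- Idempotent Latin square on a type. -/
structure IdLS {α : Type*} (op : α → α → α) : Prop where
  row : ∀ x, Function.Injective (op x)
  col : ∀ y, Function.Injective (fun x => op x y)
  idem : ∀ x, op x x = x

/-- `S` contains no `p ≠ q` with `op p q ∈ S`. -/
def Indep {α : Type*} (op : α → α → α) (S : Finset α) : Prop :=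
  ∀ p ∈ S, ∀ q ∈ S, p ≠ q → op p q ∉ S

/-- the order function `sqrt (n log n)` -/
noncomputable def g (n : ℕ) : ℝ := Real.sqrt (n * Real.log n)

/-- every independent set of `op` has size at most `K`. -/
def IndepLe {α : Type*} (op : α → α → α) (K : ℝ) : Prop :=
  ∀ S : Finset α, Indep op S → (S.card : ℝ) ≤ K

/-- `T` is an off-diagonal transversal of `op`: a permutation without fixed points such that
`x ↦ op x (T x)` is injective. -/
def OffTrans {α : Type*} (op : α → α → α) (T : α → α) : Prop :=
  Function.Injective T ∧ (∀ x, T x ≠ x) ∧ Function.Injective (fun x => op x (T x))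

/-- commutative idempotent Latin square with an off-diagonal transversal and with all
independent sets of size at most `K`. -/
def GoodSym (α : Type*) (K : ℝ) : Prop :=
  ∃ op : α → α → α, IdLS op ∧ (∀ x y, op x y = op y x) ∧ (∃ T, OffTrans op T) ∧ IndepLe op K

end Rook
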