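import Pool.Agent.Rook.A3
import Pool.Agent.Rook.B1
import Pool.Agent.Rook.B2
import Pool.Agent.Rook.B2b
import Pool.Agent.Rook.B3
import Pool.Agent.Rook.B4
import Pool.Agent.Rook.B5

/-! Final module of project ROOK: the numbers of the problem file. -/

namespace Rook

open Finset Classical

/-- Admissible colouring of the `n × n` board: every colour occurs in every row, in every column
and on the main diagonal. -/
def Admissible {n : ℕ} (c : Fin n → Fin n → Fin n) : Prop :=
  (∀ i, Function.Surjective (c i)) ∧ (∀ j, Function.Surjective (fun i => c i j)) ∧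
    Function.Surjective (fun i => c i i)

/-- The super rooks on the diagonal cells `(i,i)`, `i ∈ D`, attack every off-diagonal cell. -/
def Attacks {n : ℕ} (c : Fin n → Fin n → Fin n) (D : Finset (Fin n)) : Prop :=
  ∀ p q, p ≠ q → ∃ i ∈ D, p = i ∨ q = i ∨ c p q = c i i

/-- `s(c)`: the least size of a set `D` of diagonal positions that attacks everything. -/
noncomputable def sNum {n : ℕ} (c : Fin n → Fin n → Fin n) : ℕ :=
  sInf {k | ∃ D : Finset (Fin n), Attacks c D ∧ D.card = k}

/-- the values `s(c)` over the admissible colourings `c` -/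
def sVals (n : ℕ) : Set ℕ :=
  {k | ∃ c : Fin n → Fin n → Fin n, Admissible c ∧ sNum c = k}

/-- the values `s(c)` over the symmetric admissible colourings `c` -/
def symVals (n : ℕ) : Set ℕ :=
  {k | ∃ c : Fin n → Fin n → Fin n, Admissible c ∧ (∀ p q, c p q = c q p) ∧ sNum c = k}

/-- `f(n)` -/
noncomputable def f (n : ℕ) : ℕ := sSup (sVals n)

/-- `f_sym(n)` -/
noncomputable def fsym (n : ℕ) : ℕ := sSup (symVals n)

section

variable {n : ℕ} {c : Fin n → Fin n → Fin n}

lemma attacks_univ (c : Fin n → Fin n → Fin n) : Attacks c univ :=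
  fun p _ _ => ⟨p, mem_univ _, Or.inl rfl⟩

lemma sNum_le {D : Finset (Fin n)} (hD : Attacks c D) : sNum c ≤ D.card :=
  Nat.sInf_le ⟨D, hD, rfl⟩

lemma sNum_le_n (c : Fin n → Fin n → Fin n) : sNum c ≤ n := by
  have := sNum_le (attacks_univ c)
  simpa using this

lemma sNum_mem (c : Fin n → Fin n → Fin n) :
    ∃ D : Finset (Fin n), Attacks c D ∧ D.card = sNum c :=
  Nat.sInf_mem (s := {k | ∃ D : Finset (Fin n), Attacks c D ∧ D.card = k})
    ⟨_, univ, attacks_univ c, rfl⟩

lemma greatest (S : Set ℕ) (hne : S.Nonempty) (hb : ∀ k ∈ S, k ≤ n) : IsGreatest S (sSup S) :=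
  ⟨Nat.sSup_mem hne ⟨n, fun k hk => hb k hk⟩, fun _ hk => le_csSup ⟨n, fun k hk => hb k hk⟩ hk⟩

/-- the idempotent Latin square of an admissible colouring -/
lemma upper_aux (hc : Admissible c) (hn : 2 ≤ n) {a : ℝ}
    (hA : ∀ (op : Fin n → Fin n → Fin n), IdLS op →
      ∃ S : Finset (Fin n), Indep op S ∧ a * g n ≤ (S.card : ℝ)) :
    a * g n ≤ (n : ℝ) - sNum c := by
  obtain ⟨h1, h2, h3⟩ := hc
  have b3 : Function.Bijective (fun i => c i i) := Finite.surjective_iff_bijective.1 h3
  have b1 : ∀ i, Function.Bijective (c i) := fun i => Finite.surjective_iff_bijective.1 (h1 i)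
  have b2 : ∀ j, Function.Bijective (fun i => c i j) :=
    fun j => Finite.surjective_iff_bijective.1 (h2 j)
  set e := Equiv.ofBijective _ b3 with he
  have hop : IdLS (fun p q => e.symm (c p q)) := by
    refine ⟨fun x => e.symm.injective.comp (b1 x).1, fun y => ?_, fun x => ?_⟩
    · exact e.symm.injective.comp (b2 y).1
    · exact e.symm_apply_apply x
  obtain ⟨S, hS, hcard⟩ := hA _ hop
  have hatt : Attacks c Sᶜ := by
    intro p q hpq
    by_cases hp : p ∈ S
    · by_cases hq : q ∈ S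
      · refine ⟨e.symm (c p q), ?_, Or.inr (Or.inr ?_)⟩
        · rw [mem_compl]
          exact hS p hp q hq hpq
        · have := e.apply_symm_apply (c p q)
          exact this.symm
      · exact ⟨q, mem_compl.2 hq, Or.inr (Or.inl rfl)⟩
    · exact ⟨p, mem_compl.2 hp, Or.inl rfl⟩
  have h5 := sNum_le hatt
  have h6 : S.card + Sᶜ.card = n := by
    have := Finset.card_add_card_compl S
    simpa using this
  have h7 : (S.card : ℝ) + (Sᶜ.card : ℝ) = n := by exact_mod_cast h6
  have h8 : (sNum c : ℝ) ≤ (Sᶜ.card : ℝ) := by exact_mod_cast h5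
  linarith

lemma admissible_of_IdLS (h : IdLS c) : Admissible c := by
  refine ⟨fun i => Finite.surjective_of_injective (h.row i),
    fun j => Finite.surjective_of_injective (h.col j), fun i => ⟨i, h.idem i⟩⟩

lemma lower_aux (h : IdLS c) {K : ℝ} (hK : IndepLe c K) : (n : ℝ) - sNum c ≤ K := by
  obtain ⟨D, hD, hcard⟩ := sNum_mem c
  have hind : Indep c Dᶜ := by
    intro p hp q hq hpq hm
    rw [mem_compl] at hp hq hm
    obtain ⟨i, hi, e | e | e⟩ := hD p q hpq
    · exact hp (e ▸ hi)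
    · exact hq (e ▸ hi)
    · rw [h.idem i] at e
      exact hm (e ▸ hi)
  have h1 := hK _ hind
  have h6 : D.card + Dᶜ.card = n := by
    have := Finset.card_add_card_compl D
    simpa using this
  have h7 : (D.card : ℝ) + (Dᶜ.card : ℝ) = n := by exact_mod_cast h6
  have h8 : (D.card : ℝ) = (sNum c : ℝ) := by exact_mod_cast hcard
  linarith

end

lemma g_pos {n : ℕ} (hn : 3 ≤ n) : 1 ≤ g n := by
  have h3 : (3 : ℝ) ≤ n := by exact_mod_cast hn
  have h1 : (1 : ℝ) ≤ Real.log n := by
    rw [Real.le_log_iff_exp_le (by linarith)]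
    have := Real.exp_one_lt_d9
    linarith
  unfold g
  rw [Real.one_le_sqrt]
  nlinarith

lemma g_mono {m n : ℕ} (hm : 1 ≤ m) (h : m ≤ n) : g m ≤ g n := by
  have h1 : (1 : ℝ) ≤ m := by exact_mod_cast hm
  have h2 : (m : ℝ) ≤ n := by exact_mod_cast h
  unfold g
  refine Real.sqrt_le_sqrt ?_
  refine mul_le_mul h2 (Real.log_le_log (by linarith) h2) (Real.log_nonneg h1) (by linarith)

/-- constructions transported to `Fin n` -/
lemma exists_ls : ∃ C : ℝ, 0 < C ∧ ∀ n : ℕ, 3 ≤ n →
    ∃ op : Fin n → Fin n → Fin n, IdLS op ∧ IndepLe op (C * g n) := by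
  obtain ⟨C, hC, h⟩ := b4 (B2.b2_of_b1 stmtB1) stmtB2b b3
  refine ⟨3 * C + 4, by positivity, ?_⟩
  intro n hn
  have hg := g_pos hn
  rcases Nat.even_or_odd n with he | ho
  · obtain ⟨m, rfl⟩ : ∃ m, n = m + 1 := ⟨n - 1, by omega⟩
    have hm : Odd m := by
      rcases Nat.even_or_odd m with h1 | h1
      · exact absurd he (by rw [Nat.even_add_one]; exact not_not.2 h1)
      · exact h1
    have hm3 : 3 ≤ m := by
      obtain ⟨k, hk⟩ := hm
      omega
    obtain ⟨op, hop, hle⟩ := B5.b5 (Fin m) _ (h m hm hm3)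
    have hcard : Fintype.card (Option (Fin m)) = Fintype.card (Fin (m + 1)) := by simp
    let e : Option (Fin m) ≃ Fin (m + 1) := Fintype.equivOfCardEq hcard
    refine ⟨fun x y => e (op (e.symm x) (e.symm y)), ⟨?_, ?_, ?_⟩, ?_⟩
    · intro x a b hab
      exact e.symm.injective (hop.row _ (e.injective hab))
    · intro y a b hab
      exact e.symm.injective (hop.col _ (e.injective hab))
    · intro x
      simp only [hop.idem, Equiv.apply_symm_apply]
    · intro S hS
      have hI : Indep op (S.map e.symm.toEmbedding) := by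
        intro p hp q hq hpq hm
        rw [Finset.mem_map_equiv] at hp hq hm
        simp only [Equiv.symm_symm] at hp hq hm
        refine hS _ hp _ hq (fun hh => hpq (e.injective hh)) ?_
        simpa using hm
      have h1 := hle _ hI
      rw [Finset.card_map] at h1
      have h2 : g m ≤ g (m + 1) := g_mono (by omega) (by omega)
      have h3 := mul_le_mul_of_nonneg_left h2 hC.le
      push_cast at h1 ⊢
      nlinarith
  · obtain ⟨op, hop, _, _, hle⟩ := h n ho hn
    refine ⟨op, hop, fun S hS => (hle S hS).trans ?_⟩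
    nlinarith

/-- **Q1 up to constants.** -/
theorem f_bounds : ∃ a b : ℝ, 0 < a ∧ 0 < b ∧ ∀ n : ℕ, 3 ≤ n →
    IsGreatest (sVals n) (f n) ∧
    a * Real.sqrt (n * Real.log n) ≤ (n : ℝ) - f n ∧
    (n : ℝ) - f n ≤ b * Real.sqrt (n * Real.log n) := by
  obtain ⟨a, ha, hA⟩ := stmtA
  obtain ⟨b, hb, hB⟩ := exists_ls
  refine ⟨a, b, ha, hb, ?_⟩
  intro n hn
  obtain ⟨op, hop, hle⟩ := hB n hn
  have hgr : IsGreatest (sVals n) (f n) :=
    greatest (n := n) _ ⟨_, op, admissible_of_IdLS hop, rfl⟩ (by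
      rintro k ⟨c, _, rfl⟩; exact sNum_le_n c)
  refine ⟨hgr, ?_, ?_⟩
  · obtain ⟨c, hc, hk⟩ := hgr.1
    rw [← hk]
    refine upper_aux hc (by omega) fun op' hop' => ?_
    have := hA (Fin n) op' hop' (by rw [Fintype.card_fin]; omega)
    rwa [Fintype.card_fin] at this
  · have h1 : sNum op ≤ f n := hgr.2 ⟨op, admissible_of_IdLS hop, rfl⟩
    have h2 : (sNum op : ℝ) ≤ f n := by exact_mod_cast h1
    have h3 := lower_aux hop hle
    have h4 : b * g n = b * Real.sqrt (n * Real.log n) := rfl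
    linarith

/-- **Q2 up to constants.** -/
theorem fsym_bounds : ∃ a b : ℝ, 0 < a ∧ 0 < b ∧ ∀ n : ℕ, 3 ≤ n → Odd n →
    IsGreatest (symVals n) (fsym n) ∧
    a * Real.sqrt (n * Real.log n) ≤ (n : ℝ) - fsym n ∧
    (n : ℝ) - fsym n ≤ b * Real.sqrt (n * Real.log n) := by
  obtain ⟨a, ha, hA⟩ := stmtA
  obtain ⟨b, hb, hB⟩ := b4 (B2.b2_of_b1 stmtB1) stmtB2b b3
  refine ⟨a, b, ha, hb, ?_⟩
  intro n hn ho
  obtain ⟨op, hop, hcomm, _, hle⟩ := hB n ho hn
  have hgr : IsGreatest (symVals n) (fsym n) :=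
    greatest (n := n) _ ⟨_, op, admissible_of_IdLS hop, hcomm, rfl⟩ (by
      rintro k ⟨c, _, _, rfl⟩; exact sNum_le_n c)
  refine ⟨hgr, ?_, ?_⟩
  · obtain ⟨c, hc, _, hk⟩ := hgr.1
    rw [← hk]
    refine upper_aux hc (by omega) fun op' hop' => ?_
    have := hA (Fin n) op' hop' (by rw [Fintype.card_fin]; omega)
    rwa [Fintype.card_fin] at this
  · have h1 : sNum op ≤ fsym n := hgr.2 ⟨op, admissible_of_IdLS hop, hcomm, rfl⟩
    have h2 : (sNum op : ℝ) ≤ fsym n := by exact_mod_cast h1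
    have h3 := lower_aux hop hle
    have h4 : b * g n = b * Real.sqrt (n * Real.log n) := rfl
    linarith

end Rook
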